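import Pool.Agent.H344Z.PS.Frob

/-! Adjoint actions on associative algebras and on the symmetric algebra. -/

set_option autoImplicit false
set_option linter.unusedSectionVars false

namespace H344PS

open MvPolynomial H67OL H67OL.DOMaux

variable {K : Type} [Field K] {L : Type} [LieRing L] [LieAlgebra K L] {I : Type} [Fintype I]
  {p : ℕ} [hp : Fact p.Prime] [CharP K p]

section adR

variable {A : Type} [Ring A] [Algebra K A]

/-- the inner derivation, as a linear map -/
noncomputable def adL (K : Type) [Field K] (A : Type) [Ring A] [Algebra K A] :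
    A →ₗ[K] Module.End K A := LinearMap.mul K A - (LinearMap.mul K A).flip

lemma adL_eq (a : A) : adL K A a = adA K a := rfl

lemma exists_adR (φ : U K L →ₐ[K] A) :
    ∃ ρ : U K L →ₐ[K] Module.End K A, ∀ y, ρ (io K y) = adA K (φ (io K y)) := by
  refine exists_lift ((adL K A).comp (φ.toLinearMap.comp (io K))) fun x y => ?_
  refine LinearMap.ext fun c => ?_
  simp only [LinearMap.comp_apply, AlgHom.toLinearMap_apply, adL_eq, io_lie, map_sub, map_mul,
    LinearMap.sub_apply, Module.End.mul_apply, adA_apply]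
  noncomm_ring

/-- the adjoint action attached to an algebra map -/
noncomputable def adR (φ : U K L →ₐ[K] A) : U K L →ₐ[K] Module.End K A :=
  (exists_adR φ).choose

lemma adR_io (φ : U K L →ₐ[K] A) (y : L) : adR φ (io K y) = adA K (φ (io K y)) :=
  (exists_adR φ).choose_spec y

lemma adR_io_apply (φ : U K L →ₐ[K] A) (y : L) (a : A) :
    adR φ (io K y) a = φ (io K y) * a - a * φ (io K y) := by rw [adR_io, adA_apply]

lemma adR_J0 (R : Res p K L) (φ : U K L →ₐ[K] A) (h : ∀ y a, φ (R.z y) * a = a * φ (R.z y))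
    {u : U K L} (hu : u ∈ R.J 0) : adR φ u = 0 := by
  refine R.hom_J0 _ (fun y => ?_) hu
  rw [Res.z, map_sub, map_pow, adR_io, adR_io, adA_pow, ← adL_eq, ← adL_eq, ← map_sub, ← map_pow,
    ← map_sub]
  refine LinearMap.ext fun a => ?_
  rw [adL_eq, adA_apply]
  exact sub_eq_zero.2 (h y a)

end adR

section equiv

variable {M M' : Type} [AddCommGroup M] [Module K M] [AddCommGroup M'] [Module K M']

lemma equivar (ρ : U K L →ₐ[K] Module.End K M) (ρ' : U K L →ₐ[K] Module.End K M')
    (ψ : M →ₗ[K] M') (h : ∀ y m, ψ (ρ (io K y) m) = ρ' (io K y) (ψ m)) (u : U K L) (m : M) :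
    ψ (ρ u m) = ρ' u (ψ m) := by
  revert m
  refine U_ind (fun u => ∀ m, ψ (ρ u m) = ρ' u (ψ m)) ?_ h ?_ ?_ u
  · intro r m; simp [Module.algebraMap_end_apply]
  · intro a c ha hc m
    rw [map_mul, map_mul, Module.End.mul_apply, Module.End.mul_apply, ha, hc]
  · intro a c ha hc m
    rw [map_add, map_add, LinearMap.add_apply, LinearMap.add_apply, map_add, ha, hc]

lemma stable (ρ : U K L →ₐ[K] Module.End K M) (N : Submodule K M)
    (h : ∀ y, ∀ m ∈ N, ρ (io K y) m ∈ N) (u : U K L) : ∀ m ∈ N, ρ u m ∈ N := by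
  refine U_ind (fun u => ∀ m ∈ N, ρ u m ∈ N) ?_ h ?_ ?_ u
  · intro r m hm
    rw [AlgHom.commutes, Module.algebraMap_end_apply]
    exact N.smul_mem _ hm
  · intro a c ha hc m hm
    rw [map_mul, Module.End.mul_apply]
    exact ha _ (hc m hm)
  · intro a c ha hc m hm
    rw [map_add, LinearMap.add_apply]
    exact N.add_mem (ha m hm) (hc m hm)

end equiv

/-- the adjoint action on the enveloping algebra -/
noncomputable def rU : U K L →ₐ[K] Module.End K (U K L) := adR (AlgHom.id K _)

lemma rU_io (y : L) (a : U K L) : rU (io K y) a = io K y * a - a * io K y := adR_io_apply _ y a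

lemma rU_J0 (R : Res p K L) {u : U K L} (hu : u ∈ R.J 0) : rU u = 0 :=
  adR_J0 R _ (fun y a => R.z_comm y a) hu

lemma map_rU {A : Type} [Ring A] [Algebra K A] (φ : U K L →ₐ[K] A) (u a : U K L) :
    φ (rU u a) = adR φ u (φ a) :=
  equivar rU (adR φ) φ.toLinearMap (fun y m => by
    rw [rU_io, adR_io_apply]; simp) u a

lemma rU_mul_central (u a : U K L) {c : U K L} (hc : ∀ u, c * u = u * c) :
    rU u (a * c) = rU u a * c :=
  (equivar rU rU (LinearMap.mulRight K c) (fun y m => by
    rw [rU_io, rU_io, LinearMap.mulRight_apply, LinearMap.mulRight_apply, sub_mul, mul_assoc m,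
      mul_assoc m, hc, mul_assoc]) u a).symm

lemma comm_of_io {A : Type} [Ring A] [Algebra K A] (φ : U K L →ₐ[K] A) {c : A}
    (h : ∀ y, φ (io K y) * c = c * φ (io K y)) (u : U K L) : φ u * c = c * φ u := by
  refine U_ind (fun u => φ u * c = c * φ u) ?_ h ?_ ?_ u
  · intro r; rw [AlgHom.commutes, Algebra.commutes]
  · intro a d ha hd
    rw [map_mul, mul_assoc, hd, ← mul_assoc, ha, mul_assoc]
  · intro a d ha hd
    rw [map_add, add_mul, mul_add, ha, hd]

lemma IsInt.central {R : Res p K L} {h : U K L} (hh : IsInt R h) (a u : U K L) :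
    rU h a * u = u * rU h a := by
  refine (comm_of_io (AlgHom.id K _) (fun y => ?_) u).symm
  have h1 := rU_J0 R (hh.1 y)
  have h2 := LinearMap.congr_fun h1 a
  rw [map_mul, Module.End.mul_apply, rU_io] at h2
  exact sub_eq_zero.1 h2

/-- a nonzero value of the integral gives a nonzero value in the `p`-centre -/
theorem IsInt.exists_Zm {R : Res p K L} {h : U K L} (hh : IsInt R h) (b : Module.Basis I K L)
    {a : U K L} (ha : rU h a ≠ 0) :
    ∃ (s : MvPolynomial I K) (a' : U K L), s ≠ 0 ∧ rU h a' = R.Zm b s := by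
  obtain ⟨s, c', hs, hc', h1⟩ := exists_norm R b ha (hh.central a)
  exact ⟨s, a * c', hs, by rw [rU_mul_central _ _ hc', h1]⟩

/-! ### Derivations of the polynomial ring -/

lemma der_mul (δ : Derivation K (MvPolynomial I K) (MvPolynomial I K)) (f g : MvPolynomial I K) :
    δ (f * g) = δ f * g + f * δ g := by
  rw [δ.leibniz, smul_eq_mul, smul_eq_mul]; ring

lemma der_chain {I' : Type} [Fintype I'] (δ : Derivation K (MvPolynomial I K) (MvPolynomial I K))
    (η : I' → MvPolynomial I K) (g : MvPolynomial I' K) :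
    δ (aeval η g) = ∑ i, aeval η (pderiv i g) * δ (η i) := by
  classical
  induction g using MvPolynomial.induction_on with
  | C a => simp
  | add f g hf hg => simp only [map_add, hf, hg, add_mul, Finset.sum_add_distrib]
  | mul_X f j hf =>
    rw [map_mul, aeval_X, der_mul, hf, Finset.sum_mul]
    have : ∀ i, aeval η (pderiv i (f * X j)) * δ (η i) =
        aeval η (pderiv i f) * δ (η i) * η j + if j = i then aeval η f * δ (η j) else 0 := by
      intro i
      rw [pderiv_mul, map_add, map_mul, map_mul, aeval_X]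
      split_ifs with h
      · subst h; rw [pderiv_X_self, map_one]; ring
      · rw [pderiv_X_of_ne h, map_zero]; ring
    simp only [this, Finset.sum_add_distrib, Finset.sum_ite_eq, Finset.mem_univ, if_true]

lemma der_eq_sum (δ : Derivation K (MvPolynomial I K) (MvPolynomial I K))
    (f : MvPolynomial I K) : δ f = ∑ i, pderiv i f * δ (X i) := by
  simpa using der_chain δ X f

lemma pderiv_homog {d : ℕ} {f : MvPolynomial I K} (hf : f.IsHomogeneous (d + 1)) (i : I) :
    (pderiv i f).IsHomogeneous d := by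
  intro α hα
  rw [coeff_pderiv] at hα
  have := hf (left_ne_zero_of_mul hα)
  rw [map_add, Finsupp.weight_single] at this
  simpa using this

lemma der_homog (δ : Derivation K (MvPolynomial I K) (MvPolynomial I K))
    (hδ : ∀ i, (δ (X i)).IsHomogeneous 1) {d : ℕ} {f : MvPolynomial I K}
    (hf : f.IsHomogeneous d) : (δ f).IsHomogeneous d := by
  cases d with
  | zero =>
    rw [totalDegree_eq_zero_iff_eq_C.1 ((totalDegree_zero_iff_isHomogeneous I).2 hf), derivation_C]
    exact isHomogeneous_zero _ _ _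
  | succ d =>
    rw [der_eq_sum]
    exact IsHomogeneous.sum _ _ _ fun i _ => (pderiv_homog hf i).mul (hδ i)

/-- the Poisson derivation -/
noncomputable def DP (b : Module.Basis I K L) (y : L) :
    Derivation K (MvPolynomial I K) (MvPolynomial I K) := mkDerivation K fun i => lf b ⁅y, b i⁆

variable (b : Module.Basis I K L)

lemma DP_X (y : L) (i : I) : DP b y (X i) = lf b ⁅y, b i⁆ := mkDerivation_X _ _ _

lemma DP_lf (y w : L) : DP b y (lf b w) = lf b ⁅y, w⁆ := by
  refine bind b (fun w => DP b y (lf b w) = lf b ⁅y, w⁆) ?_ ?_ ?_ ?_ w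
  · intro i; rw [lf_basis, DP_X]
  · simp
  · intro x w hx hw; simp [hx, hw]
  · intro c x hx; simp [hx]

lemma DP_homog (y : L) {d : ℕ} {f : MvPolynomial I K} (hf : f.IsHomogeneous d) :
    (DP b y f).IsHomogeneous d :=
  der_homog _ (fun i => by rw [DP_X]; exact lf_homog b _) hf

lemma DP_Lt (y : L) {d : ℕ} {f : MvPolynomial I K} (hf : f ∈ Lt K I d) :
    DP b y f ∈ Lt K I d := by
  refine map_mem_of_monomial (DP b y).toLinearMap _ f fun α hα => ?_
  exact Lt_mono (mem_Lt.1 hf α hα) (homog_mem_Lt (DP_homog b y (isHomogeneous_monomial _ rfl)))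

lemma exists_rP : ∃ ρ : U K L →ₐ[K] Module.End K (MvPolynomial I K),
    ∀ y, ρ (io K y) = (DP b y).toLinearMap := by
  let φ : L →ₗ[K] Module.End K (MvPolynomial I K) :=
    { toFun := fun y => (DP b y).toLinearMap
      map_add' := fun x y => by
        have : DP b (x + y) = DP b x + DP b y := derivation_ext fun i => by
          simp [DP_X]
        rw [this]; rfl
      map_smul' := fun c x => by
        have : DP b (c • x) = c • DP b x := derivation_ext fun i => by
          simp [DP_X]
        rw [this]; rfl }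
  refine exists_lift φ fun x y => ?_
  have : DP b ⁅x, y⁆ = ⁅DP b x, DP b y⁆ := derivation_ext fun i => by
    rw [Derivation.commutator_apply, DP_X, DP_X, DP_X, DP_lf, DP_lf, lie_lie, map_sub]
  refine LinearMap.ext fun f => ?_
  change DP b ⁅x, y⁆ f = DP b x (DP b y f) - DP b y (DP b x f)
  rw [this, Derivation.commutator_apply]

/-- the adjoint action on the symmetric algebra -/
noncomputable def rP : U K L →ₐ[K] Module.End K (MvPolynomial I K) := (exists_rP b).choose

lemma rP_io (y : L) (f : MvPolynomial I K) : rP b (io K y) f = DP b y f :=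
  LinearMap.congr_fun ((exists_rP b).choose_spec y) f

lemma rP_homog (u : U K L) {d : ℕ} {f : MvPolynomial I K} (hf : f.IsHomogeneous d) :
    (rP b u f).IsHomogeneous d :=
  stable (rP b) (homogeneousSubmodule I K d)
    (fun y m hm => by rw [rP_io]; exact DP_homog b y hm) u f hf

lemma exp_ind (C : (I →₀ ℕ) → Prop) (h0 : C 0)
    (h1 : ∀ i α, C α → C (Finsupp.single i 1 + α)) (α : I →₀ ℕ) : C α := by
  have key : ∀ n (α : I →₀ ℕ), α.degree = n → C α := by
    intro n
    induction n with
    | zero => intro α h; rw [Finsupp.degree_eq_zero_iff] at h; rw [h]; exact h0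
    | succ n ih =>
      intro α h
      have h2 : α ≠ 0 := by rintro rfl; simp at h
      obtain ⟨i, hi⟩ := Finsupp.ne_iff.1 h2
      obtain ⟨β, rfl⟩ : ∃ β, α = Finsupp.single i 1 + β :=
        exists_add_of_le (Finsupp.single_le_iff.2 (Nat.one_le_iff_ne_zero.2 hi))
      refine h1 i β (ih β ?_)
      rw [map_add, Finsupp.degree_single] at h
      omega
  exact key _ α rfl

namespace PSym

variable {b} {S : PSym b}

theorem Sy.ad (y : L) {d : ℕ} {u : U K L} {f : MvPolynomial I K} (h : S.Sy d u f) :
    S.Sy d (rU (H344PS.io K y) u) (DP b y f) := by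
  have hw : ∀ γ : I →₀ ℕ, ∃ w, S.Sy γ.degree w (monomial γ 1) ∧
      S.Sy γ.degree (rU (H344PS.io K y) w) (DP b y (monomial γ 1)) := by
    intro γ
    refine exp_ind (fun γ => ∃ w, S.Sy γ.degree w (monomial γ 1) ∧
      S.Sy γ.degree (rU (H344PS.io K y) w) (DP b y (monomial γ 1))) ?_ ?_ γ
    · refine ⟨1, by simpa using sy_one, ?_⟩
      rw [rU_io]
      simpa using sy_zero 0
    · rintro i α ⟨w, h1, h2⟩
      have e1 : (monomial (Finsupp.single i 1 + α) (1 : K) : MvPolynomial I K) =
          lf b (b i) * monomial α 1 := by rw [lf_basis, X, monomial_mul, one_mul]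
      have e2 : (Finsupp.single i 1 + α).degree = 1 + α.degree := by
        rw [map_add, Finsupp.degree_single]
      rw [e1, e2]
      refine ⟨H344PS.io K (b i) * w, (sy_io _).mul h1, ?_⟩
      have h3 := ((sy_io (S := S) ⁅y, b i⁆).mul h1).add ((sy_io (b i)).mul h2)
      rw [der_mul, DP_lf]
      convert h3 using 1
      rw [rU_io, rU_io, io_lie]; noncomm_ring
  choose W hW1 hW2 using hw
  let Θ : MvPolynomial I K →ₗ[K] U K L := onMon W
  have hΘ1 : ∀ d, ∀ f ∈ Lt K I (d + 1), S.σ (Θ f) - f ∈ Lt K I d := by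
    intro d f hf
    refine map_mem_of_monomial (S.σ.toLinearMap.comp Θ - LinearMap.id) _ f fun α hα => ?_
    have := mem_Lt.1 hf α hα
    refine Lt_mono (show α.degree ≤ d by omega) ?_
    have h1 := (hW1 α).1
    rw [← onMon_monomial (K := K) W α] at h1
    exact h1
  have hΘ2 : ∀ d, ∀ f ∈ Lt K I (d + 1),
      S.σ (rU (H344PS.io K y) (Θ f)) - DP b y f ∈ Lt K I d := by
    intro d f hf
    refine map_mem_of_monomial (S.σ.toLinearMap.comp ((rU (H344PS.io K y)).comp Θ) -
      (DP b y).toLinearMap) _ f fun α hα => ?_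
    have := mem_Lt.1 hf α hα
    refine Lt_mono (show α.degree ≤ d by omega) ?_
    have h1 := (hW2 α).1
    rw [← onMon_monomial (K := K) W α] at h1
    exact h1
  have step : ∀ d, (∀ u, S.σ u ∈ Lt K I d → S.σ (rU (H344PS.io K y) u) ∈ Lt K I d) →
      ∀ u f, S.Sy d u f → S.Sy d (rU (H344PS.io K y) u) (DP b y f) := by
    intro d hd u f h
    have h1 : S.Sy d (Θ f) f := ⟨hΘ1 d f h.2, h.2⟩
    have h2 := hd _ (h.sub_mem h1)
    refine ⟨?_, DP_Lt b y h.2⟩
    have := Submodule.add_mem _ h2 (hΘ2 d f h.2)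
    rw [map_sub, map_sub] at this
    convert this using 1; ring
  have key : ∀ d u, S.σ u ∈ Lt K I d → S.σ (rU (H344PS.io K y) u) ∈ Lt K I d := by
    intro d
    induction d with
    | zero =>
      intro u hu
      rw [mem_Lt_zero] at hu
      have : u = 0 := S.σ.injective (by rw [hu, map_zero])
      rw [this]; simp
    | succ d ih => intro u hu; exact (step d ih u _ (sy_self hu)).deg
  exact step d (key d) u f h

theorem Sy.rho (w : U K L) {d : ℕ} {u : U K L} {f : MvPolynomial I K} (h : S.Sy d u f) :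
    S.Sy d (rU w u) (rP b w f) := by
  revert u f
  refine U_ind (fun w => ∀ {u : U K L} {f : MvPolynomial I K}, S.Sy d u f →
    S.Sy d (rU w u) (rP b w f)) ?_ ?_ ?_ ?_ w
  · intro r u f h
    rw [AlgHom.commutes, AlgHom.commutes, Module.algebraMap_end_apply,
      Module.algebraMap_end_apply]
    exact h.smul r
  · intro y u f h
    rw [rP_io]; exact h.ad y
  · intro a c ha hc u f h
    rw [map_mul, map_mul, Module.End.mul_apply, Module.End.mul_apply]
    exact ha (hc h)
  · intro a c ha hc u f h
    rw [map_add, map_add, LinearMap.add_apply, LinearMap.add_apply]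
    exact (ha h).add (hc h)

end PSym

theorem rP_eq_zero {w : U K L} (h : rU w = 0) : rP b w = 0 := by
  obtain ⟨S⟩ := exists_PSym b
  refine mon_ext fun α => ?_
  have h1 := (PSym.sy_symm (S := S) (monomial_mem_Lt α (1 : K))).rho w
  rw [h, LinearMap.zero_apply] at h1
  have h2 := h1.uniq (PSym.sy_zero _)
  rw [sub_zero] at h2
  exact homog_eq_zero (rP_homog b w (isHomogeneous_monomial _ rfl)) h2

end H344PS
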