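import Mathlib

/-! Jordan bases of nilpotent endomorphisms. -/

set_option autoImplicit false

namespace H344PS

open Polynomial

variable {K : Type} [Field K] {V : Type} [AddCommGroup V] [Module K V]

theorem exists_jordan [FiniteDimensional K V] (D : Module.End K V) (n : ℕ) (hD : D ^ n = 0) :
    ∃ (d : ℕ) (m : Fin d → ℕ) (b : Module.Basis (Σ j, Fin (m j)) K V),
      ∀ j (l : Fin (m j)), D (b ⟨j, l⟩) = if h : l + 1 < m j then b ⟨j, ⟨l + 1, h⟩⟩ else 0 := by
  classical
  have hM : Module.IsTorsion' (Module.AEval' D) (Submonoid.powers (X : K[X])) := by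
    intro x
    refine ⟨⟨X ^ n, n, rfl⟩, ?_⟩
    obtain ⟨v, rfl⟩ := (Module.AEval'.of D).surjective x
    change (X ^ n : K[X]) • Module.AEval'.of D v = 0
    rw [Module.AEval'.X_pow_smul_of, hD]; simp
  obtain ⟨d, k, ⟨e⟩⟩ := Module.torsion_by_prime_power_decomposition irreducible_X hM
  let b0 : ∀ i : Fin d, Module.Basis (Fin ((X : K[X]) ^ k i).natDegree) K
      (K[X] ⧸ K[X] ∙ (X : K[X]) ^ k i) := fun i =>
    (AdjoinRoot.powerBasis' (monic_X_pow (k i))).basis
  have hb0 : ∀ i l, b0 i l = Submodule.Quotient.mk (X ^ (l : ℕ)) := by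
    intro i l
    have := (AdjoinRoot.powerBasis' (monic_X_pow (R := K) (k i))).basis_eq_pow l
    refine this.trans ?_
    rw [AdjoinRoot.powerBasis'_gen, AdjoinRoot.root, ← map_pow]
    rfl
  let e2 := e.trans (DirectSum.linearEquivFunOnFintype K[X] (Fin d) _)
  let b := (Pi.basis b0).map ((e2.restrictScalars K).symm.trans (Module.AEval'.of D).symm)
  have hb : ∀ j l, b ⟨j, l⟩ = (Module.AEval'.of D).symm
      (e2.symm (Pi.single j (Submodule.Quotient.mk (X ^ (l : ℕ))))) := by
    intro j l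
    rw [Module.Basis.map_apply, Pi.basis_apply, hb0]; rfl
  refine ⟨d, fun i => ((X : K[X]) ^ k i).natDegree, b, fun j l => ?_⟩
  rw [hb, ← Module.AEval'.of_symm_X_smul, ← map_smul, ← Pi.single_smul,
    ← Submodule.Quotient.mk_smul, smul_eq_mul, ← pow_succ']
  split_ifs with h
  · rw [hb]
  · have h1 : (l : ℕ) + 1 = k j := by
      have := l.2
      simp only [natDegree_X_pow] at h this
      omega
    rw [h1, (Submodule.Quotient.mk_eq_zero _).2 (Submodule.mem_span_singleton_self _)]
    simp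

/-- combinatorial data of a Jordan basis -/
structure Jor (I J : Type) where
  /-- the block -/
  blk : I → J
  /-- the position in the block -/
  pos : I → ℕ
  /-- the next index -/
  nxt : I → Option I
  n1 : ∀ i i', nxt i = some i' → blk i' = blk i ∧ pos i' = pos i + 1
  n2 : ∀ i i', blk i = blk i' → pos i = pos i' → i = i'
  n3 : ∀ i' t, pos i' = t + 1 → ∃ i, nxt i = some i'

theorem exists_Jor [FiniteDimensional K V] (D : Module.End K V) (n : ℕ) (hD : D ^ n = 0) :
    ∃ (I J : Type) (_ : Fintype I) (_ : Fintype J) (b : Module.Basis I K V) (T : Jor I J),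
      ∀ i, D (b i) = (T.nxt i).elim 0 b := by
  obtain ⟨d, m, b, hb⟩ := exists_jordan D n hD
  refine ⟨Σ j, Fin (m j), Fin d, inferInstance, inferInstance, b,
    ⟨fun i => i.1, fun i => i.2,
      fun i => if h : i.2 + 1 < m i.1 then some ⟨i.1, ⟨i.2 + 1, h⟩⟩ else none, ?_, ?_, ?_⟩, ?_⟩
  · rintro ⟨j, l⟩ i' h
    dsimp only at h
    split_ifs at h with h1
    obtain rfl := Option.some.inj h
    exact ⟨rfl, rfl⟩
  · rintro ⟨j, l⟩ ⟨j', l'⟩ h1 h2
    dsimp only at h1 h2
    subst h1
    rw [Fin.ext h2]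
  · rintro ⟨j, l⟩ t h
    dsimp only at h
    have := l.2
    refine ⟨⟨j, ⟨t, by omega⟩⟩, ?_⟩
    dsimp only
    rw [dif_pos (by omega)]
    congr 2
    exact Fin.ext h.symm
  · rintro ⟨j, l⟩
    rw [hb]
    dsimp only
    split_ifs <;> rfl

end H344PS
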