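import Pool.Agent.H344Z.PS.Tor
import Pool.Agent.H344Z.PS.Jor

/-! Freeness of the large part of the symmetric algebra under a nilpotent derivation. -/

set_option autoImplicit false
set_option linter.unusedSectionVars false

namespace H344PS

open MvPolynomial H67OL H67OL.DOMaux

variable {K : Type} [Field K] {I : Type} [Fintype I] {p : ℕ} [hp : Fact p.Prime] [CharP K p]

/-- relative freeness -/
def Fr {M : Type} [AddCommGroup M] [Module K M] (p : ℕ) (D : Module.End K M)
    (A N : Submodule K M) : Prop := ∀ f ∈ A, D f ∈ N → ∃ g ∈ A, f - (D ^ (p - 1)) g ∈ N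

lemma pow_mem {M : Type} [AddCommGroup M] [Module K M] (D : Module.End K M) (A : Submodule K M)
    (hA : ∀ f ∈ A, D f ∈ A) (n : ℕ) : ∀ f ∈ A, (D ^ n) f ∈ A := by
  induction n with
  | zero => intro f hf; simpa using hf
  | succ n ih => intro f hf; rw [pow_succ', Module.End.mul_apply]; exact hA _ (ih f hf)

lemma Fr.ker_im {M : Type} [AddCommGroup M] [Module K M] {D : Module.End K M}
    {A N : Submodule K M} (h : Fr p D A N) (hA : ∀ f ∈ A, D f ∈ A) :
    ∀ j e, j + e = p → ∀ f ∈ A, (D ^ j) f ∈ N → ∃ g ∈ A, f - (D ^ e) g ∈ N := by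
  intro j
  induction j with
  | zero => intro e _ f _ hf; exact ⟨0, A.zero_mem, by simpa using hf⟩
  | succ j ih =>
    intro e he f hf hN
    rw [pow_succ', Module.End.mul_apply] at hN
    obtain ⟨w, hw, h1⟩ := h _ (pow_mem D A hA j f hf) hN
    have e1 : p - 1 = j + e := by omega
    rw [e1, pow_add, Module.End.mul_apply, ← map_sub] at h1
    obtain ⟨w', hw', h2⟩ := ih (e + 1) (by omega) _ (A.sub_mem hf (pow_mem D A hA e w hw)) h1
    refine ⟨w + D w', A.add_mem hw (hA _ hw'), ?_⟩
    rw [pow_succ, Module.End.mul_apply] at h2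
    rwa [map_add, ← sub_sub]

lemma free_step (δ : Derivation K (MvPolynomial I K) (MvPolynomial I K))
    (hδp : δ.toLinearMap ^ p = 0) (B : ℕ → Submodule K (MvPolynomial I K))
    (N N' : Submodule K (MvPolynomial I K)) (c u : MvPolynomial I K)
    (hB : ∀ k, ∀ f ∈ B k, δ f ∈ B k) (hN' : ∀ f ∈ N', δ f ∈ N')
    (idN' : ∀ g, ∀ f ∈ N', g * f ∈ N') (hle : N' ≤ N) (hcN : ∀ g, c * g ∈ N)
    (F1 : ∀ k, ∀ f ∈ B (k + 1), f ∈ N → ∃ f' ∈ B k, f - c * f' ∈ N')
    (F2 : ∀ f, c * f ∈ N' → f ∈ N') (F3 : δ c ∈ N') (F4 : δ u = c)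
    (F5 : ∀ k, ∀ f ∈ B k, c * f ∈ B (k + 1))
    (F6 : ∀ k, ∃ π : MvPolynomial I K →ₗ[K] MvPolynomial I K, (∀ f, π f ∈ B k) ∧
      (∀ f ∈ B k, π f = f) ∧ (∀ f, δ (π f) = π (δ f)) ∧ ∀ f ∈ N', π f ∈ N')
    (ih : ∀ k, p ≤ k → Fr p δ.toLinearMap (B k) N) (k : ℕ) (hk : p ≤ k) :
    Fr p δ.toLinearMap (B k) N' := by
  set D : Module.End K (MvPolynomial I K) := δ.toLinearMap with hD
  have hDa : ∀ f, D f = δ f := fun f => rfl
  intro f hf hfN
  have h1 : ∀ i n, n + i < p → ∃ a : K, a ≠ 0 ∧
      (D ^ i) (u ^ (n + i) * f) - a • (u ^ n * c ^ i * f) ∈ N' := by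
    intro i
    induction i with
    | zero => intro n _; exact ⟨1, one_ne_zero, by simp⟩
    | succ i ih =>
      intro n hn
      obtain ⟨a, ha, h2⟩ := ih (n + 1) (by omega)
      have h3 : ((n + 1 : ℕ) : K) ≠ 0 := by
        rw [Ne, CharP.cast_eq_zero_iff K p]
        exact Nat.not_dvd_of_pos_of_lt (by omega) (by omega)
      refine ⟨a * ((n + 1 : ℕ) : K), mul_ne_zero ha h3, ?_⟩
      have h4 := hN' _ h2
      have h5 := idN' (u ^ (n + 1) * f * (i * c ^ (i - 1))) _ F3
      have h6 := idN' (u ^ (n + 1) * c ^ i) _ hfN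
      have h7 := N'.add_mem h4 (N'.smul_mem a (N'.add_mem h5 h6))
      convert h7 using 1
      rw [pow_succ', Module.End.mul_apply, hDa, hDa, map_sub, Derivation.map_smul,
        show n + (i + 1) = n + 1 + i by ring, der_mul, der_mul, δ.leibniz_pow, δ.leibniz_pow, F4]
      simp only [smul_eq_C_mul, smul_eq_mul, nsmul_eq_mul, map_mul, map_natCast,
        Nat.add_sub_cancel]
      ring
  have h2 : ∀ n w, (D ^ n) (c * w) - c * (D ^ n) w ∈ N' := by
    intro n w
    induction n with
    | zero => simp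
    | succ n ih =>
      have h3 := N'.add_mem (hN' _ ih) (idN' ((D ^ n) w) _ F3)
      convert h3 using 1
      rw [pow_succ', Module.End.mul_apply, Module.End.mul_apply, hDa, hDa, map_sub, der_mul]
      ring
  have h3 : ∀ i, (∃ g ∈ B (k + i), c ^ i * f - (D ^ (p - 1)) g ∈ N') →
      ∃ g ∈ B k, f - (D ^ (p - 1)) g ∈ N' := by
    intro i
    induction i with
    | zero => intro h; simpa using h
    | succ i ihi =>
      rintro ⟨g, hg, h4⟩
      apply ihi
      have h5 : (D ^ (p - 1)) g ∈ N := by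
        have := N.sub_mem (hcN (c ^ i * f)) (hle h4)
        rwa [← mul_assoc, ← pow_succ', sub_sub_cancel] at this
      obtain ⟨g1, hg1, h6⟩ := (ih (k + (i + 1)) (by omega)).ker_im (hB _) (p - 1) 1
        (by have := hp.out.pos; omega) g hg h5
      rw [pow_one] at h6
      obtain ⟨g2, hg2, h7⟩ := F1 (k + i) _ ((B _).sub_mem hg (hB _ _ hg1)) h6
      refine ⟨g2, hg2, F2 _ ?_⟩
      have h8 := pow_mem D N' hN' (p - 1) _ h7
      have h9 : (D ^ (p - 1)) (D g1) = 0 := by
        rw [← Module.End.mul_apply, ← pow_succ,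
          show p - 1 + 1 = p by have := hp.out.pos; omega, hδp]; rfl
      rw [map_sub, map_sub] at h8
      change (D ^ (p - 1)) g - (D ^ (p - 1)) (D g1) - _ ∈ _ at h8
      rw [h9, sub_zero] at h8
      have := N'.add_mem (N'.add_mem h4 h8) (h2 (p - 1) g2)
      convert this using 1
      ring
  apply h3 (p - 1)
  obtain ⟨a, ha, h4⟩ := h1 (p - 1) 0 (by have := hp.out.pos; omega)
  obtain ⟨π, p1, p2, p3, p4⟩ := F6 (k + (p - 1))
  have h5 : ∀ i, c ^ i * f ∈ B (k + i) := by
    intro i
    induction i with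
    | zero => simpa using hf
    | succ i ih => rw [pow_succ', mul_assoc]; exact F5 _ _ ih
  have h6 : ∀ n w, (D ^ n) (π w) = π ((D ^ n) w) := by
    intro n w
    induction n with
    | zero => simp
    | succ n ih => rw [pow_succ', Module.End.mul_apply, Module.End.mul_apply, ih, hDa, hDa, p3]
  refine ⟨a⁻¹ • π (u ^ (0 + (p - 1)) * f), (B _).smul_mem _ (p1 _), ?_⟩
  have h7 := N'.smul_mem (-a⁻¹) (p4 _ h4)
  rw [pow_zero, one_mul, map_sub, map_smul, p2 _ (h5 _), ← h6] at h7
  convert h7 using 1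
  rw [map_smul, smul_sub, smul_smul, neg_mul, inv_mul_cancel₀ ha]
  simp only [neg_smul, one_smul]
  ring

/-- polynomials supported on a set of exponents -/
def MS (K : Type) [Field K] {I : Type} (Q : (I →₀ ℕ) → Prop) : Submodule K (MvPolynomial I K) where
  carrier := {f | ∀ α, coeff α f ≠ 0 → Q α}
  add_mem' := by
    intro f g hf hg α hα
    by_cases h : coeff α f = 0
    · rw [coeff_add, h, zero_add] at hα; exact hg α hα
    · exact hf α h
  zero_mem' := by intro α h; simp at h
  smul_mem' := by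
    intro c f hf α hα
    rw [coeff_smul, smul_eq_mul] at hα
    exact hf α (right_ne_zero_of_mul hα)

lemma mem_MS {Q : (I →₀ ℕ) → Prop} {f : MvPolynomial I K} :
    f ∈ MS K Q ↔ ∀ α, coeff α f ≠ 0 → Q α := Iff.rfl

open Classical in
/-- projection on a set of exponents -/
noncomputable def pr (K : Type) [Field K] {I : Type} (Q : (I →₀ ℕ) → Prop) :
    MvPolynomial I K →ₗ[K] MvPolynomial I K := onMon fun α => if Q α then monomial α 1 else 0

open Classical in
lemma coeff_pr (Q : (I →₀ ℕ) → Prop) (f : MvPolynomial I K) (α : I →₀ ℕ) :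
    coeff α (pr K Q f) = if Q α then coeff α f else 0 := by
  have : (lcoeff K α).comp (pr K Q) = if Q α then lcoeff K α else 0 := by
    refine mon_ext fun β => ?_
    rw [LinearMap.comp_apply, pr, onMon_monomial]
    by_cases h : β = α
    · subst h; split_ifs <;> simp
    · split_ifs <;> simp [coeff_monomial, h]
  have h2 := LinearMap.congr_fun this f
  rw [LinearMap.comp_apply, lcoeff_apply] at h2
  rw [h2]; split_ifs <;> simp

lemma pr_mem (Q : (I →₀ ℕ) → Prop) (f : MvPolynomial I K) : pr K Q f ∈ MS K Q := by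
  intro α hα
  rw [coeff_pr] at hα
  by_contra h
  exact hα (if_neg h)

lemma pr_mem' (Q : (I →₀ ℕ) → Prop) {Q' : (I →₀ ℕ) → Prop} {f : MvPolynomial I K}
    (hf : f ∈ MS K Q') : pr K Q f ∈ MS K Q' := by
  intro α hα
  rw [coeff_pr] at hα
  refine hf α fun h => hα ?_
  rw [h, ite_self]

lemma pr_eq {Q : (I →₀ ℕ) → Prop} {f : MvPolynomial I K} (hf : f ∈ MS K Q) : pr K Q f = f := by
  ext α
  rw [coeff_pr]
  split_ifs with h
  · rfl
  · by_contra h2
    exact h (hf α fun h3 => h2 h3.symm)

lemma MS_mul {Q : (I →₀ ℕ) → Prop} (hQ : ∀ a c, Q c → Q (a + c)) (g : MvPolynomial I K) :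
    ∀ f ∈ MS K Q, g * f ∈ MS K Q := by
  classical
  intro f hf α hα
  rw [coeff_mul] at hα
  obtain ⟨x, hx, h⟩ := Finset.exists_ne_zero_of_sum_ne_zero hα
  rw [← Finset.HasAntidiagonal.mem_antidiagonal.1 hx]
  exact hQ _ _ (hf _ (right_ne_zero_of_mul h))

lemma coeff_X_mul_ne {i : I} {g : MvPolynomial I K} {γ : I →₀ ℕ} (h : coeff γ (X i * g) ≠ 0) :
    ∃ β, γ = β + Finsupp.single i 1 ∧ coeff β g ≠ 0 := by
  classical
  rw [coeff_X_mul'] at h
  split_ifs at h with h1
  · exact ⟨_, (Finsupp.sub_add_single_one_cancel (Finsupp.mem_support_iff.1 h1)).symm, h⟩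
  · exact absurd rfl h

namespace Jor

variable {J : Type} (T : Jor I J)

/-- stability of a set of exponents -/
def Stab (K : Type) [Field K] (Q : (I →₀ ℕ) → Prop) : Prop :=
  ∀ (β : I →₀ ℕ) i i', T.nxt i = some i' → (β i : K) + 1 ≠ 0 →
    Q (β + Finsupp.single i 1) → Q (β + Finsupp.single i' 1)

variable {T}

lemma der_MS {δ : Derivation K (MvPolynomial I K) (MvPolynomial I K)}
    (hδ : ∀ i, δ (X i) = (T.nxt i).elim 0 X) {Q : (I →₀ ℕ) → Prop} (hQ : T.Stab K Q) :
    ∀ f ∈ MS K Q, δ f ∈ MS K Q := by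
  intro f hf γ hγ
  rw [der_eq_sum, coeff_sum] at hγ
  obtain ⟨i, -, h⟩ := Finset.exists_ne_zero_of_sum_ne_zero hγ
  rw [hδ] at h
  cases hi : T.nxt i with
  | none => rw [hi] at h; simp at h
  | some i' =>
    rw [hi, Option.elim_some, mul_comm] at h
    obtain ⟨β, rfl, h2⟩ := coeff_X_mul_ne h
    rw [coeff_pderiv] at h2
    exact hQ β i i' hi (right_ne_zero_of_mul h2) (hf _ (left_ne_zero_of_mul h2))

lemma pr_comm {δ : Derivation K (MvPolynomial I K) (MvPolynomial I K)}
    (hδ : ∀ i, δ (X i) = (T.nxt i).elim 0 X) {Q : (I →₀ ℕ) → Prop} (hQ : T.Stab K Q)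
    (hQ' : T.Stab K fun α => ¬ Q α) (f : MvPolynomial I K) : δ (pr K Q f) = pr K Q (δ f) := by
  have h1 : f = pr K Q f + pr K (fun α => ¬ Q α) f := by
    ext α
    rw [coeff_add, coeff_pr, coeff_pr]
    by_cases h : Q α <;> simp [h]
  ext γ
  rw [coeff_pr]
  split_ifs with h
  · conv_rhs => rw [h1, map_add, coeff_add]
    have : coeff γ (δ (pr K (fun α => ¬ Q α) f)) = 0 := by
      by_contra h2
      exact der_MS hδ hQ' _ (pr_mem _ f) γ h2 h
    rw [this, add_zero]
  · by_contra h2
    exact h (der_MS hδ hQ _ (pr_mem _ f) γ h2)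

open Classical in
/-- the reduced degree in a block -/
noncomputable def wt (T : Jor I J) (p : ℕ) (j : J) (α : I →₀ ℕ) : ℕ :=
  ∑ i, if T.blk i = j then (if T.pos i = 0 then α i % p else α i) else 0

open Classical in
lemma wt_add (j : J) (β : I →₀ ℕ) (i : I) (h : (β i : K) + 1 ≠ 0 ∨ T.pos i ≠ 0) :
    T.wt p j (β + Finsupp.single i 1) = T.wt p j β + if T.blk i = j then 1 else 0 := by
  unfold wt
  have : ∀ i', (if T.blk i' = j then (if T.pos i' = 0 then (β + Finsupp.single i 1 : I →₀ ℕ) i' % p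
      else (β + Finsupp.single i 1 : I →₀ ℕ) i') else 0) =
      (if T.blk i' = j then (if T.pos i' = 0 then β i' % p else β i') else 0) +
        if i = i' then (if T.blk i = j then 1 else 0) else 0 := by
    intro i'
    by_cases hi : i = i'
    · subst hi
      simp only [Finsupp.add_apply, Finsupp.single_eq_same, if_true]
      split_ifs with h1 h2
      · have h3 := h.resolve_right (not_not.2 h2)
        rw [← Nat.cast_succ, Ne, CharP.cast_eq_zero_iff K p] at h3
        have h4 := Nat.mod_lt (β i) hp.out.pos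
        have h5 := Nat.div_add_mod (β i) p
        have h6 : β i % p + 1 < p := by
          by_contra h7
          refine h3 ⟨β i / p + 1, ?_⟩
          rw [mul_add, mul_one]; omega
        conv_lhs => rw [← h5, add_assoc, Nat.mul_add_mod, Nat.mod_eq_of_lt h6]
      · rfl
      · rfl
    · simp [Finsupp.single_eq_of_ne' hi, hi]
  simp only [this, Finset.sum_add_distrib, Finset.sum_ite_eq, Finset.mem_univ, if_true]

lemma wt_inv (j : J) (β : I →₀ ℕ) {i i' : I} (hi : T.nxt i = some i') (h : (β i : K) + 1 ≠ 0) :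
    T.wt p j (β + Finsupp.single i 1) = T.wt p j (β + Finsupp.single i' 1) := by
  obtain ⟨h1, h2⟩ := T.n1 i i' hi
  rw [wt_add (K := K) j β i (Or.inl h), wt_add (K := K) j β i' (Or.inr (by omega)), h1]

lemma stab_wt (Q : (J → ℕ) → Prop) : T.Stab K fun α => Q fun j => T.wt p j α := by
  intro β i i' hi h hQ
  have : (fun j => T.wt p j (β + Finsupp.single i' 1)) =
      fun j => T.wt p j (β + Finsupp.single i 1) := funext fun j => (wt_inv j β hi h).symm
  rw [this]; exact hQ

lemma stab_deg (Q : ℕ → Prop) : T.Stab K fun α => Q α.degree := by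
  intro β i i' _ _ hQ
  simpa using hQ

theorem free_big {δ : Derivation K (MvPolynomial I K) (MvPolynomial I K)}
    (hδ : ∀ i, δ (X i) = (T.nxt i).elim 0 X) (hδp : δ.toLinearMap ^ p = 0) (j : J) (t : ℕ) :
    ∀ k, p ≤ k → Fr p δ.toLinearMap (MS K fun α => T.wt p j α = k)
      (MS K fun α => ∃ i, T.blk i = j ∧ t + 1 ≤ T.pos i ∧ α i ≠ 0) := by
  classical
  induction t with
  | zero =>
    intro k hk f hf _
    refine ⟨0, Submodule.zero_mem _, ?_⟩
    rw [map_zero, sub_zero]
    intro α hα
    have h1 : T.wt p j α = k := hf α hα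
    by_contra h2
    push Not at h2
    have h3 := hp.out.pos
    unfold wt at h1
    by_cases h4 : ∃ i0, T.blk i0 = j ∧ T.pos i0 = 0
    · obtain ⟨i0, h5, h6⟩ := h4
      rw [Finset.sum_eq_single i0, if_pos h5, if_pos h6] at h1
      · have := Nat.mod_lt (α i0) h3
        omega
      · intro i _ hi
        split_ifs with h7 h8
        · exact absurd (T.n2 i i0 (h7.trans h5.symm) (h8.trans h6.symm)) hi
        · exact h2 i h7 (by omega)
        · rfl
      · intro h; exact absurd (Finset.mem_univ _) h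
    · rw [Finset.sum_eq_zero] at h1
      · omega
      · intro i _
        split_ifs with h7 h8
        · exact absurd ⟨i, h7, h8⟩ h4
        · exact h2 i h7 (by omega)
        · rfl
  | succ t ih =>
    by_cases hc : ∃ c, T.blk c = j ∧ T.pos c = t + 1
    · obtain ⟨c, hc1, hc2⟩ := hc
      obtain ⟨u, hu⟩ := T.n3 c t hc2
      have hwc : ∀ β, T.wt p j (β + Finsupp.single c 1) = T.wt p j β + 1 := fun β => by
        rw [wt_add (K := K) j β c (Or.inr (by omega)), if_pos hc1]
      refine free_step δ hδp (fun k => MS K fun α => T.wt p j α = k) _ _ (X c) (X u)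
        (fun k => der_MS hδ (stab_wt fun w => w j = k)) (der_MS hδ ?_) (MS_mul ?_) ?_ ?_ ?_ ?_ ?_
        ?_ ?_ ?_ ih
      · rintro β i i' hi - ⟨i0, h1, h2, h3⟩
        obtain ⟨h4, h5⟩ := T.n1 i i' hi
        by_cases h6 : β i0 = 0
        · have : i = i0 := by
            by_contra h7
            simp [h6, Finsupp.single_eq_of_ne' h7] at h3
          subst this
          exact ⟨i', h4.trans h1, by omega, by simp⟩
        · exact ⟨i0, h1, h2, by simp [h6]⟩
      · rintro a c' ⟨i, h1, h2, h3⟩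
        exact ⟨i, h1, h2, by simp [h3]⟩
      · intro f hf α hα
        obtain ⟨i, h1, h2, h3⟩ := hf α hα
        exact ⟨i, h1, by omega, h3⟩
      · intro g α hα
        obtain ⟨β, rfl, -⟩ := coeff_X_mul_ne hα
        exact ⟨c, hc1, by omega, by simp⟩
      · intro k f hf hN
        refine ⟨f.divMonomial (Finsupp.single c 1), fun α hα => ?_, fun α hα => ?_⟩
        · rw [coeff_divMonomial, add_comm] at hα
          have h1 : T.wt p j _ = k + 1 := hf _ hα
          rw [hwc] at h1
          show T.wt p j α = k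
          omega
        · have h2 : f - X c * f.divMonomial (Finsupp.single c 1) =
              f.modMonomial (Finsupp.single c 1) :=
            sub_eq_iff_eq_add'.2 (f.divMonomial_add_modMonomial_single c).symm
          rw [h2] at hα
          by_cases h3 : Finsupp.single c 1 ≤ α
          · rw [coeff_modMonomial_of_le _ h3] at hα; exact absurd rfl hα
          · rw [coeff_modMonomial_of_not_le _ h3] at hα
            obtain ⟨i, h4, h5, h6⟩ := hN α hα
            refine ⟨i, h4, ?_, h6⟩
            by_contra h7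
            have : i = c := T.n2 i c (h4.trans hc1.symm) (by omega)
            subst this
            exact h3 (Finsupp.single_le_iff.2 (by omega))
      · intro f hf α hα
        obtain ⟨i, h1, h2, h3⟩ := hf (Finsupp.single c 1 + α) (by rwa [coeff_X_mul])
        have : c ≠ i := by rintro rfl; omega
        exact ⟨i, h1, h2, by simpa [Finsupp.single_eq_of_ne' this] using h3⟩
      · rw [hδ]
        cases hi : T.nxt c with
        | none => exact Submodule.zero_mem _
        | some c' =>
          obtain ⟨h1, h2⟩ := T.n1 c c' hi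
          intro α hα
          rw [Option.elim_some, ← mul_one (X c')] at hα
          obtain ⟨β, rfl, -⟩ := coeff_X_mul_ne hα
          exact ⟨c', h1.trans hc1, by omega, by simp⟩
      · rw [hδ, hu]; rfl
      · intro k f hf α hα
        obtain ⟨β, rfl, h1⟩ := coeff_X_mul_ne hα
        have h2 : T.wt p j β = k := hf β h1
        show T.wt p j _ = k + 1
        rw [hwc, h2]
      · intro k
        exact ⟨pr K fun α => T.wt p j α = k, pr_mem _, fun f hf => pr_eq hf,
          pr_comm hδ (stab_wt fun w => w j = k) (stab_wt fun w => ¬ w j = k),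
          fun f hf => pr_mem' _ hf⟩
    · have : (fun α : I →₀ ℕ => ∃ i, T.blk i = j ∧ t + 1 + 1 ≤ T.pos i ∧ α i ≠ 0) =
          fun α => ∃ i, T.blk i = j ∧ t + 1 ≤ T.pos i ∧ α i ≠ 0 := by
        funext α
        apply propext
        constructor
        · rintro ⟨i, h1, h2, h3⟩; exact ⟨i, h1, by omega, h3⟩
        · rintro ⟨i, h1, h2, h3⟩
          refine ⟨i, h1, ?_, h3⟩
          by_contra h4
          exact hc ⟨i, h1, by omega⟩
      rw [this]; exact ih

theorem big_lift {δ : Derivation K (MvPolynomial I K) (MvPolynomial I K)}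
    (hδ : ∀ i, δ (X i) = (T.nxt i).elim 0 X) (hδp : δ.toLinearMap ^ p = 0) (j : J) (k : ℕ)
    (hk : p ≤ k) {f : MvPolynomial I K} (hf : f ∈ MS K fun α => T.wt p j α = k) (h0 : δ f = 0)
    {m : ℕ} (hm : f.IsHomogeneous m) :
    ∃ g : MvPolynomial I K, g.IsHomogeneous m ∧ f = (δ.toLinearMap ^ (p - 1)) g := by
  obtain ⟨g, -, hg⟩ := free_big hδ hδp j (Finset.univ.sup T.pos) k hk f hf
    (by change δ f ∈ _; rw [h0]; exact Submodule.zero_mem _)
  have h1 : f = (δ.toLinearMap ^ (p - 1)) g := by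
    rw [← sub_eq_zero]
    ext α
    by_contra h2
    obtain ⟨i, -, h3, -⟩ := hg α h2
    have := Finset.le_sup (f := T.pos) (Finset.mem_univ i)
    omega
  have h2 : ∀ n w, (δ.toLinearMap ^ n) (pr K (fun α => α.degree = m) w) =
      pr K (fun α => α.degree = m) ((δ.toLinearMap ^ n) w) := by
    intro n w
    induction n with
    | zero => simp
    | succ n ih =>
      rw [pow_succ', Module.End.mul_apply, Module.End.mul_apply, ih]
      exact pr_comm hδ (stab_deg fun d => d = m) (stab_deg fun d => ¬ d = m) _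
  refine ⟨pr K (fun α => α.degree = m) g, fun α hα => ?_, ?_⟩
  · have h3 : α.degree = m := pr_mem _ g α hα
    rwa [Finsupp.degree_eq_weight_one] at h3
  · rw [h2, ← h1, pr_eq]
    intro α hα
    rw [Finsupp.degree_eq_weight_one]
    exact hm hα

end Jor

end H344PS
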