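import Pool.Agent.H344Z.PS.Res

/-! Reduced monomials, the Frobenius form, the integral and the norm. -/

set_option autoImplicit false
set_option linter.unusedSectionVars false

namespace H344PS

open MvPolynomial H67OL H67OL.DOMaux

variable {K : Type} [Field K] {L : Type} [LieRing L] [LieAlgebra K L] {I : Type} [Fintype I]
  {p : ℕ} [hp : Fact p.Prime] [CharP K p]

/-- the largest reduced exponent -/
noncomputable def tau (p : ℕ) (I : Type) [Fintype I] : I →₀ ℕ :=
  Finsupp.equivFunOnFinite.symm fun _ => p - 1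

@[simp] lemma tau_apply (i : I) : tau p I i = p - 1 := rfl

/-- the reduced exponents -/
noncomputable def Red (p : ℕ) (I : Type) [Fintype I] : Finset (I →₀ ℕ) := by
  classical exact Finset.Iic (tau p I)

lemma mem_Red' {α : I →₀ ℕ} : α ∈ Red p I ↔ α ≤ tau p I := by
  classical
  unfold Red
  convert Finset.mem_Iic

lemma mem_Red {α : I →₀ ℕ} : α ∈ Red p I ↔ ∀ i, α i < p := by
  rw [mem_Red', Finsupp.le_def]
  have := hp.out.pos
  refine forall_congr' fun i => ?_
  rw [tau_apply]; omega

lemma sub_homog_mem {d : ℕ} {f : MvPolynomial I K} (hf : f ∈ Lt K I (d + 1)) :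
    f - homogeneousComponent d f ∈ Lt K I d := by
  rw [mem_Lt] at hf ⊢
  intro α hα
  rw [coeff_sub, coeff_homogeneousComponent] at hα
  split_ifs at hα with h
  · simp at hα
  · have := hf α (by simpa using hα)
    omega

namespace PSym

variable {b : Module.Basis I K L} {S : PSym b} (R : Res p K L)

lemma Sy.top {d : ℕ} {u : U K L} {f : MvPolynomial I K} (h : S.Sy d u f) :
    S.Sy d u (homogeneousComponent d f) := h.congr (sub_homog_mem h.2)

lemma Sy.sub_mem {d : ℕ} {u v : U K L} {f : MvPolynomial I K} (h : S.Sy d u f)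
    (h' : S.Sy d v f) : S.σ (u - v) ∈ Lt K I d := by
  have := (h.sub h').1
  rwa [sub_self, sub_zero] at this

/-- a submodule containing an element with every monomial symbol, inductively, is everything -/
lemma top_of_monomial (S : PSym b) (W : Submodule K (U K L))
    (h : ∀ γ : I →₀ ℕ, (∀ u, S.σ u ∈ Lt K I γ.degree → u ∈ W) →
      ∃ w ∈ W, S.Sy γ.degree w (monomial γ 1)) (u : U K L) : u ∈ W := by
  have key : ∀ d u, S.σ u ∈ Lt K I d → u ∈ W := by
    intro d
    induction d with
    | zero =>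
      intro u hu
      rw [mem_Lt_zero] at hu
      have : u = 0 := S.σ.injective (by rw [hu, map_zero])
      rw [this]; exact W.zero_mem
    | succ d ih =>
      intro u hu
      have h1 := map_mem_of_monomial S.σ.symm.toLinearMap W (S.σ u) fun γ hγ => ?_
      · simpa using h1
      have hd : γ.degree ≤ d := Nat.le_of_lt_succ (mem_Lt.1 hu γ hγ)
      obtain ⟨w, hw, hs⟩ := h γ fun u hu => ih u (Lt_mono hd hu)
      have h2 := ih _ (Lt_mono hd ((sy_symm (monomial_mem_Lt γ 1)).sub_mem hs))
      have := W.add_mem h2 hw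
      rwa [sub_add_cancel] at this
  exact key _ u (mem_Lt_self _)

theorem span_Z (a : (I →₀ ℕ) → U K L)
    (ha : ∀ α ∈ Red p I, S.Sy α.degree (a α) (monomial α 1)) (u : U K L) :
    ∃ g : (I →₀ ℕ) → MvPolynomial I K, u = ∑ α ∈ Red p I, R.Zm b (g α) * a α := by
  classical
  let W : Submodule K (U K L) :=
    { carrier := {u | ∃ g : (I →₀ ℕ) → MvPolynomial I K, u = ∑ α ∈ Red p I, R.Zm b (g α) * a α}
      add_mem' := by
        rintro _ _ ⟨g, rfl⟩ ⟨g', rfl⟩
        exact ⟨g + g', by simp [add_mul, Finset.sum_add_distrib]⟩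
      zero_mem' := ⟨0, by simp⟩
      smul_mem' := by
        rintro c _ ⟨g, rfl⟩
        exact ⟨c • g, by simp [Finset.smul_sum]⟩ }
  refine top_of_monomial S W (fun γ hγ => ?_) u
  by_cases h : γ ∈ Red p I
  · refine ⟨a γ, ⟨Pi.single γ 1, ?_⟩, ha γ h⟩
    rw [Finset.sum_eq_single γ]
    · simp
    · intro β _ hβ; simp [Pi.single_eq_of_ne hβ]
    · intro h'; exact absurd h h'
  · rw [mem_Red] at h
    push Not at h
    obtain ⟨i, hi⟩ := h
    obtain ⟨γ', rfl⟩ : ∃ γ', γ = Finsupp.single i p + γ' :=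
      exists_add_of_le (Finsupp.single_le_iff.2 hi)
    have h1 := sy_symm (S := S) (monomial_mem_Lt γ' (1 : K))
    have hdeg : (Finsupp.single i p + γ').degree = p + γ'.degree := by
      rw [map_add, Finsupp.degree_single]
    obtain ⟨g, hg⟩ := hγ _ (Lt_mono (by have := hp.out.pos; omega) h1.deg)
    refine ⟨R.z (b i) * S.σ.symm (monomial γ' 1), ⟨fun α => X i * g α, ?_⟩, ?_⟩
    · rw [hg, Finset.mul_sum]
      refine Finset.sum_congr rfl fun α _ => ?_
      rw [map_mul, R.Zm_X, mul_assoc]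
    · have := (sy_z (S := S) R (b i)).mul h1
      rwa [lf_basis, X_pow_eq_monomial, monomial_mul, one_mul, ← hdeg] at this

theorem span_J (χ : Module.Dual K L) (a : (I →₀ ℕ) → U K L)
    (ha : ∀ α ∈ Red p I, S.Sy α.degree (a α) (monomial α 1)) (u : U K L) :
    ∃ c : (I →₀ ℕ) → K, u - ∑ α ∈ Red p I, c α • a α ∈ R.J χ := by
  obtain ⟨g, rfl⟩ := span_Z R a ha u
  refine ⟨fun α => eval (fun i => χ (b i) ^ p) (g α), ?_⟩
  rw [← Finset.sum_sub_distrib]
  refine Ideal.sum_mem _ fun α _ => ?_
  rw [Algebra.smul_def, ← sub_mul]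
  exact Ideal.mul_mem_right _ _ (R.Zm_sub_mem b χ _)

/-- a Frobenius form -/
structure Lam (S : PSym b) (R : Res p K L) (χ : Module.Dual K L) where
  /-- the form -/
  l : U K L →ₗ[K] K
  top : ∀ u g, S.Sy (tau p I).degree u g → l u = coeff (tau p I) g
  kill : ∀ u ∈ R.J χ, l u = 0

variable {R}

theorem Lam.coef_zero {χ : Module.Dual K L} (Λ : Lam S R χ) {A : Type} (F : Finset A)
    (e : A → I →₀ ℕ) (he : Set.InjOn e F) (hr : ∀ a ∈ F, e a ∈ Red p I) (w : A → U K L)
    (hw : ∀ a ∈ F, S.Sy (e a).degree (w a) (monomial (e a) 1)) (c : A → K)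
    (h : ∀ u, Λ.l (u * ∑ a ∈ F, c a • w a) = 0) : ∀ a ∈ F, c a = 0 := by
  classical
  by_contra hne
  push Not at hne
  obtain ⟨a0, ha0, hmax⟩ := Finset.exists_max_image (F.filter fun a => c a ≠ 0)
    (fun a => (e a).degree) (by
      obtain ⟨a, ha, hc⟩ := hne
      exact ⟨a, Finset.mem_filter.2 ⟨ha, hc⟩⟩)
  rw [Finset.mem_filter] at ha0
  have h1 : S.Sy (e a0).degree (∑ a ∈ F, c a • w a) (∑ a ∈ F, c a • monomial (e a) 1) := by
    refine Sy.sum _ fun a ha => ?_
    by_cases hc : c a = 0
    · rw [hc, zero_smul, zero_smul]; exact sy_zero _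
    · exact ((hw a ha).mono (hmax a (Finset.mem_filter.2 ⟨ha, hc⟩))).smul _
  obtain ⟨δ, hδ⟩ := exists_add_of_le (mem_Red'.1 (hr a0 ha0.1))
  have h2 := (sy_symm (S := S) (monomial_mem_Lt δ (1 : K))).mul h1
  rw [← map_add, add_comm δ, ← hδ] at h2
  have h3 := Λ.top _ _ h2
  rw [h, hδ, add_comm, coeff_monomial_mul, one_mul, coeff_sum, Finset.sum_eq_single a0] at h3
  · simp only [coeff_smul, coeff_monomial, if_true, smul_eq_mul, mul_one] at h3
    exact ha0.2 h3.symm
  · intro a ha hne
    rw [coeff_smul, coeff_monomial, if_neg (fun h' => hne (he ha ha0.1 h')), smul_zero]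
  · intro h'; exact absurd ha0.1 h'

theorem Lam.mem_J {χ : Module.Dual K L} (Λ : Lam S R χ) {v : U K L}
    (h : ∀ u, Λ.l (u * v) = 0) : v ∈ R.J χ := by
  have ha : ∀ α ∈ Red p I, S.Sy α.degree (S.σ.symm (monomial α 1)) (monomial α 1) :=
    fun α _ => sy_symm (monomial_mem_Lt α 1)
  obtain ⟨c, hc⟩ := span_J R χ _ ha v
  have h1 := Λ.coef_zero (Red p I) id (Set.injOn_id _) (fun _ h => h) _ ha c fun u => by
    have := Λ.kill _ (Ideal.mul_mem_left _ u hc)
    rwa [mul_sub, map_sub, h, zero_sub, neg_eq_zero] at this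
  rwa [Finset.sum_eq_zero fun α hα => by rw [h1 α hα, zero_smul], sub_zero] at hc

theorem Lam.one_not_mem {χ : Module.Dual K L} (Λ : Lam S R χ) : (1 : U K L) ∉ R.J χ := by
  intro h
  have h1 := Λ.top _ _ (sy_symm (S := S) (monomial_mem_Lt (tau p I) (1 : K)))
  have h2 := Λ.kill _ (Ideal.mul_mem_left _ (S.σ.symm (monomial (tau p I) 1)) h)
  classical
  rw [mul_one, h1, coeff_monomial, if_pos rfl] at h2
  exact _root_.one_ne_zero h2

end PSym

theorem exists_Lam (R : Res p K L) (b : Module.Basis I K L) (χ : Module.Dual K L) :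
    ∃ S : PSym b, Nonempty (PSym.Lam S R χ) := by
  classical
  obtain ⟨S⟩ := exists_Sym R b
  let l0 : MvPolynomial I K →ₗ[K] K := onMon fun γ =>
    if md p γ = tau p I then eval (fun i => χ (b i) ^ p) (monomial (dv p γ) 1) else 0
  have h1 : ∀ i f, l0 (X i ^ p * f) = χ (b i) ^ p * l0 f := by
    intro i f
    have : l0.comp (LinearMap.mulLeft K (X i ^ p)) = χ (b i) ^ p • l0 := by
      refine mon_ext fun α => ?_
      simp only [LinearMap.comp_apply, LinearMap.mulLeft_apply, LinearMap.smul_apply]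
      rw [X_pow_eq_monomial, monomial_mul, one_mul, onMon_monomial, onMon_monomial,
        dv_add_single, md_add_single]
      split_ifs
      · have : (monomial (Finsupp.single i 1 + dv p α) (1 : K) : MvPolynomial I K) =
            X i * monomial (dv p α) 1 := by rw [X, monomial_mul, one_mul]
        rw [this, map_mul, eval_X, smul_eq_mul]
      · simp
    exact LinearMap.congr_fun this f
  have h2 : ∀ f ∈ Lt K I ((tau p I).degree + 1), l0 f = coeff (tau p I) f := by
    intro f hf
    have := map_mem_of_monomial (l0 - lcoeff K (tau p I)) ⊥ f fun γ hγ => ?_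
    · rw [Submodule.mem_bot, LinearMap.sub_apply, sub_eq_zero] at this
      exact this
    have hd := mem_Lt.1 hf γ hγ
    rw [Submodule.mem_bot, LinearMap.sub_apply, sub_eq_zero, onMon_monomial, lcoeff_apply,
      coeff_monomial]
    by_cases h : md p γ = tau p I
    · have h3 := degree_dv_md p γ
      rw [h] at h3
      have h4 : (dv p γ).degree = 0 := by
        by_contra h5
        have := Nat.mul_le_mul_left p (Nat.one_le_iff_ne_zero.2 h5)
        have := hp.out.pos
        omega
      rw [Finsupp.degree_eq_zero_iff] at h4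
      have h5 := dv_add_md p γ
      rw [h4, h, smul_zero, zero_add] at h5
      rw [if_pos h, if_pos h5.symm, h4]; simp
    · rw [if_neg h, if_neg]
      rintro rfl
      exact h (md_of_red (mem_Red.1 (mem_Red'.2 le_rfl)))
  refine ⟨S.toPSym, ⟨⟨l0.comp S.σ.toLinearMap, ?_, ?_⟩⟩⟩
  · intro u g hs
    change l0 (S.σ u) = _
    rw [h2 _ hs.deg]
    by_contra hne
    have := mem_Lt.1 hs.1 (tau p I) (by rw [coeff_sub]; exact sub_ne_zero.2 hne)
    omega
  · intro u hu
    change l0 (S.σ u) = 0
    refine R.J_ind χ (fun u => l0 (S.σ u) = 0) (by simp) ?_ ?_ hu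
    · intro y u
      refine bind b (fun y => l0 (S.σ ((R.z y - algebraMap K _ (χ y ^ p)) * u)) = 0)
        ?_ ?_ ?_ ?_ y
      · intro i
        rw [sub_mul, map_sub, map_sub, S.zeta, h1, ← Algebra.smul_def, map_smul, map_smul,
          smul_eq_mul, sub_self]
      · rw [R.z_zero, map_zero, zero_pow hp.out.ne_zero]; simp
      · intro x y hx hy
        have : R.z (x + y) - algebraMap K _ (χ (x + y) ^ p) =
            (R.z x - algebraMap K _ (χ x ^ p)) + (R.z y - algebraMap K _ (χ y ^ p)) := by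
          rw [R.z_add, map_add, add_pow_char, map_add]; abel
        rw [this, add_mul, map_add, map_add, hx, hy, add_zero]
      · intro c x hx
        have : R.z (c • x) - algebraMap K _ (χ (c • x) ^ p) =
            c ^ p • (R.z x - algebraMap K _ (χ x ^ p)) := by
          rw [R.z_smul, map_smul, smul_eq_mul, mul_pow, map_mul, smul_sub, ← Algebra.smul_def]
        rw [this, smul_mul_assoc, map_smul, map_smul, hx, smul_zero]
    · intro u v hu hv
      rw [map_add, map_add, hu, hv, add_zero]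

theorem finite_quot (R : Res p K L) (b : Module.Basis I K L) (χ : Module.Dual K L) :
    Module.Finite K (U K L ⧸ R.J χ) := by
  classical
  obtain ⟨S⟩ := exists_PSym b
  refine ⟨⟨(Red p I).image fun α => Ideal.Quotient.mkₐ K (R.J χ) (S.σ.symm (monomial α 1)), ?_⟩⟩
  rw [eq_top_iff]
  rintro q -
  obtain ⟨u, rfl⟩ := Ideal.Quotient.mkₐ_surjective K (R.J χ) q
  obtain ⟨c, hc⟩ := PSym.span_J (S := S) R χ (fun α => S.σ.symm (monomial α 1))
    (fun α _ => PSym.sy_symm (monomial_mem_Lt α 1)) u
  have h1 : Ideal.Quotient.mkₐ K (R.J χ) u =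
      Ideal.Quotient.mkₐ K (R.J χ) (∑ α ∈ Red p I, c α • S.σ.symm (monomial α 1)) :=
    Ideal.Quotient.eq.2 hc
  rw [h1, map_sum]
  refine Submodule.sum_mem _ fun α hα => ?_
  rw [map_smul]
  refine Submodule.smul_mem _ _ (Submodule.subset_span ?_)
  rw [Finset.coe_image]
  exact ⟨α, hα, rfl⟩

/-- a left integral of the restricted enveloping algebra -/
def IsInt (R : Res p K L) (h : U K L) : Prop := (∀ y, io K y * h ∈ R.J 0) ∧ h ∉ R.J 0

lemma exists_eps (R : Res p K L) :
    ∃ ε : U K L →ₐ[K] K, (∀ y, ε (io K y) = 0) ∧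
      ∀ h, (∀ y, io K y * h ∈ R.J 0) → ∀ u, u * h - ε u • h ∈ R.J 0 := by
  obtain ⟨ε, hε⟩ := exists_lift (0 : L →ₗ[K] K) (by simp)
  refine ⟨ε, hε, fun h hh u => ?_⟩
  refine U_ind (fun u => u * h - ε u • h ∈ R.J 0) ?_ ?_ ?_ ?_ u
  · intro r
    rw [AlgHom.commutes, ← Algebra.smul_def]; simp
  · intro y
    rw [hε, LinearMap.zero_apply, zero_smul, sub_zero]; exact hh y
  · intro a c ha hc
    have h1 := Ideal.mul_mem_left _ a hc
    have h2 := Ideal.mul_mem_left _ (algebraMap K _ (ε c)) ha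
    have := Ideal.add_mem _ h1 h2
    convert this using 1
    rw [← Algebra.smul_def, map_mul, mul_sub, smul_sub, mul_smul_comm, smul_smul, mul_assoc,
      mul_comm (ε a)]
    abel
  · intro a c ha hc
    have := Ideal.add_mem _ ha hc
    convert this using 1
    rw [map_add, add_mul, add_smul]; abel

theorem exists_IsInt (R : Res p K L) (b : Module.Basis I K L) : ∃ h, IsInt R h := by
  obtain ⟨S, ⟨Λ⟩⟩ := exists_Lam R b 0
  obtain ⟨ε, hε, -⟩ := exists_eps R
  have := finite_quot R b 0
  let J' : Submodule K (U K L) := (R.J 0).restrictScalars K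
  let mk := Ideal.Quotient.mkₐ K (R.J 0)
  have hsurj : Function.Surjective mk.toLinearMap := Ideal.Quotient.mkₐ_surjective K (R.J 0)
  have hker : ∀ u, mk u = 0 → u ∈ R.J 0 := fun u hu => Ideal.Quotient.eq_zero_iff_mem.1 hu
  have hfac : ∀ φ : U K L →ₗ[K] K, (∀ u ∈ R.J 0, φ u = 0) →
      ∃ ψ : Module.Dual K (U K L ⧸ R.J 0), ∀ u, ψ (mk u) = φ u := by
    intro φ hφ
    have h1 : φ ∈ LinearMap.range mk.toLinearMap.dualMap := by
      rw [LinearMap.range_dualMap_eq_dualAnnihilator_ker, Submodule.mem_dualAnnihilator]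
      intro w hw
      exact hφ w (hker w hw)
    obtain ⟨ψ, hψ⟩ := h1
    exact ⟨ψ, fun u => LinearMap.congr_fun hψ u⟩
  obtain ⟨l, hl⟩ := hfac Λ.l Λ.kill
  obtain ⟨e, he⟩ := hfac ε.toLinearMap fun u hu => R.hom_J0 ε (fun y => by
    rw [Res.z, map_sub, map_pow, hε, hε, zero_pow hp.out.ne_zero, sub_zero]) hu
  let B : (U K L ⧸ R.J 0) →ₗ[K] Module.Dual K (U K L ⧸ R.J 0) :=
    ((LinearMap.mul K (U K L ⧸ R.J 0)).compr₂ l).flip
  have hB : ∀ u v, B (mk v) (mk u) = Λ.l (u * v) := by
    intro u v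
    rw [← hl, map_mul]; rfl
  have hinj : Function.Injective B := by
    rw [injective_iff_map_eq_zero]
    intro q hq
    obtain ⟨v, rfl⟩ := hsurj q
    refine Ideal.Quotient.eq_zero_iff_mem.2 (Λ.mem_J fun u => ?_)
    rw [← hB]
    exact LinearMap.congr_fun hq (mk u)
  have hs : Function.Surjective B :=
    (LinearMap.injective_iff_surjective_of_finrank_eq_finrank
      (Subspace.dual_finrank_eq).symm).1 hinj
  obtain ⟨q, hq⟩ := hs e
  obtain ⟨h, rfl⟩ := hsurj q
  have hh : ∀ u, Λ.l (u * h) = ε u := by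
    intro u
    rw [← hB]
    exact (LinearMap.congr_fun hq (mk u)).trans (he u)
  refine ⟨h, fun y => Λ.mem_J fun u => ?_, fun h0 => ?_⟩
  · rw [← mul_assoc, hh, map_mul, hε, mul_zero]
  · have h1 := hh 1
    rw [one_mul, Λ.kill _ h0, map_one] at h1
    exact zero_ne_one h1

theorem IsInt.lam_ne {R : Res p K L} {h : U K L} (hh : IsInt R h) {b : Module.Basis I K L}
    {S : PSym b} (Λ : PSym.Lam S R 0) : Λ.l h ≠ 0 := by
  intro h0
  obtain ⟨ε, -, hε⟩ := exists_eps R
  refine hh.2 (Λ.mem_J fun u => ?_)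
  have := Λ.kill _ (hε h hh.1 u)
  rwa [map_sub, map_smul, h0, smul_zero, sub_zero] at this

theorem exists_norm (R : Res p K L) (b : Module.Basis I K L) {c : U K L} (hc0 : c ≠ 0)
    (hc : ∀ u, c * u = u * c) :
    ∃ (s : MvPolynomial I K) (c' : U K L), s ≠ 0 ∧ (∀ u, c' * u = u * c') ∧ R.Zm b s = c * c' := by
  classical
  obtain ⟨S⟩ := exists_PSym b
  let _ : Algebra (MvPolynomial I K) (U K L) :=
    RingHom.toAlgebra' (R.Zm b).toRingHom fun g u => R.Zm_comm b g u
  have halg : ∀ g, algebraMap (MvPolynomial I K) (U K L) g = R.Zm b g := fun g => rfl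
  have hfin : Module.Finite (MvPolynomial I K) (U K L) := by
    refine ⟨⟨(Red p I).image fun α => S.σ.symm (monomial α 1), ?_⟩⟩
    rw [eq_top_iff]
    rintro u -
    obtain ⟨g, rfl⟩ := PSym.span_Z (S := S) R (fun α => S.σ.symm (monomial α 1))
      (fun α _ => PSym.sy_symm (monomial_mem_Lt α 1)) u
    refine Submodule.sum_mem _ fun α hα => ?_
    rw [← halg, ← Algebra.smul_def]
    refine Submodule.smul_mem _ _ (Submodule.subset_span ?_)
    rw [Finset.coe_image]
    exact ⟨α, hα, rfl⟩
  have hcen : ∀ (q : Polynomial (MvPolynomial I K)) u,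
      Polynomial.aeval c q * u = u * Polynomial.aeval c q := by
    intro q u
    induction q using Polynomial.induction_on' with
    | add f g hf hg => rw [map_add, add_mul, mul_add, hf, hg]
    | monomial n a =>
      have h1 : Commute (c ^ n) u := Commute.pow_left (hc u) n
      rw [Polynomial.aeval_monomial, mul_assoc, h1.eq, ← mul_assoc, Algebra.commutes, mul_assoc]
  have key : ∀ n (q : Polynomial (MvPolynomial I K)), q.natDegree = n → q.Monic →
      Polynomial.aeval c q = 0 →
      ∃ (s : MvPolynomial I K) (c' : U K L), s ≠ 0 ∧ (∀ u, c' * u = u * c') ∧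
        R.Zm b s = c * c' := by
    intro n
    induction n with
    | zero =>
      intro q hq hm h0
      rw [Polynomial.eq_one_of_monic_natDegree_zero hm hq, map_one] at h0
      exact absurd h0 S.one_ne_zero
    | succ n ih =>
      intro q hq hm h0
      have h1 := Polynomial.X_mul_divX_add q
      have h2 := congrArg (Polynomial.aeval c) h1
      rw [h0, map_add, map_mul, Polynomial.aeval_X, Polynomial.aeval_C, halg] at h2
      by_cases hs : q.coeff 0 = 0
      · rw [hs, map_zero, add_zero] at h2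
        have h3 : q.divX.natDegree = n := by
          rw [Polynomial.natDegree_divX_eq_natDegree_tsub_one, hq]; rfl
        refine ih q.divX h3 ?_ ?_
        · rw [Polynomial.Monic, Polynomial.leadingCoeff, h3, Polynomial.coeff_divX, ← hq]
          exact hm
        · by_contra h4
          exact S.mul_ne_zero hc0 h4 h2
      · refine ⟨q.coeff 0, -Polynomial.aeval c q.divX, hs, fun u => ?_, ?_⟩
        · rw [neg_mul, mul_neg, hcen]
        · rw [mul_neg]
          exact eq_neg_of_add_eq_zero_right h2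
  obtain ⟨q, hm, hq⟩ := IsIntegral.of_finite (MvPolynomial I K) c
  exact key _ q rfl hm hq

end H344PS
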