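import Mathlib

/-! Frobenius identities in characteristic `p` and the Jacobson formula. -/

set_option autoImplicit false

namespace H344PS

open Polynomial

variable {K : Type} [Field K] {p : ℕ} [hp : Fact p.Prime] [CharP K p]

lemma cast_p (K : Type) [Field K] (p : ℕ) [CharP K p] (A : Type) [Ring A] [Algebra K A] :
    (p : A) = 0 := by
  rw [← map_natCast (algebraMap K A), CharP.cast_eq_zero K p, map_zero]

lemma frob_add (K : Type) [Field K] {p : ℕ} [hp : Fact p.Prime] [CharP K p] {A : Type} [Ring A]
    [Algebra K A] {a b : A} (h : Commute a b) : (a + b) ^ p = a ^ p + b ^ p := by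
  obtain ⟨r, hr⟩ := h.exists_add_pow_prime_eq hp.out
  rw [hr, cast_p K p A]; simp

lemma frob_neg (K : Type) [Field K] {p : ℕ} [hp : Fact p.Prime] [CharP K p] {A : Type} [Ring A]
    [Algebra K A] (a : A) : (-a) ^ p = - a ^ p := by
  have h := frob_add K (p := p) (Commute.refl a).neg_right
  rw [add_neg_cancel, zero_pow hp.out.ne_zero] at h
  exact (neg_eq_of_add_eq_zero_right h.symm).symm

lemma frob_sub (K : Type) [Field K] {p : ℕ} [hp : Fact p.Prime] [CharP K p] {A : Type} [Ring A]
    [Algebra K A] {a b : A} (h : Commute a b) : (a - b) ^ p = a ^ p - b ^ p := by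
  rw [sub_eq_add_neg, frob_add K h.neg_right, frob_neg K, sub_eq_add_neg]

lemma choose_pred (K : Type) [Field K] (p : ℕ) [hp : Fact p.Prime] [CharP K p] (j : ℕ)
    (hj : j < p) : (((p - 1).choose j : ℕ) : K) = (-1) ^ j := by
  induction j with
  | zero => simp
  | succ j ih =>
    have h1 : (p - 1).choose j + (p - 1).choose (j + 1) = p.choose (j + 1) := by
      have : p = (p - 1) + 1 := by have := hp.out.pos; omega
      conv_rhs => rw [this]
      rw [Nat.choose_succ_succ']
    have h2 : ((p.choose (j + 1) : ℕ) : K) = 0 := by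
      rw [CharP.cast_eq_zero_iff K p]
      exact hp.out.dvd_choose_self (by omega) hj
    have h3 := congrArg (fun n : ℕ => (n : K)) h1
    simp only [Nat.cast_add] at h3
    rw [h2, ih (by omega)] at h3
    rw [pow_succ]
    linear_combination h3

lemma neg_one_pow_pred (K : Type) [Field K] (p : ℕ) [hp : Fact p.Prime] [CharP K p] :
    (-1 : K) ^ (p - 1) = 1 := by
  have h := choose_pred K p (p - 1) (by have := hp.out.pos; omega)
  rw [Nat.choose_self] at h
  simpa using h.symm

lemma sub_pow_pred (K : Type) [Field K] {p : ℕ} [hp : Fact p.Prime] [CharP K p] {A : Type} [Ring A]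
    [Algebra K A] {a b : A} (h : Commute a b) :
    (a - b) ^ (p - 1) = ∑ j ∈ Finset.range p, a ^ j * b ^ (p - 1 - j) := by
  rw [sub_eq_add_neg, h.neg_right.add_pow]
  have : p - 1 + 1 = p := by have := hp.out.pos; omega
  rw [this]
  refine Finset.sum_congr rfl fun j hj => ?_
  rw [Finset.mem_range] at hj
  have e1 : (((p - 1).choose j : ℕ) : A) = algebraMap K A ((-1) ^ j) := by
    rw [← choose_pred K p j hj, map_natCast]
  have e2 : (-b) ^ (p - 1 - j) = ((-1 : K) ^ (p - 1 - j)) • b ^ (p - 1 - j) := by
    rw [← _root_.smul_pow, neg_one_smul]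
  rw [e1, e2, ← Algebra.commutes, ← Algebra.smul_def, mul_smul_comm, smul_smul, ← pow_add]
  have : j + (p - 1 - j) = p - 1 := by omega
  rw [this, neg_one_pow_pred K p, one_smul]

/-- the inner derivation of an associative algebra -/
noncomputable def adA (K : Type) [Field K] {A : Type} [Ring A] [Algebra K A] (a : A) :
    Module.End K A := LinearMap.mulLeft K a - LinearMap.mulRight K a

lemma adA_apply {A : Type} [Ring A] [Algebra K A] (a b : A) : adA K a b = a * b - b * a := rfl

lemma comm_LR {A : Type} [Ring A] [Algebra K A] (a b : A) :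
    Commute (LinearMap.mulLeft K a) (LinearMap.mulRight K b) := by
  refine LinearMap.ext fun c => ?_
  simp [mul_assoc]

lemma adA_pow {A : Type} [Ring A] [Algebra K A] (a : A) : adA K a ^ p = adA K (a ^ p) := by
  unfold adA
  rw [frob_sub K (comm_LR a a), LinearMap.pow_mulLeft, LinearMap.pow_mulRight]

lemma adA_pow_pred {A : Type} [Ring A] [Algebra K A] (a c : A) :
    (adA K a ^ (p - 1)) c = ∑ j ∈ Finset.range p, a ^ j * c * a ^ (p - 1 - j) := by
  unfold adA
  rw [sub_pow_pred K (comm_LR a a), LinearMap.sum_apply]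
  refine Finset.sum_congr rfl fun j _ => ?_
  rw [LinearMap.pow_mulLeft, LinearMap.pow_mulRight]
  simp [mul_assoc]

lemma derivative_pow_nc {A : Type} [Ring A] (q : A[X]) (n : ℕ) :
    derivative (q ^ (n + 1)) =
      ∑ j ∈ Finset.range (n + 1), q ^ j * derivative q * q ^ (n - j) := by
  induction n with
  | zero => simp
  | succ n ih =>
    rw [pow_succ, derivative_mul, ih, Finset.sum_range_succ _ (n + 1), Finset.sum_mul]
    congr 1
    · refine Finset.sum_congr rfl fun j hj => ?_
      rw [Finset.mem_range] at hj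
      have : n + 1 - j = (n - j) + 1 := by omega
      rw [this, pow_succ, mul_assoc]
    · simp

/-- Jacobson: `(x + y) ^ p - x ^ p - y ^ p` lies in every subspace closed under commutators that
contains `x` and `y`. -/
theorem jacobson_mem {A : Type} [Ring A] [Algebra K A] (S : Submodule K A)
    (hS : ∀ a ∈ S, ∀ b ∈ S, a * b - b * a ∈ S) {x y : A} (hx : x ∈ S) (hy : y ∈ S) :
    (x + y) ^ p - x ^ p - y ^ p ∈ S := by
  set q : A[X] := C x * X + C y with hq
  have hdq : derivative q = C x := by simp [hq]
  have hco : ∀ (n : ℕ) (i : ℕ), ((adA K q ^ n) (C x)).coeff i ∈ S := by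
    intro n
    induction n with
    | zero =>
      intro i
      simp only [pow_zero, Module.End.one_apply, coeff_C]
      split_ifs
      · exact hx
      · exact S.zero_mem
    | succ n ih =>
      intro i
      rw [pow_succ', Module.End.mul_apply, adA_apply]
      set r := (adA K q ^ n) (C x) with hr
      have e : q * r - r * q = (C x * r - r * C x) * X + (C y * r - r * C y) := by
        rw [hq]
        have : X * r = r * X := (Polynomial.commute_X r).eq
        simp only [add_mul, mul_add, sub_mul, mul_assoc, this]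
        abel
      rw [e, coeff_add]
      refine S.add_mem ?_ ?_
      · cases i with
        | zero => simp
        | succ i =>
          rw [coeff_mul_X, coeff_sub, coeff_C_mul, coeff_mul_C]
          exact hS _ hx _ (ih i)
      · rw [coeff_sub, coeff_C_mul, coeff_mul_C]
        exact hS _ hy _ (ih i)
  have hp1 : p - 1 + 1 = p := by have := hp.out.pos; omega
  have hder : derivative (q ^ p) = (adA K q ^ (p - 1)) (C x) := by
    rw [adA_pow_pred, ← hdq]
    conv_lhs => rw [← hp1]
    rw [derivative_pow_nc, hp1]
  have hmid : ∀ i, 0 < i → i < p → (q ^ p).coeff i ∈ S := by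
    intro i h0 h1
    obtain ⟨k, rfl⟩ : ∃ k, i = k + 1 := ⟨i - 1, by omega⟩
    have h2 := hco (p - 1) k
    rw [← hder, coeff_derivative] at h2
    have h3 : ((k + 1 : ℕ) : K) ≠ 0 := by
      rw [Ne, CharP.cast_eq_zero_iff K p]
      exact Nat.not_dvd_of_pos_of_lt h0 h1
    have h4 : (q ^ p).coeff (k + 1) =
        ((k + 1 : ℕ) : K)⁻¹ • ((q ^ p).coeff (k + 1) * ((k : A) + 1)) := by
      have : ((k : A) + 1) = algebraMap K A ((k + 1 : ℕ) : K) := by simp
      rw [this, ← Algebra.commutes, ← Algebra.smul_def, smul_smul, inv_mul_cancel₀ h3, one_smul]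
    rw [h4]
    exact S.smul_mem _ h2
  have hdeg : q.natDegree ≤ 1 := by
    rw [hq]; exact natDegree_linear_le
  have hdegp : (q ^ p).natDegree < p + 1 := by
    have := natDegree_pow_le_of_le p hdeg
    omega
  have htop : (q ^ p).coeff p = x ^ p := by
    have h := coeff_pow_of_natDegree_le (m := p) hdeg
    rw [mul_one] at h
    rw [h, hq]; simp
  have hbot : (q ^ p).coeff 0 = y ^ p := by
    rw [← constantCoeff_apply, map_pow, constantCoeff_apply, hq]; simp
  let ev : A[X] →+* A := eval₂RingHom' (RingHom.id A) 1 (fun a => Commute.one_right _)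
  have hev : ∀ r : A[X], ev r = eval₂ (RingHom.id A) 1 r := fun r => rfl
  have h1 : ev (q ^ p) = (x + y) ^ p := by
    rw [map_pow]
    congr 1
    rw [hq, map_add, map_mul, hev, hev, hev]; simp
  have h2 : ev (q ^ p) = ∑ i ∈ Finset.range (p + 1), (q ^ p).coeff i := by
    rw [hev, eval₂_eq_sum_range' _ hdegp]; simp
  rw [← h1, h2, Finset.sum_range_succ, htop, ← hp1, Finset.sum_range_succ', hp1, hbot]
  have : ∑ k ∈ Finset.range (p - 1), (q ^ p).coeff (k + 1) + y ^ p + x ^ p - x ^ p - y ^ p =
      ∑ k ∈ Finset.range (p - 1), (q ^ p).coeff (k + 1) := by abel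
  rw [this]
  refine S.sum_mem fun k hk => hmid _ (by omega) ?_
  rw [Finset.mem_range] at hk
  omega

/-- the `p`-th power of a derivation is a derivation -/
lemma leibniz_pow_p {A : Type} [Ring A] [Algebra K A] (D : Module.End K A)
    (hD : ∀ a b, D (a * b) = D a * b + a * D b) (a b : A) :
    (D ^ p) (a * b) = (D ^ p) a * b + a * (D ^ p) b := by
  let W := A →ₗ[K] A →ₗ[K] A
  let l : Module.End K W := LinearMap.lcomp K _ D
  let r : Module.End K W := LinearMap.llcomp K A _ _ (LinearMap.lcomp K A D)
  have hl : ∀ (n : ℕ) (w : W) (a b : A), (l ^ n) w a b = w ((D ^ n) a) b := by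
    intro n
    induction n with
    | zero => intro w a b; rfl
    | succ n ih =>
      intro w a b
      rw [pow_succ, Module.End.mul_apply, ih, pow_succ', Module.End.mul_apply]; rfl
  have hr : ∀ (n : ℕ) (w : W) (a b : A), (r ^ n) w a b = w a ((D ^ n) b) := by
    intro n
    induction n with
    | zero => intro w a b; rfl
    | succ n ih =>
      intro w a b
      rw [pow_succ, Module.End.mul_apply, ih, pow_succ', Module.End.mul_apply]; rfl
  have hc : Commute l r := by
    refine LinearMap.ext fun w => LinearMap.ext fun a => LinearMap.ext fun b => rfl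
  have key : ∀ (n : ℕ) (a b : A), (D ^ n) (a * b) = ((l + r) ^ n) (LinearMap.mul K A) a b := by
    intro n
    induction n with
    | zero => intro a b; rfl
    | succ n ih =>
      intro a b
      rw [pow_succ, Module.End.mul_apply, hD, map_add, ih, ih, pow_succ', Module.End.mul_apply]
      rfl
  have hf : (l + r) ^ p = l ^ p + r ^ p := by
    obtain ⟨t, ht⟩ := hc.exists_add_pow_prime_eq hp.out
    have h0 : (p : Module.End K W) = 0 := by
      rw [← map_natCast (algebraMap K (Module.End K W)), CharP.cast_eq_zero K p, map_zero]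
    rw [ht, h0]; simp
  rw [key, hf, LinearMap.add_apply, LinearMap.add_apply, LinearMap.add_apply, hl, hr]
  rfl

end H344PS
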