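import Pool.Agent.H344Z.PS.Free

/-! Invariants of a `p`-nilpotent element lift from the symmetric to the enveloping algebra. -/

set_option autoImplicit false
set_option linter.unusedSectionVars false

namespace H344PS

open MvPolynomial H67OL H67OL.DOMaux

variable {K : Type} [Field K] {L : Type} [LieRing L] [LieAlgebra K L] {I : Type} [Fintype I]
  {p : ℕ} [hp : Fact p.Prime] [CharP K p]

lemma rU_io_mul (x y : L) (w : U K L) :
    rU (io K x) (io K y * w) = io K ⁅x, y⁆ * w + io K y * rU (io K x) w := by
  rw [rU_io, rU_io, io_lie]; noncomm_ring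

lemma pderiv_Lt {m : ℕ} {f : MvPolynomial I K} (hf : f ∈ Lt K I (m + 1)) (i : I) :
    pderiv i f ∈ Lt K I m := by
  rw [mem_Lt] at hf ⊢
  intro α hα
  rw [coeff_pderiv] at hα
  have := hf _ (left_ne_zero_of_mul hα)
  rw [map_add, Finsupp.degree_single] at this
  omega

namespace Jor

variable {J : Type} [Fintype J] {T : Jor I J} {b : Module.Basis I K L} {x : L}

lemma DP_X_eq (hx : ∀ i, ⁅x, b i⁆ = (T.nxt i).elim 0 b) (i : I) :
    DP b x (X i) = (T.nxt i).elim 0 X := by
  rw [DP_X, hx]
  cases T.nxt i <;> simp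

open Classical in
lemma euler (j : J) (k : ℕ) {f : MvPolynomial I K} (hf : f ∈ MS K fun α => T.wt p j α = k) :
    ∑ i, (if T.blk i = j then X i * pderiv i f else 0) = (k : K) • f := by
  let E : MvPolynomial I K →ₗ[K] MvPolynomial I K :=
    ∑ i, if T.blk i = j then (LinearMap.mulLeft K (X i)).comp (pderiv i).toLinearMap else 0
  have hE : ∀ g, E g = ∑ i, (if T.blk i = j then X i * pderiv i g else 0) := by
    intro g
    rw [LinearMap.sum_apply]
    refine Finset.sum_congr rfl fun i _ => ?_
    split_ifs <;> rfl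
  have := map_mem_of_monomial (E - (k : K) • LinearMap.id) ⊥ f fun α hα => ?_
  · rw [Submodule.mem_bot, LinearMap.sub_apply, sub_eq_zero, hE] at this
    exact this
  have h1 : T.wt p j α = k := hf α hα
  rw [Submodule.mem_bot, LinearMap.sub_apply, sub_eq_zero, hE, ← h1, wt, Nat.cast_sum,
    LinearMap.smul_apply, LinearMap.id_apply, Finset.sum_smul]
  refine Finset.sum_congr rfl fun i _ => ?_
  rw [X_mul_pderiv_monomial]
  split_ifs
  · rw [← CharP.cast_eq_mod K p, Nat.cast_smul_eq_nsmul]
  · rw [Nat.cast_smul_eq_nsmul]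
  · simp

open Classical in
lemma pderiv_der {δ : Derivation K (MvPolynomial I K) (MvPolynomial I K)}
    (hδ : ∀ i, δ (X i) = (T.nxt i).elim 0 X) (i : I) (f : MvPolynomial I K) :
    pderiv i (δ f) = δ (pderiv i f) + ∑ i0, if T.nxt i0 = some i then pderiv i0 f else 0 := by
  rw [← sub_eq_iff_eq_add', ← Derivation.commutator_apply, der_eq_sum]
  refine Finset.sum_congr rfl fun i0 _ => ?_
  have h1 : δ (pderiv i (X i0)) = 0 := by
    by_cases h : i0 = i
    · subst h; simp
    · rw [pderiv_X_of_ne h, map_zero]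
  rw [Derivation.commutator_apply, h1, sub_zero, hδ]
  cases T.nxt i0 with
  | none => simp
  | some i' =>
    by_cases h : i' = i
    · subst h; simp
    · simp [h]

theorem exists_theta (R : Res p K L) (S : PSym b) (hx : ∀ i, ⁅x, b i⁆ = (T.nxt i).elim 0 b)
    (n : ℕ) : ∀ κ : J → ℕ, ∑ j, κ j = n → (∀ j, κ j < p) →
      ∃ θ : MvPolynomial I K →ₗ[K] U K L, ∀ f ∈ MS K fun α => ∀ j, T.wt p j α = κ j,
        rU (io K x) (θ f) = θ (DP b x f) ∧ ∀ m, f ∈ Lt K I (m + 1) → S.Sy m (θ f) f := by
  classical
  have hδ := DP_X_eq hx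
  induction n with
  | zero =>
    intro κ hκ _
    have h0 : ∀ α : I →₀ ℕ, (∀ j, T.wt p j α = κ j) → ∀ i, α i % p = 0 := by
      intro α hα i
      have h1 := hα (T.blk i)
      rw [(Finset.sum_eq_zero_iff.1 hκ) _ (Finset.mem_univ _), wt] at h1
      have h2 := (Finset.sum_eq_zero_iff.1 h1) i (Finset.mem_univ _)
      rw [if_pos rfl] at h2
      split_ifs at h2
      · exact h2
      · rw [h2, Nat.zero_mod]
    refine ⟨onMon fun α => R.Zm b (monomial (dv p α) 1), fun f hf => ⟨?_, fun m hm => ⟨?_, hm⟩⟩⟩
    · have h1 : DP b x f = 0 := by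
        rw [der_eq_sum]
        refine Finset.sum_eq_zero fun i _ => ?_
        have : pderiv i f = 0 := by
          ext β
          rw [coeff_pderiv, coeff_zero]
          by_contra h2
          have h3 := h0 _ (hf _ (left_ne_zero_of_mul h2)) i
          refine right_ne_zero_of_mul h2 ?_
          rw [← Nat.cast_succ, CharP.cast_eq_zero_iff K p]
          exact Nat.dvd_of_mod_eq_zero (by simpa using h3)
        rw [this, zero_mul]
      rw [h1, map_zero]
      refine map_mem_of_monomial ((rU (io K x)).comp _) ⊥ f fun α _ => ?_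
      rw [Submodule.mem_bot, LinearMap.comp_apply, onMon_monomial, rU_io, R.Zm_comm, sub_self]
    · refine map_mem_of_monomial (S.σ.toLinearMap.comp
        (onMon fun α => R.Zm b (monomial (dv p α) 1)) - LinearMap.id) _ f fun α hα => ?_
      have h1 : md p α = 0 := Finsupp.ext (h0 α (hf α hα))
      have h2 := dv_add_md p α
      have h3 := degree_dv_md p α
      rw [h1, add_zero] at h2
      rw [h1, map_zero, add_zero] at h3
      have h4 := PSym.sy_Zm (S := S) R b (monomial_mem_Lt (dv p α) 1)
      have h5 : (aeval fun i => lf b (b i) ^ p) (monomial (dv p α) (1 : K)) =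
          expand p (monomial (dv p α) (1 : K)) := by
        simp only [lf_basis]; rfl
      rw [h5, expand_monomial, h2, h3] at h4
      have h6 := mem_Lt.1 hm α hα
      rw [LinearMap.sub_apply, LinearMap.comp_apply, onMon_monomial]
      exact Lt_mono (by omega) h4.1
  | succ n ih =>
    intro κ hκ hlt
    obtain ⟨j, -, hj⟩ := Finset.exists_ne_zero_of_sum_ne_zero
      (show ∑ j, κ j ≠ 0 by rw [hκ]; exact Nat.succ_ne_zero n)
    obtain ⟨k, hk⟩ := Nat.exists_eq_succ_of_ne_zero hj
    obtain ⟨θ', hθ'⟩ := ih (Function.update κ j k) (by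
      rw [Finset.sum_update_of_mem (Finset.mem_univ _)]
      rw [← Finset.add_sum_erase _ _ (Finset.mem_univ j), hk, Finset.erase_eq] at hκ
      omega) (fun j' => by
      by_cases h : j' = j
      · subst h; rw [Function.update_self]; have := hlt j'; omega
      · rw [Function.update_of_ne h]; exact hlt j')
    have hk0 : ((κ j : ℕ) : K) ≠ 0 := by
      rw [Ne, CharP.cast_eq_zero_iff K p]
      exact Nat.not_dvd_of_pos_of_lt (by omega) (hlt j)
    let E : MvPolynomial I K →ₗ[K] U K L :=
      ∑ i, if T.blk i = j then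
        (LinearMap.mulLeft K (io K (b i))).comp (θ'.comp (pderiv i).toLinearMap) else 0
    have hE : ∀ g, E g = ∑ i, (if T.blk i = j then io K (b i) * θ' (pderiv i g) else 0) := by
      intro g
      rw [LinearMap.sum_apply]
      refine Finset.sum_congr rfl fun i _ => ?_
      split_ifs <;> rfl
    refine ⟨((κ j : ℕ) : K)⁻¹ • E, fun f hf => ?_⟩
    have ha : ∀ i, T.blk i = j →
        pderiv i f ∈ MS K fun α => ∀ j', T.wt p j' α = Function.update κ j k j' := by
      intro i hi β hβ j'
      rw [coeff_pderiv] at hβ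
      have h1 := hf _ (left_ne_zero_of_mul hβ) j'
      rw [wt_add (K := K) j' β i (Or.inl (right_ne_zero_of_mul hβ)), hi] at h1
      by_cases h : j' = j
      · subst h; rw [Function.update_self]; rw [if_pos rfl] at h1; omega
      · rw [Function.update_of_ne h]; rwa [if_neg (Ne.symm h), add_zero] at h1
    have hb := euler j (κ j) (f := f) fun α hα => hf α hα j
    constructor
    · rw [LinearMap.smul_apply, LinearMap.smul_apply, map_smul]
      congr 1
      rw [hE, hE, map_sum]
      have h1 : ∀ i, (if T.blk i = j then io K (b i) * θ' (pderiv i (DP b x f)) else 0) =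
          (if T.blk i = j then io K (b i) * θ' (DP b x (pderiv i f)) else 0) +
          ∑ i0, if T.nxt i0 = some i then
            (if T.blk i = j then io K (b i) * θ' (pderiv i0 f) else 0) else 0 := by
        intro i
        split_ifs
        · rw [pderiv_der hδ, map_add, mul_add, map_sum, Finset.mul_sum]
          congr 1
          refine Finset.sum_congr rfl fun i0 _ => ?_
          split_ifs <;> simp
        · simp
      simp only [h1, Finset.sum_add_distrib]
      rw [Finset.sum_comm, ← Finset.sum_add_distrib]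
      refine Finset.sum_congr rfl fun i _ => ?_
      have h2 : (∑ i', if T.nxt i = some i' then
          (if T.blk i' = j then io K (b i') * θ' (pderiv i f) else 0) else 0) =
          if T.blk i = j then io K ⁅x, b i⁆ * θ' (pderiv i f) else 0 := by
        rw [hx]
        cases hi : T.nxt i with
        | none => simp
        | some i' =>
          simp only [Option.some.injEq, Finset.sum_ite_eq, Finset.mem_univ, if_true,
            Option.elim_some, (T.n1 i i' hi).1]
      rw [h2]
      split_ifs with hi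
      · rw [rU_io_mul, (hθ' _ (ha i hi)).1, add_comm]
      · simp
    · intro m hm
      have h1 : f = ((κ j : ℕ) : K)⁻¹ • ∑ i, (if T.blk i = j then X i * pderiv i f else 0) := by
        rw [hb, smul_smul, inv_mul_cancel₀ hk0, one_smul]
      rw [LinearMap.smul_apply, hE]
      conv => enter [4]; rw [h1]
      refine PSym.Sy.smul _ (PSym.Sy.sum _ fun i _ => ?_)
      split_ifs with hi
      · have h2 := pderiv_Lt hm i
        cases m with
        | zero => rw [mem_Lt_zero.1 h2]; simpa using PSym.sy_zero 0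
        | succ m =>
          have := (PSym.sy_io (S := S) (b i)).mul ((hθ' _ (ha i hi)).2 m h2)
          rwa [lf_basis, add_comm] at this
      · exact PSym.sy_zero _

theorem lift_inv (R : Res p K L) (S : PSym b) (hx : ∀ i, ⁅x, b i⁆ = (T.nxt i).elim 0 b)
    (hx0 : R.pm x = 0) {m : ℕ} {f : MvPolynomial I K} (hm : f.IsHomogeneous m)
    (h0 : DP b x f = 0) : ∃ a, rU (io K x) a = 0 ∧ S.Sy m a f := by
  classical
  have hδ := DP_X_eq hx
  have hU : rU (io K x ^ p) = 0 := by
    have := rU_J0 R (R.z_mem_J0 x)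
    rwa [Res.z, hx0, map_zero, sub_zero] at this
  have hP : rP b (io K x) = (DP b x).toLinearMap := LinearMap.ext (rP_io b x)
  have hδp : (DP b x).toLinearMap ^ p = 0 := by rw [← hP, ← map_pow, rP_eq_zero b hU]
  let w : (I →₀ ℕ) → J → ℕ := fun α j => T.wt p j α
  have h1 : f = ∑ κ ∈ f.support.image w, pr K (fun α => w α = κ) f := by
    ext α
    rw [coeff_sum, Finset.sum_eq_single (w α)]
    · rw [coeff_pr, if_pos rfl]
    · intro κ _ hκ; rw [coeff_pr, if_neg (Ne.symm hκ)]
    · intro h
      rw [coeff_pr, if_pos rfl]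
      by_contra h2
      exact h (Finset.mem_image_of_mem _ (mem_support_iff.2 h2))
  have h2 : ∀ κ, ∃ a, rU (io K x) a = 0 ∧ S.Sy m a (pr K (fun α => w α = κ) f) := by
    intro κ
    have h3 := pr_mem (fun α => w α = κ) f
    have h4 : DP b x (pr K (fun α => w α = κ) f) = 0 := by
      rw [pr_comm hδ (stab_wt fun v => v = κ) (stab_wt fun v => ¬ v = κ), h0, map_zero]
    have h5 : (pr K (fun α => w α = κ) f).IsHomogeneous m :=
      pr_mem' (Q' := fun α => Finsupp.weight 1 α = m) _ hm
    by_cases hκ : ∀ j, κ j < p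
    · obtain ⟨θ, hθ⟩ := exists_theta R S hx _ κ rfl hκ
      obtain ⟨h6, h7⟩ := hθ _ fun α hα j => congrFun (h3 α hα) j
      exact ⟨_, by rw [h6, h4, map_zero], h7 m (homog_mem_Lt h5)⟩
    · push Not at hκ
      obtain ⟨j, hj⟩ := hκ
      obtain ⟨g, hg, h6⟩ := big_lift hδ hδp j (κ j) hj (fun α hα => congrFun (h3 α hα) j) h4 h5
      refine ⟨rU (io K x ^ (p - 1)) (S.σ.symm g), ?_, ?_⟩
      · rw [← Module.End.mul_apply, ← map_mul, ← pow_succ',
          show p - 1 + 1 = p by have := hp.out.pos; omega, hU]; rfl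
      · rw [h6, ← hP, ← map_pow (rP b)]
        exact (PSym.sy_symm (homog_mem_Lt hg)).rho _
  choose a ha1 ha2 using h2
  refine ⟨∑ κ ∈ f.support.image w, a κ, ?_, ?_⟩
  · rw [map_sum]; exact Finset.sum_eq_zero fun κ _ => ha1 κ
  · conv => enter [4]; rw [h1]
    exact PSym.Sy.sum _ fun κ _ => ha2 κ

end Jor

end H344PS
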