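import Pool.Agent.H344Z.PS.Key

/-! Generic semisimplicity forces a toral centralizer. -/

set_option autoImplicit false
set_option linter.unusedSectionVars false

namespace H344PS

open MvPolynomial H67OL H67OL.DOMaux

variable {K : Type} [Field K] {L : Type} [LieRing L] [LieAlgebra K L] {I : Type} [Fintype I]
  {p : ℕ} [hp : Fact p.Prime] [CharP K p]

theorem IsInt.mem_left [FiniteDimensional K L] {R : Res p K L} {h : U K L} (hh : IsInt R h)
    {x : L} (hx : x ≠ 0) (hx0 : R.pm x = 0) : ∃ u, h - io K x * u ∈ R.J 0 := by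
  classical
  obtain ⟨I, _, b, hb⟩ := exists_adapted (Submodule.span K {x})
  obtain ⟨i0, hi0⟩ : ∃ i, b.repr x i ≠ 0 := by
    by_contra h1
    push Not at h1
    exact hx (b.repr.injective (by ext i; simp [h1]))
  obtain ⟨c0, hc0⟩ := Submodule.mem_span_singleton.1
    ((hb i0).resolve_right fun h1 => hi0 (h1 x (Submodule.mem_span_singleton_self x)))
  suffices ∃ u, h - io K (b i0) * u ∈ R.J 0 by
    obtain ⟨u, hu⟩ := this
    refine ⟨c0 • u, ?_⟩
    rwa [← hc0, map_smul, smul_mul_assoc, ← mul_smul_comm] at hu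
  have hz : io K (b i0) ^ p ∈ R.J 0 := by
    have := R.z_mem_J0 (b i0)
    rwa [Res.z, ← hc0, R.sm, hx0, smul_zero, map_zero, sub_zero, hc0] at this
  obtain ⟨S, ⟨Λ⟩⟩ := exists_Lam R b 0
  let a : (I →₀ ℕ) → U K L := fun α => io K (b i0) ^ α i0 * S.σ.symm (monomial (α.erase i0) 1)
  have ha : ∀ α, S.Sy α.degree (a α) (monomial α 1) := by
    intro α
    have h1 := ((PSym.sy_io (S := S) (b i0)).pow (α i0)).mul
      (PSym.sy_symm (monomial_mem_Lt (α.erase i0) 1))
    have h2 : α.degree = α i0 * 1 + (α.erase i0).degree := by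
      conv_lhs => rw [← Finsupp.single_add_erase i0 α]
      rw [map_add, Finsupp.degree_single, mul_one]
    rwa [lf_basis, X_pow_eq_monomial, monomial_mul, one_mul, Finsupp.single_add_erase,
      ← h2] at h1
  obtain ⟨c, hc⟩ := PSym.span_J R 0 a (fun α _ => ha α) h
  have h1 : ∑ α ∈ (Red p I).filter (fun α => α i0 + 1 < p), c α • (io K (b i0) * a α) ∈
      R.J 0 := by
    have h2 := Ideal.sub_mem _ (hh.1 (b i0)) (Ideal.mul_mem_left _ (io K (b i0)) hc)
    rw [mul_sub, sub_sub_cancel, Finset.mul_sum,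
      ← Finset.sum_filter_add_sum_filter_not _ (fun α => α i0 + 1 < p)] at h2
    have h3 : ∑ α ∈ (Red p I).filter (fun α => ¬ α i0 + 1 < p), io K (b i0) * (c α • a α) ∈
        R.J 0 := by
      refine Ideal.sum_mem _ fun α hα => ?_
      rw [Finset.mem_filter, mem_Red] at hα
      have h4 : α i0 + 1 = p := by have := hα.1 i0; omega
      rw [mul_smul_comm, ← mul_assoc, ← pow_succ', h4, ← mul_smul_comm]
      exact Ideal.mul_mem_right _ _ hz
    have := Ideal.sub_mem _ h2 h3
    simpa only [add_sub_cancel_right, mul_smul_comm] using this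
  have h2 := Λ.coef_zero ((Red p I).filter fun α => α i0 + 1 < p)
    (fun α => Finsupp.single i0 1 + α) (fun α _ β _ h => add_left_cancel h) (fun α hα => by
      rw [Finset.mem_filter, mem_Red] at hα
      rw [mem_Red]
      intro i
      by_cases hi : i0 = i
      · subst hi; simp only [Finsupp.add_apply, Finsupp.single_eq_same]; omega
      · simpa [Finsupp.single_eq_of_ne' hi] using hα.1 i)
    (fun α => io K (b i0) * a α) (fun α _ => by
      rw [map_add, Finsupp.degree_single, monomial_single_add, ← lf_basis b i0]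
      exact (PSym.sy_io _).mul (ha α)) c fun u => Λ.kill _ (Ideal.mul_mem_left _ u h1)
  refine ⟨∑ α ∈ Red p I, c α • (io K (b i0) ^ (α i0 - 1) * S.σ.symm (monomial (α.erase i0) 1)), ?_⟩
  convert hc using 2
  rw [Finset.mul_sum]
  refine Finset.sum_congr rfl fun α hα => ?_
  by_cases h3 : α i0 + 1 < p
  · rw [h2 α (Finset.mem_filter.2 ⟨hα, h3⟩)]; simp
  · have := hp.out.two_le
    rw [mul_smul_comm, ← mul_assoc, ← pow_succ', show α i0 - 1 + 1 = α i0 by omega]

theorem top_vanish [FiniteDimensional K L] (R : Res p K L) (b0 : Module.Basis I K L)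
    (s : MvPolynomial I K) {x : L} (hx0 : R.pm x = 0) {w : U K L}
    (hw : rU (io K x) w = R.Zm b0 s) (ξ : Module.Dual K L) (hξ : ∀ y, ξ ⁅x, y⁆ = 0) :
    eval (fun i => ξ (b0 i) ^ p) (homogeneousComponent s.totalDegree s) = 0 := by
  obtain ⟨I', J, _, _, b, T, hT⟩ := exists_Jor (LieAlgebra.ad K L x) p
    (LinearMap.ext fun y => by rw [← R.ad, hx0, zero_lie]; rfl)
  obtain ⟨S⟩ := exists_PSym b
  set e := s.totalDegree with he
  set g := aeval (fun i => lf b (b0 i) ^ p) (homogeneousComponent e s) with hg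
  have hgh : g.IsHomogeneous (p * e) :=
    (homogeneousComponent_isHomogeneous e s).aeval _ fun i => by
      simpa using (lf_homog b (b0 i)).pow p
  have hsy : S.Sy (p * e) (R.Zm b0 s) g := by
    have h1 := PSym.sy_Zm (S := S) R b0 (homog_mem_Lt (homogeneousComponent_isHomogeneous e s))
    have h2 : S.Sy (p * e) (R.Zm b0 (s - homogeneousComponent e s)) 0 := by
      have h3 := sub_homog_mem (mem_Lt_self s)
      rw [← he] at h3
      generalize s - homogeneousComponent e s = s' at h3 ⊢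
      generalize e = e' at h3 ⊢
      cases e' with
      | zero => rw [mem_Lt_zero.1 h3, map_zero]; exact PSym.sy_zero _
      | succ e =>
        refine (PSym.sy_Zm (S := S) R b0 h3).zero_of_lt ?_
        have := hp.out.pos
        rw [mul_add, mul_one]; omega
    have := h1.add h2
    rwa [← map_add, add_sub_cancel, add_zero] at this
  have key : ∀ m w, S.σ w ∈ Lt K I' (p * e + m + 1) → rU (io K x) w = R.Zm b0 s →
      ∃ f, DP b x f = g := by
    intro m
    induction m with
    | zero =>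
      intro w h1 h2
      have h3 := (PSym.sy_self h1).top.ad x
      rw [h2] at h3
      refine ⟨_, sub_eq_zero.1 (homog_eq_zero ?_ (h3.uniq hsy))⟩
      exact (DP_homog b x (homogeneousComponent_isHomogeneous _ _)).sub hgh
    | succ m ih =>
      intro w h1 h2
      have h3 := (PSym.sy_self h1).top
      have h4 := h3.ad x
      rw [h2] at h4
      have h5 := h4.uniq (hsy.zero_of_lt (by omega))
      rw [sub_zero] at h5
      obtain ⟨a, ha1, ha2⟩ := Jor.lift_inv R S hT hx0 (homogeneousComponent_isHomogeneous _ _)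
        (homog_eq_zero (DP_homog b x (homogeneousComponent_isHomogeneous _ _)) h5)
      exact ih (w - a) (h3.sub_mem ha2) (by rw [map_sub, ha1, sub_zero, h2])
  obtain ⟨f, hf⟩ := key (S.σ w).totalDegree w (Lt_mono (by omega) (mem_Lt_self _)) hw
  have h1 := eval_DP b ξ hξ f
  rw [hf, hg] at h1
  rw [← h1]
  have : (eval fun i => ξ (b i)).comp
      (aeval (fun i => lf b (b0 i) ^ p) : MvPolynomial I K →ₐ[K] MvPolynomial I' K).toRingHom =
      eval fun i => ξ (b0 i) ^ p := by
    refine MvPolynomial.ringHom_ext (fun r => by simp) fun i => ?_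
    simp [eval_lf]
  exact (RingHom.congr_fun this _).symm

namespace Res

variable (R : Res p K L)

lemma lie_pm {x y : L} (h : ⁅x, y⁆ = 0) : ⁅R.pm x, y⁆ = 0 := by
  obtain ⟨q, hq⟩ := Nat.exists_eq_succ_of_ne_zero hp.out.ne_zero
  have : (LieAlgebra.ad K L x ^ (q + 1)) y = 0 := by
    rw [pow_succ, Module.End.mul_apply, LieAlgebra.ad_apply, h, map_zero]
  rw [R.ad]
  convert this

lemma lie_iter (x : L) (k l : ℕ) : ⁅R.pm^[k] x, R.pm^[l] x⁆ = 0 := by
  have h1 : ∀ {x y : L} (k : ℕ), ⁅x, y⁆ = 0 → ⁅R.pm^[k] x, y⁆ = 0 := by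
    intro x y k h
    induction k with
    | zero => exact h
    | succ k ih => rw [Function.iterate_succ_apply']; exact R.lie_pm ih
  refine h1 k ?_
  rw [← lie_skew, h1 l (lie_self x), neg_zero]

lemma pm_add [FiniteDimensional K L] {x y : L} (h : ⁅x, y⁆ = 0) :
    R.pm (x + y) = R.pm x + R.pm y := by
  obtain ⟨S⟩ := exists_PSym (Module.finBasis K L)
  have h1 : Commute (io K x) (io K y) := by
    have := io_lie (K := K) x y
    rw [h, map_zero] at this
    exact sub_eq_zero.1 this.symm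
  have h2 := R.add x y
  rw [frob_add K h1, add_sub_cancel_left, sub_self] at h2
  have h3 := S.io_inj (h2.symm.trans (map_zero _).symm)
  rw [sub_sub, sub_eq_zero] at h3
  exact h3

lemma cen_pm (ξ : Module.Dual K L) {x : L} (hx : ∀ y, ξ ⁅x, y⁆ = 0) (y : L) :
    ξ ⁅R.pm x, y⁆ = 0 := by
  obtain ⟨q, hq⟩ := Nat.exists_eq_succ_of_ne_zero hp.out.ne_zero
  have : ξ ((LieAlgebra.ad K L x ^ (q + 1)) y) = 0 := by
    rw [pow_succ', Module.End.mul_apply, LieAlgebra.ad_apply, hx]
  rw [R.ad]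
  convert this

theorem ss_of_inj [IsAlgClosed K] [FiniteDimensional K L] (Z : Submodule K L)
    (hZ : ∀ x ∈ Z, R.pm x ∈ Z) (hinj : ∀ x ∈ Z, R.pm x = 0 → x = 0) {x : L} (hx : x ∈ Z) :
    x ∈ Submodule.span K (Set.range fun k : ℕ => R.pm^[k + 1] x) := by
  by_contra hne
  have hmem : ∀ k, R.pm^[k] x ∈ Z := by
    intro k
    induction k with
    | zero => exact hx
    | succ k ih => rw [Function.iterate_succ_apply']; exact hZ _ ih
  have hsum : ∀ (n : ℕ) (c : ℕ → K), R.pm (∑ k ∈ Finset.range n, c k • R.pm^[k] x) =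
      ∑ k ∈ Finset.range n, c k ^ p • R.pm^[k + 1] x := by
    intro n c
    induction n with
    | zero => simpa using R.pm_zero
    | succ n ih =>
      rw [Finset.sum_range_succ, Finset.sum_range_succ, R.pm_add, ih, R.sm,
        Function.iterate_succ_apply']
      rw [sum_lie]
      exact Finset.sum_eq_zero fun k _ => by rw [smul_lie, lie_smul, R.lie_iter]; simp
  have key : ∀ (n : ℕ) (c : ℕ → K), ∑ k ∈ Finset.range n, c k • R.pm^[k] x = 0 →
      ∀ k < n, c k = 0 := by
    intro n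
    induction n with
    | zero => intro c _ k hk; omega
    | succ n ih =>
      intro c hc
      rw [Finset.sum_range_succ'] at hc
      have h0 : c 0 = 0 := by
        by_contra h0
        apply hne
        have h1 : x = (-(c 0)⁻¹) • ∑ k ∈ Finset.range n, c (k + 1) • R.pm^[k + 1] x := by
          rw [eq_neg_of_add_eq_zero_left hc, smul_neg, neg_smul, neg_neg, smul_smul,
            inv_mul_cancel₀ h0, one_smul]; rfl
        have h2 : (-(c 0)⁻¹) • ∑ k ∈ Finset.range n, c (k + 1) • R.pm^[k + 1] x ∈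
            Submodule.span K (Set.range fun k : ℕ => R.pm^[k + 1] x) :=
          Submodule.smul_mem _ _ (Submodule.sum_mem _ fun k _ =>
            Submodule.smul_mem _ _ (Submodule.subset_span ⟨k, rfl⟩))
        rwa [← h1] at h2
      rw [h0, zero_smul, add_zero] at hc
      choose r hr using fun k => IsAlgClosed.exists_pow_nat_eq (c (k + 1)) hp.out.pos
      have h1 := hsum n r
      simp only [hr] at h1
      rw [hc] at h1
      have h2 := ih r (hinj _ (Z.sum_mem fun k _ => Z.smul_mem _ (hmem k)) h1)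
      intro k hk
      cases k with
      | zero => exact h0
      | succ k => rw [← hr, h2 k (by omega), zero_pow hp.out.ne_zero]
  have hli : LinearIndependent K fun k : Fin (Module.finrank K L + 1) => R.pm^[k] x := by
    rw [Fintype.linearIndependent_iff]
    intro g hg i
    have := key (Module.finrank K L + 1) (fun k => if h : k < _ then g ⟨k, h⟩ else 0) (by
      rw [← Fin.sum_univ_eq_sum_range (fun k => (if h : k < Module.finrank K L + 1 then g ⟨k, h⟩
        else 0) • R.pm^[k] x), ← hg]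
      refine Finset.sum_congr rfl fun k _ => ?_
      rw [dif_pos k.2]) i i.2
    rwa [dif_pos i.2] at this
  have := hli.fintype_card_le_finrank
  simp at this

lemma lie_of_ss {y w : L} (hy : y ∈ Submodule.span K (Set.range fun k : ℕ => R.pm^[k + 1] y))
    (h : ⁅y, ⁅y, w⁆⁆ = 0) : ⁅y, w⁆ = 0 := by
  have h1 : ∀ k, ⁅R.pm^[k + 1] y, w⁆ = 0 := by
    intro k
    induction k with
    | zero =>
      obtain ⟨q, hq⟩ : ∃ q, p = q + 1 + 1 := ⟨p - 2, by have := hp.out.two_le; omega⟩
      have : (LieAlgebra.ad K L y ^ (q + 1 + 1)) w = 0 := by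
        rw [pow_succ, pow_succ, Module.End.mul_apply, Module.End.mul_apply, LieAlgebra.ad_apply,
          LieAlgebra.ad_apply, h, map_zero]
      rw [zero_add, Function.iterate_one, R.ad]
      convert this
    | succ k ih => rw [Function.iterate_succ_apply']; exact R.lie_pm ih
  have : ∀ v ∈ Submodule.span K (Set.range fun k : ℕ => R.pm^[k + 1] y), ⁅v, w⁆ = 0 := by
    intro v hv
    induction hv using Submodule.span_induction with
    | mem v hv => obtain ⟨k, rfl⟩ := hv; exact h1 k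
    | zero => exact zero_lie w
    | add v v' _ _ hv hv' => rw [add_lie, hv, hv', add_zero]
    | smul c v _ hv => rw [smul_lie, hv, smul_zero]
  exact this y hy

theorem ab_of_ss [IsAlgClosed K] [FiniteDimensional K L] (Z : Submodule K L)
    (hZ : ∀ x ∈ Z, ∀ y ∈ Z, ⁅x, y⁆ ∈ Z)
    (hss : ∀ x ∈ Z, x ∈ Submodule.span K (Set.range fun k : ℕ => R.pm^[k + 1] x))
    {x y : L} (hx : x ∈ Z) (hy : y ∈ Z) : ⁅x, y⁆ = 0 := by
  by_contra hne
  let W := Z.map (LieAlgebra.ad K L x)
  have hW : ∀ v ∈ W, LieAlgebra.ad K L x v ∈ W := by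
    rintro _ ⟨v, hv, rfl⟩
    exact ⟨_, hZ x hx v hv, rfl⟩
  have : Nontrivial W := ⟨⟨⟨⁅x, y⁆, y, hy, rfl⟩, 0, fun h => hne (congrArg Subtype.val h)⟩⟩
  obtain ⟨μ, hμ⟩ := Module.End.exists_eigenvalue ((LieAlgebra.ad K L x).restrict hW)
  obtain ⟨⟨_, v, hv, rfl⟩, hv2⟩ := hμ.exists_hasEigenvector
  have h1 : ⁅x, ⁅x, v⁆⁆ = μ • ⁅x, v⁆ := congrArg Subtype.val hv2.apply_eq_smul
  have h2 : ⁅⁅x, v⁆, x⁆ = 0 := by
    refine R.lie_of_ss (hss _ (hZ x hx v hv)) ?_
    rw [← lie_skew ⁅x, v⁆ x, h1]; simp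
  refine hv2.2 (Subtype.ext (R.lie_of_ss (hss x hx) ?_))
  rw [← lie_skew, h2, neg_zero]

end Res

theorem main_iff [IsAlgClosed K] [FiniteDimensional K L] (R : Res p K L) :
    (∃ χ : Module.Dual K L, IsSemisimpleRing (RingQuot (Rel p R.pm χ))) ↔
      ∃ ξ : Module.Dual K L,
        (∀ x : L, (∀ y : L, ξ ⁅x, y⁆ = 0) → ∀ z : L, (∀ y : L, ξ ⁅z, y⁆ = 0) → ⁅x, z⁆ = 0) ∧
        (∀ x : L, (∀ y : L, ξ ⁅x, y⁆ = 0) → ∀ y : L, ξ ⁅R.pm x, y⁆ = 0) ∧
        (∀ x : L, (∀ y : L, ξ ⁅x, y⁆ = 0) →
          x ∈ Submodule.span K (Set.range (fun k : ℕ => R.pm^[k + 1] x))) := by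
  let b := Module.finBasis K L
  obtain ⟨h, hh⟩ := exists_IsInt R b
  rw [ss_iff hh b]
  refine ⟨?_, fun ⟨ξ, h1, _, h3⟩ => ne_zero_of_toral hh ξ h1 h3⟩
  rintro ⟨a, ha⟩
  obtain ⟨s, a', hs, h1⟩ := hh.exists_Zm b ha
  have hs' : homogeneousComponent s.totalDegree s ≠ 0 := by
    intro h0
    have := sub_homog_mem (mem_Lt_self s)
    rw [h0, sub_zero] at this
    exact not_mem_Lt hs le_rfl this
  obtain ⟨ξ, hξ⟩ := exists_root_pt (p := p) b hs'
  let Z : Submodule K L :=
    { carrier := {x | ∀ y, ξ ⁅x, y⁆ = 0}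
      add_mem' := fun {x x'} hx hx' y => by rw [add_lie, map_add, hx y, hx' y, add_zero]
      zero_mem' := fun y => by simp
      smul_mem' := fun c x hx y => by rw [smul_lie, map_smul, hx y, smul_zero] }
  have hinj : ∀ x ∈ Z, R.pm x = 0 → x = 0 := by
    intro x hx hx0
    by_contra hne
    obtain ⟨u, hu⟩ := hh.mem_left hne hx0
    have h2 := rU_J0 R hu
    rw [map_sub, sub_eq_zero, map_mul] at h2
    rw [h2, Module.End.mul_apply] at h1
    exact hξ (top_vanish R b s hx0 h1 ξ hx)
  have hss : ∀ x ∈ Z, x ∈ Submodule.span K (Set.range fun k : ℕ => R.pm^[k + 1] x) :=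
    fun x hx => R.ss_of_inj Z (fun x hx => R.cen_pm ξ hx) hinj hx
  refine ⟨ξ, fun x hx z hz => R.ab_of_ss Z (fun x hx y hy w => ?_) hss hx hz,
    fun x hx => R.cen_pm ξ hx, hss⟩
  rw [lie_lie, map_sub, hx, hy, sub_zero]

end H344PS
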