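import Pool.Agent.H344Z.PS.Sym

/-! Restricted Lie algebras, the `p`-centre and symbols adapted to it. -/

set_option autoImplicit false
set_option linter.unusedSectionVars false

namespace H344PS

open MvPolynomial H67OL H67OL.DOMaux

/-- the data of a `p`-map -/
structure Res (p : ℕ) (K L : Type) [Field K] [LieRing L] [LieAlgebra K L] where
  /-- the `p`-map -/
  pm : L → L
  sm : ∀ (c : K) x, pm (c • x) = c ^ p • pm x
  ad : ∀ x y, ⁅pm x, y⁆ = (LieAlgebra.ad K L x ^ p) y
  add : ∀ x y, (io K x + io K y) ^ p - io K x ^ p - io K y ^ p = io K (pm (x + y) - pm x - pm y)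

variable {K : Type} [Field K] {L : Type} [LieRing L] [LieAlgebra K L] {I : Type}
  {p : ℕ} [hp : Fact p.Prime] [CharP K p]

lemma adA_pow_map {A : Type} [Ring A] [Algebra K A] (φ : L →ₗ[K] A)
    (hφ : ∀ x y, φ ⁅x, y⁆ = φ x * φ y - φ y * φ x) (x y : L) (n : ℕ) :
    (adA K (φ x) ^ n) (φ y) = φ ((LieAlgebra.ad K L x ^ n) y) := by
  induction n with
  | zero => simp
  | succ n ih =>
    rw [pow_succ', pow_succ', Module.End.mul_apply, Module.End.mul_apply, ih, adA_apply,
      LieAlgebra.ad_apply, hφ]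

theorem exists_Res (pmap : L → L) {A : Type} [Ring A] [Algebra K A] (φ : L →ₗ[K] A)
    (hinj : Function.Injective φ) (hφ : ∀ x y, φ ⁅x, y⁆ = φ x * φ y - φ y * φ x)
    (hpm : ∀ x, φ (pmap x) = φ x ^ p) : ∃ R : Res p K L, R.pm = pmap := by
  refine ⟨⟨pmap, ?_, ?_, ?_⟩, rfl⟩
  · intro c x
    apply hinj
    rw [hpm, map_smul, map_smul, hpm, smul_pow]
  · intro x y
    apply hinj
    rw [hφ, hpm, ← adA_apply (K := K), ← adA_pow, adA_pow_map φ hφ]
  · intro x y
    obtain ⟨Φ, hΦ⟩ := exists_lift φ hφ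
    have h1 := jacobson_mem (p := p) (LinearMap.range (io K (L := L))) (by
      rintro _ ⟨a, rfl⟩ _ ⟨c, rfl⟩
      exact ⟨⁅a, c⁆, io_lie a c⟩) (LinearMap.mem_range_self _ x) (LinearMap.mem_range_self _ y)
    obtain ⟨w, hw⟩ := h1
    rw [← hw]
    congr 1
    apply hinj
    have h2 := congrArg Φ hw
    rw [hΦ, map_sub, map_sub, map_pow, map_pow, map_pow, map_add, hΦ, hΦ] at h2
    rw [h2, map_sub, map_sub, hpm, hpm, hpm, map_add]

namespace Res

variable (R : Res p K L)

/-- the central element `x ^ p - x ^ [p]` -/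
noncomputable def z (x : L) : U K L := io K x ^ p - io K (R.pm x)

lemma z_add (x y : L) : R.z (x + y) = R.z x + R.z y := by
  have h := R.add x y
  rw [map_sub, map_sub] at h
  unfold z
  rw [map_add]
  have : (io K x + io K y) ^ p = io K x ^ p + io K y ^ p +
      (io K (R.pm (x + y)) - io K (R.pm x) - io K (R.pm y)) := by rw [← h]; abel
  rw [this]; abel

lemma z_smul (c : K) (x : L) : R.z (c • x) = c ^ p • R.z x := by
  unfold z
  rw [R.sm, map_smul, map_smul, smul_pow, smul_sub]

lemma pm_zero : R.pm 0 = 0 := by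
  have := R.sm 0 0
  rwa [zero_smul, zero_pow hp.out.ne_zero, zero_smul] at this

lemma z_zero : R.z 0 = 0 := by
  unfold z
  rw [R.pm_zero, map_zero, zero_pow hp.out.ne_zero, sub_zero]

lemma z_comm (x : L) (u : U K L) : R.z x * u = u * R.z x := by
  refine U_ind (fun u => R.z x * u = u * R.z x) ?_ ?_ ?_ ?_ u
  · intro r; exact (Algebra.commutes r _).symm
  · intro y
    have h1 : io K x ^ p * io K y - io K y * io K x ^ p =
        io K (R.pm x) * io K y - io K y * io K (R.pm x) := by
      rw [← io_lie, R.ad, ← adA_pow_map (io K) io_lie, adA_pow, adA_apply]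
    unfold z
    rw [sub_mul, mul_sub, sub_eq_sub_iff_sub_eq_sub, h1]
  · intro a c ha hc
    rw [← mul_assoc, ha, mul_assoc, hc, mul_assoc]
  · intro a c ha hc
    rw [mul_add, add_mul, ha, hc]

/-- the central subalgebra generated by the elements `z (b i)` -/
noncomputable def Zm (b : Module.Basis I K L) : MvPolynomial I K →ₐ[K] U K L :=
  (Subalgebra.center K (U K L)).val.comp
    (aeval fun i => (⟨R.z (b i), Subalgebra.mem_center_iff.2 fun u => (R.z_comm _ u).symm⟩ :
      Subalgebra.center K (U K L)))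

lemma Zm_X (b : Module.Basis I K L) (i : I) : R.Zm b (X i) = R.z (b i) := by simp [Zm]

lemma Zm_comm (b : Module.Basis I K L) (g : MvPolynomial I K) (u : U K L) :
    R.Zm b g * u = u * R.Zm b g :=
  (Subalgebra.mem_center_iff.1 (Subtype.property _) u).symm

/-- the ideal defining the reduced enveloping algebra -/
noncomputable def J (χ : Module.Dual K L) : Ideal (U K L) :=
  Ideal.span (Set.range fun y => R.z y - algebraMap K _ (χ y ^ p))

lemma gen_mem_J (χ : Module.Dual K L) (y : L) : R.z y - algebraMap K _ (χ y ^ p) ∈ R.J χ :=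
  Ideal.subset_span ⟨y, rfl⟩

lemma gen_comm (χ : Module.Dual K L) (y : L) (u : U K L) :
    (R.z y - algebraMap K _ (χ y ^ p)) * u = u * (R.z y - algebraMap K _ (χ y ^ p)) := by
  rw [sub_mul, mul_sub, R.z_comm, Algebra.commutes]

lemma J_ind (χ : Module.Dual K L) (C : U K L → Prop) (h0 : C 0)
    (h1 : ∀ y u, C ((R.z y - algebraMap K _ (χ y ^ p)) * u)) (h2 : ∀ u v, C u → C v → C (u + v))
    {u : U K L} (hu : u ∈ R.J χ) : C u := by
  have : ∀ v, C (v * u) := by
    induction hu using Submodule.span_induction with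
    | mem x hx =>
      obtain ⟨y, rfl⟩ := hx
      intro v
      rw [← R.gen_comm]; exact h1 y v
    | zero => intro v; rw [mul_zero]; exact h0
    | add x y _ _ hx hy => intro v; rw [mul_add]; exact h2 _ _ (hx v) (hy v)
    | smul a x _ hx => intro v; rw [smul_eq_mul, ← mul_assoc]; exact hx _
  simpa using this 1

instance (χ : Module.Dual K L) : (R.J χ).IsTwoSided := by
  constructor
  intro a c ha
  refine R.J_ind χ (fun a => a * c ∈ R.J χ) ?_ ?_ ?_ ha
  · simp
  · intro y u
    rw [mul_assoc, R.gen_comm]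
    exact Ideal.mul_mem_left _ _ (R.gen_mem_J χ y)
  · intro u v hu hv
    rw [add_mul]; exact Ideal.add_mem _ hu hv

lemma z_mem_J0 (y : L) : R.z y ∈ R.J 0 := by
  have := R.gen_mem_J 0 y
  rwa [LinearMap.zero_apply, zero_pow hp.out.ne_zero, map_zero, sub_zero] at this

lemma hom_J {A : Type} [Ring A] [Algebra K A] (Φ : U K L →ₐ[K] A) (χ : Module.Dual K L)
    (h : ∀ y, Φ (R.z y) = algebraMap K _ (χ y ^ p)) {u : U K L} (hu : u ∈ R.J χ) : Φ u = 0 := by
  refine R.J_ind χ (fun u => Φ u = 0) (map_zero _) ?_ ?_ hu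
  · intro y u
    rw [map_mul, map_sub, h, AlgHom.commutes, sub_self, zero_mul]
  · intro u v hu hv
    rw [map_add, hu, hv, add_zero]

lemma hom_J0 {A : Type} [Ring A] [Algebra K A] (Φ : U K L →ₐ[K] A)
    (h : ∀ y, Φ (R.z y) = 0) {u : U K L} (hu : u ∈ R.J 0) : Φ u = 0 :=
  R.hom_J Φ 0 (fun y => by
    rw [h, LinearMap.zero_apply, zero_pow hp.out.ne_zero, map_zero]) hu

lemma Zm_sub_mem (b : Module.Basis I K L) (χ : Module.Dual K L) (g : MvPolynomial I K) :
    R.Zm b g - algebraMap K _ (eval (fun i => χ (b i) ^ p) g) ∈ R.J χ := by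
  induction g using MvPolynomial.induction_on with
  | C a => simp
  | add f g hf hg =>
    rw [map_add, map_add, map_add]
    have := Ideal.add_mem _ hf hg
    convert this using 1; abel
  | mul_X f i hf =>
    rw [map_mul, map_mul, map_mul, eval_X, R.Zm_X]
    have h1 := Ideal.mul_mem_right (R.z (b i)) _ hf
    have h2 := Ideal.mul_mem_left _ (algebraMap K (U K L) (eval (fun i => χ (b i) ^ p) f))
      (R.gen_mem_J χ (b i))
    have := Ideal.add_mem _ h1 h2
    convert this using 1
    rw [sub_mul, mul_sub]; abel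

end Res

namespace PSym

variable {b : Module.Basis I K L} {S : PSym b} (R : Res p K L)

lemma sy_z (y : L) : S.Sy p (R.z y) (lf b y ^ p) := by
  have h1 := (sy_io (S := S) y).pow p
  rw [mul_one] at h1
  have h2 := (sy_io (S := S) (R.pm y)).zero_of_lt hp.out.one_lt
  have := h1.sub h2
  rwa [sub_zero] at this

/-- symbols of polynomials in central elements, for an arbitrary second basis -/
lemma sy_Zm {I' : Type} (b' : Module.Basis I' K L) {e : ℕ} {g : MvPolynomial I' K}
    (hg : g ∈ Lt K I' (e + 1)) :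
    S.Sy (p * e) (R.Zm b' g) (aeval (fun i => lf b (b' i) ^ p) g) := by
  have key : ∀ β : I' →₀ ℕ, S.Sy (p * β.degree) (R.Zm b' (monomial β 1))
      (aeval (fun i => lf b (b' i) ^ p) (monomial β (1 : K))) := by
    intro β
    induction β using Finsupp.induction_linear with
    | zero => simpa using sy_one
    | add β γ hβ hγ =>
      have : (monomial (β + γ) (1 : K) : MvPolynomial I' K) = monomial β 1 * monomial γ 1 := by
        rw [monomial_mul, one_mul]
      rw [this, map_mul, map_mul, map_add, mul_add]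
      exact hβ.mul hγ
    | single i n =>
      rw [← X_pow_eq_monomial, map_pow, map_pow, R.Zm_X, aeval_X, Finsupp.degree_single,
        mul_comm]
      exact (sy_z R (b' i)).pow n
  rw [g.as_sum, map_sum, map_sum]
  refine Sy.sum _ fun α hα => ?_
  have : monomial α (coeff α g) = coeff α g • (monomial α 1 : MvPolynomial I' K) := by
    rw [smul_monomial, smul_eq_mul, mul_one]
  rw [this, map_smul, map_smul]
  refine ((key α).mono ?_).smul _
  have := mem_Lt.1 hg α (mem_support_iff.1 hα)
  exact Nat.mul_le_mul_left _ (by omega)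

end PSym

/-- quotient of exponents -/
noncomputable def dv (p : ℕ) (γ : I →₀ ℕ) : I →₀ ℕ := γ.mapRange (· / p) (Nat.zero_div p)

/-- remainder of exponents -/
noncomputable def md (p : ℕ) (γ : I →₀ ℕ) : I →₀ ℕ := γ.mapRange (· % p) (Nat.zero_mod p)

lemma dv_add_md (p : ℕ) (γ : I →₀ ℕ) : p • dv p γ + md p γ = γ := by
  ext i; simp [dv, md, Nat.div_add_mod]

lemma dv_add_single (γ : I →₀ ℕ) (i : I) :
    dv p (Finsupp.single i p + γ) = Finsupp.single i 1 + dv p γ := by
  classical
  ext j
  simp only [dv, Finsupp.mapRange_apply, Finsupp.add_apply, Finsupp.single_apply]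
  split_ifs
  · rw [Nat.add_div_left _ hp.out.pos, add_comm]
  · simp

lemma md_add_single (γ : I →₀ ℕ) (i : I) : md p (Finsupp.single i p + γ) = md p γ := by
  classical
  ext j
  simp only [md, Finsupp.mapRange_apply, Finsupp.add_apply, Finsupp.single_apply]
  split_ifs
  · simp
  · simp

lemma md_lt (γ : I →₀ ℕ) (i : I) : md p γ i < p := Nat.mod_lt _ hp.out.pos

lemma md_of_red {γ : I →₀ ℕ} (h : ∀ i, γ i < p) : md p γ = γ := by
  ext i; simp [md, Nat.mod_eq_of_lt (h i)]

lemma dv_of_red {γ : I →₀ ℕ} (h : ∀ i, γ i < p) : dv p γ = 0 := by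
  ext i; simp [dv, Nat.div_eq_of_lt (h i)]

lemma degree_dv_md (p : ℕ) (γ : I →₀ ℕ) : p * (dv p γ).degree + (md p γ).degree = γ.degree := by
  conv_rhs => rw [← dv_add_md p γ]
  rw [map_add, map_nsmul, smul_eq_mul]

/-- a linear map given on monomials -/
noncomputable def onMon {W : Type} [AddCommGroup W] [Module K W] (F : (I →₀ ℕ) → W) :
    MvPolynomial I K →ₗ[K] W := (basisMonomials I K).constr K F

lemma onMon_monomial {W : Type} [AddCommGroup W] [Module K W] (F : (I →₀ ℕ) → W) (α : I →₀ ℕ) :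
    onMon (K := K) F (monomial α 1) = F α := by
  have h : (monomial α 1 : MvPolynomial I K) = basisMonomials I K α := by rw [coe_basisMonomials]
  rw [h, onMon, Module.Basis.constr_basis]

lemma mon_ext {W : Type} [AddCommGroup W] [Module K W] {φ ψ : MvPolynomial I K →ₗ[K] W}
    (h : ∀ α, φ (monomial α 1) = ψ (monomial α 1)) : φ = ψ :=
  (basisMonomials I K).ext fun α => by rw [coe_basisMonomials]; exact h α

/-- a symbol map compatible with the `p`-centre -/
structure Sym (R : Res p K L) (b : Module.Basis I K L) extends PSym b where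
  zeta : ∀ i u, σ (R.z (b i) * u) = X i ^ p * σ u

theorem exists_Sym (R : Res p K L) (b : Module.Basis I K L) : Nonempty (Sym R b) := by
  obtain ⟨S⟩ := exists_PSym b
  let Θ : MvPolynomial I K →ₗ[K] U K L :=
    onMon fun γ => R.Zm b (monomial (dv p γ) 1) * S.σ.symm (monomial (md p γ) 1)
  have hΘ : ∀ γ, S.Sy γ.degree (Θ (monomial γ 1)) (monomial γ 1) := by
    intro γ
    rw [onMon_monomial]
    have h1 := (PSym.sy_Zm (S := S) R b (monomial_mem_Lt (dv p γ) 1)).mul
      (PSym.sy_symm (S := S) (monomial_mem_Lt (md p γ) 1))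
    rw [degree_dv_md] at h1
    convert h1 using 1
    have : (aeval fun i => lf b (b i) ^ p) (monomial (dv p γ) (1 : K)) =
        expand p (monomial (dv p γ) (1 : K)) := by
      simp only [lf_basis]; rfl
    rw [this, expand_monomial, monomial_mul, one_mul, dv_add_md]
  let T : MvPolynomial I K →ₗ[K] MvPolynomial I K := S.σ.toLinearMap.comp Θ
  have hT : ∀ m f, f ∈ Lt K I (m + 1) → T f - f ∈ Lt K I m := by
    intro m f hf
    refine map_mem_of_monomial (T - LinearMap.id) _ f fun α hα => ?_
    have := mem_Lt.1 hf α hα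
    exact Lt_mono (by omega) (hΘ α).1
  have hbij : Function.Bijective Θ := by
    constructor
    · intro f g h
      apply unitri_inj T hT
      change S.σ (Θ f) = S.σ (Θ g)
      rw [h]
    · intro u
      obtain ⟨f, hf⟩ := unitri_surj T hT (S.σ u)
      exact ⟨f, S.σ.injective hf⟩
  let E := (LinearEquiv.ofBijective Θ hbij).symm
  have hE : ∀ u, Θ (E u) = u := fun u => (LinearEquiv.ofBijective Θ hbij).apply_symm_apply u
  have hE' : ∀ f, E (Θ f) = f := fun f => (LinearEquiv.ofBijective Θ hbij).symm_apply_apply f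
  have hTE : ∀ u, T (E u) = S.σ u := fun u => by change S.σ (Θ (E u)) = _; rw [hE]
  have h1 : ∀ k u, S.σ u ∈ Lt K I k → E u ∈ Lt K I k := fun k u h =>
    unitri_mem T hT (by rwa [hTE])
  have h2 : ∀ k u, E u ∈ Lt K I (k + 1) → S.Sy k u (E u) := fun k u h =>
    ⟨by rw [← hTE]; exact hT k _ h, h⟩
  have h3 : ∀ k u f, S.Sy k u f → E u - f ∈ Lt K I k := fun k u f h =>
    (h2 k u (h1 _ _ h.deg)).uniq h
  refine ⟨⟨⟨E, h3 0 1 1 PSym.sy_one, fun y => h3 1 _ _ (PSym.sy_io y), ?_⟩, ?_⟩⟩
  · intro m n u v hu hv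
    exact h3 _ _ _ ((h2 m u hu).mul (h2 n v hv))
  · intro i u
    change E (R.z (b i) * u) = X i ^ p * E u
    have : Θ.comp (LinearMap.mulLeft K (X i ^ p)) = (LinearMap.mulLeft K (R.z (b i))).comp Θ := by
      refine mon_ext fun α => ?_
      simp only [LinearMap.comp_apply, LinearMap.mulLeft_apply]
      rw [X_pow_eq_monomial, monomial_mul, one_mul, onMon_monomial, onMon_monomial,
        dv_add_single, md_add_single, ← mul_assoc, ← R.Zm_X, ← map_mul, X, monomial_mul, one_mul]
    have h4 := LinearMap.congr_fun this (E u)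
    simp only [LinearMap.comp_apply, LinearMap.mulLeft_apply] at h4
    rw [hE] at h4
    rw [← h4, hE']

end H344PS
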