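import Pool.Agent.H344Z.PS.Der

/-! Semisimplicity of a reduced enveloping algebra and the adjoint action of the integral. -/

set_option autoImplicit false
set_option linter.unusedSectionVars false

namespace H344PS

open MvPolynomial H67OL H67OL.DOMaux

variable {K : Type} [Field K] {L : Type} [LieRing L] [LieAlgebra K L] {I : Type} [Fintype I]
  {p : ℕ} [hp : Fact p.Prime] [CharP K p]

/-- the exponent of a word -/
noncomputable def cnt (l : List I) : I →₀ ℕ := (l.map fun i => Finsupp.single i 1).sum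

lemma cnt_cons (i : I) (l : List I) : cnt (i :: l) = Finsupp.single i 1 + cnt l := by
  simp [cnt]

lemma cnt_nil : cnt ([] : List I) = 0 := rfl

lemma degree_cnt (l : List I) : (cnt l).degree = l.length := by
  induction l with
  | nil => simp [cnt_nil]
  | cons i l ih => rw [cnt_cons, map_add, ih, Finsupp.degree_single, List.length_cons, add_comm]

lemma exists_cnt (α : I →₀ ℕ) : ∃ l, cnt l = α :=
  exp_ind (fun α => ∃ l, cnt l = α) ⟨[], rfl⟩
    (fun i _ ⟨l, hl⟩ => ⟨i :: l, by rw [cnt_cons, hl]⟩) α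

lemma cnt_ne_zero {l : List I} {i : I} (h : i ∈ l) : cnt l i ≠ 0 := by
  induction l with
  | nil => simp at h
  | cons j l ih =>
    rw [cnt_cons, Finsupp.add_apply]
    rcases List.mem_cons.1 h with rfl | h
    · simp
    · have := ih h; omega

/-- a word in basis elements -/
noncomputable def wd (b : Module.Basis I K L) (l : List I) : U K L :=
  (l.map fun i => io K (b i)).prod

lemma wd_cons (b : Module.Basis I K L) (i : I) (l : List I) :
    wd b (i :: l) = io K (b i) * wd b l := by simp [wd]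

lemma monomial_single_add (i : I) (α : I →₀ ℕ) :
    (monomial (Finsupp.single i 1 + α) (1 : K) : MvPolynomial I K) = X i * monomial α 1 := by
  rw [X, monomial_mul, one_mul]

lemma PSym.sy_wd {b : Module.Basis I K L} {S : PSym b} (l : List I) :
    S.Sy l.length (wd b l) (monomial (cnt l) 1) := by
  induction l with
  | nil => simpa [wd, cnt_nil] using PSym.sy_one
  | cons i l ih =>
    rw [wd_cons, cnt_cons, monomial_single_add, List.length_cons, add_comm, ← lf_basis b i]
    exact (PSym.sy_io _).mul ih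

lemma comm_rE {Q : Type} [Ring Q] [Algebra K Q] {R : Res p K L} {h : U K L} (hh : IsInt R h)
    (π : U K L →ₐ[K] Q) (hs : Function.Surjective π) (φ : Module.End K Q)
    (hz : ∀ y, ∃ c : K, π (R.z y) = algebraMap K Q c) (q x : Q) :
    adR ((Algebra.lmul K Q).comp π) h φ (q * x) = q * adR ((Algebra.lmul K Q).comp π) h φ x := by
  obtain ⟨u, rfl⟩ := hs q
  have h1 := comm_of_io ((Algebra.lmul K Q).comp π)
    (c := adR ((Algebra.lmul K Q).comp π) h φ) (fun y => by
      have h2 := adR_J0 R ((Algebra.lmul K Q).comp π) (fun y a => by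
        obtain ⟨c, hc⟩ := hz y
        rw [AlgHom.comp_apply, hc, AlgHom.commutes, Algebra.commutes]) (hh.1 y)
      have h3 := LinearMap.congr_fun h2 φ
      rw [map_mul, Module.End.mul_apply, adR_io_apply] at h3
      exact sub_eq_zero.1 h3) u
  exact (LinearMap.congr_fun h1 x).symm

theorem maschke {Q : Type} [Ring Q] [Algebra K Q] {R : Res p K L} {h : U K L} (hh : IsInt R h)
    (π : U K L →ₐ[K] Q) (hs : Function.Surjective π)
    (hz : ∀ y, ∃ c : K, π (R.z y) = algebraMap K Q c) {a : U K L} (ha : π (rU h a) = 1) :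
    IsSemisimpleRing Q := by
  refine (isSemisimpleModule_iff _ _).2 ⟨fun N => ?_⟩
  obtain ⟨N', hN'⟩ := (N.restrictScalars K).exists_isCompl
  let pN : Module.End K Q :=
    (N.restrictScalars K).subtype.comp ((N.restrictScalars K).projectionOnto N' hN')
  have hp1 : ∀ x, pN x ∈ N := fun x => ((N.restrictScalars K).projectionOnto N' hN' x).2
  have hp2 : ∀ x ∈ N, pN x = x := fun x hx => by
    have := Submodule.projectionOnto_apply_left hN' ⟨x, hx⟩
    exact congrArg Subtype.val this
  set Φ := (Algebra.lmul K Q).comp π with hΦ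
  let φ := adR Φ h (pN * Φ a)
  have h1 : ∀ q x, φ (q * x) = q * φ x := comm_rE hh π hs _ hz
  have h2 : ∀ x, φ x ∈ N := by
    let W : Submodule K (Module.End K Q) :=
      { carrier := {ψ | ∀ x, ψ x ∈ N}
        add_mem' := fun ha hb x => N.add_mem (ha x) (hb x)
        zero_mem' := fun x => N.zero_mem
        smul_mem' := fun c ψ hψ x => (N.restrictScalars K).smul_mem c (hψ x) }
    refine stable (adR Φ) W (fun y ψ hψ x => ?_) h _ fun x => hp1 _
    rw [adR_io_apply]
    exact N.sub_mem (N.smul_mem (π (io K y)) (hψ x)) (hψ _)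
  have h3 : ∀ x ∈ N, φ x = x := by
    let W : Submodule K (Module.End K Q) :=
      { carrier := {ψ | ∀ x ∈ N, ψ x = 0}
        add_mem' := fun ha hb x hx => by rw [LinearMap.add_apply, ha x hx, hb x hx, add_zero]
        zero_mem' := fun x _ => rfl
        smul_mem' := fun c ψ hψ x hx => by rw [LinearMap.smul_apply, hψ x hx, smul_zero] }
    have h4 : adR Φ h (pN * Φ a - Φ a) ∈ W := by
      refine stable (adR Φ) W (fun y ψ hψ x hx => ?_) h _ fun x hx => ?_
      · rw [adR_io_apply, LinearMap.sub_apply, Module.End.mul_apply, Module.End.mul_apply,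
          hψ x hx, map_zero, zero_sub, neg_eq_zero]
        exact hψ _ (N.smul_mem (π (io K y)) hx)
      · rw [LinearMap.sub_apply, Module.End.mul_apply, sub_eq_zero]
        exact hp2 _ (N.smul_mem (π a) hx)
    intro x hx
    have h5 := h4 x hx
    rw [map_sub, ← map_rU, hΦ, AlgHom.comp_apply _ _ (rU h a), ha, map_one, LinearMap.sub_apply,
      sub_eq_zero] at h5
    exact h5
  let f : Q →ₗ[Q] N :=
    { toFun := fun x => ⟨φ x, h2 x⟩
      map_add' := fun x y => Subtype.ext (map_add φ x y)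
      map_smul' := fun q x => Subtype.ext (h1 q x) }
  exact ⟨LinearMap.ker f, LinearMap.isCompl_of_proj fun x => Subtype.ext (h3 x x.2)⟩

lemma exists_fac (J : Ideal (U K L)) [J.IsTwoSided] (φ : U K L →ₗ[K] K) (hφ : ∀ u ∈ J, φ u = 0) :
    ∃ ψ : Module.Dual K (U K L ⧸ J), ∀ u, ψ (Ideal.Quotient.mkₐ K J u) = φ u := by
  have h1 : φ ∈ LinearMap.range (Ideal.Quotient.mkₐ K J).toLinearMap.dualMap := by
    rw [LinearMap.range_dualMap_eq_dualAnnihilator_ker, Submodule.mem_dualAnnihilator]
    intro w hw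
    exact hφ w (Ideal.Quotient.eq_zero_iff_mem.1 hw)
  obtain ⟨ψ, hψ⟩ := h1
  exact ⟨ψ, fun u => LinearMap.congr_fun hψ u⟩

theorem higman {R : Res p K L} {h : U K L} (hh : IsInt R h) (b : Module.Basis I K L)
    (χ : Module.Dual K L) :
    ∃ (φ : Module.End K (U K L ⧸ R.J χ)) (c : K), c ≠ 0 ∧
      adR ((Algebra.lmul K _).comp (Ideal.Quotient.mkₐ K (R.J χ))) h φ = c • 1 := by
  classical
  obtain ⟨S, ⟨Λ⟩⟩ := exists_Lam R b χ
  obtain ⟨S0, ⟨Λ0⟩⟩ := exists_Lam R b 0
  obtain ⟨l, hl⟩ := exists_fac (R.J χ) Λ.l Λ.kill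
  set mk := Ideal.Quotient.mkₐ K (R.J χ) with hmk
  set Φ := (Algebra.lmul K _).comp mk with hΦ
  have hz : ∀ y, ∃ c : K, mk (R.z y) = algebraMap K _ c := fun y =>
    ⟨χ y ^ p, by rw [← mk.commutes]; exact Ideal.Quotient.eq.2 (R.gen_mem_J χ y)⟩
  let φ : Module.End K (U K L ⧸ R.J χ) := l.smulRight 1
  have G : ∀ (w : List I) k v g, S.Sy k v g → w.length + k ≤ (tau p I).degree →
      adR Φ (wd b w) φ (mk v) =
        ((-1) ^ w.length * coeff (tau p I) (monomial (cnt w) 1 * g)) • 1 := by
    intro w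
    induction w with
    | nil =>
      intro k v g hs hk
      have : wd b [] = 1 := rfl
      rw [this, map_one, Module.End.one_apply, LinearMap.smulRight_apply, hl,
        Λ.top _ _ (hs.mono (by simpa using hk)), cnt_nil]
      simp
    | cons i w ih =>
      intro k v g hs hk
      rw [List.length_cons] at hk
      have h1 := ih k v g hs (by omega)
      have h2 := ih (1 + k) _ _ ((PSym.sy_io (b i)).mul hs) (by omega)
      have h3 : coeff (tau p I) (monomial (cnt w) 1 * g) = 0 := by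
        by_contra h4
        have := mem_Lt.1 ((PSym.sy_wd (S := S) w).mul hs).2 _ h4
        omega
      rw [h3, mul_zero, zero_smul] at h1
      rw [wd_cons, map_mul, Module.End.mul_apply, adR_io_apply, LinearMap.sub_apply,
        Module.End.mul_apply, Module.End.mul_apply, h1, map_zero, zero_sub]
      have h5 : Φ (io K (b i)) (mk v) = mk (io K (b i) * v) := by rw [map_mul]; rfl
      rw [h5, h2, cnt_cons, monomial_single_add, lf_basis, List.length_cons, ← neg_smul]
      congr 1
      rw [pow_succ, mul_left_comm (monomial _ _), mul_assoc (X i)]; ring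
  choose W hW using exists_cnt (I := I)
  have hW' : ∀ α, (W α).length = α.degree := fun α => by rw [← degree_cnt, hW]
  have hsy : ∀ (S : PSym b) α, S.Sy α.degree (wd b (W α)) (monomial α 1) := by
    intro S α
    have := PSym.sy_wd (S := S) (W α)
    rwa [hW, hW'] at this
  obtain ⟨c, hc⟩ := PSym.span_J R 0 (fun α => wd b (W α)) (fun α _ => hsy S α) h
  have hτ : tau p I ∈ Red p I := mem_Red'.2 le_rfl
  have hdeg : ∀ α ∈ Red p I, α.degree ≤ (tau p I).degree := fun α hα =>
    Finsupp.degree_mono (mem_Red'.1 hα)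
  have h0 : c (tau p I) ≠ 0 := by
    have h1 := Λ0.kill _ hc
    rw [map_sub, map_sum, sub_eq_zero, Finset.sum_eq_single (tau p I)] at h1
    · rw [map_smul, Λ0.top _ _ (hsy S0 _), coeff_monomial, if_pos rfl, smul_eq_mul,
        mul_one] at h1
      rw [← h1]; exact hh.lam_ne Λ0
    · intro α hα hne
      rw [map_smul, Λ0.top _ _ ((hsy S0 _).mono (hdeg α hα)), coeff_monomial, if_neg hne,
        smul_zero]
    · intro h'; exact absurd hτ h'
  refine ⟨φ, c (tau p I) * (-1) ^ (tau p I).degree,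
    mul_ne_zero h0 (pow_ne_zero _ (neg_ne_zero.2 one_ne_zero)), ?_⟩
  have h1 := adR_J0 R Φ (fun y a => by
    obtain ⟨c, hc⟩ := hz y
    rw [hΦ, AlgHom.comp_apply, hc, AlgHom.commutes, Algebra.commutes]) hc
  rw [map_sub, sub_eq_zero] at h1
  have h2 : adR Φ h φ 1 = (c (tau p I) * (-1) ^ (tau p I).degree) • 1 := by
    have h3 : ∀ α ∈ Red p I, adR Φ (wd b (W α)) φ 1 =
        ((-1) ^ α.degree * coeff (tau p I) (monomial α (1 : K))) • 1 := by
      intro α hα
      have := G (W α) 0 1 1 PSym.sy_one (by rw [hW']; exact hdeg α hα)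
      rwa [map_one, hW, hW', mul_one] at this
    rw [h1, map_sum, LinearMap.sum_apply, LinearMap.sum_apply, Finset.sum_eq_single (tau p I)]
    · rw [map_smul, LinearMap.smul_apply, LinearMap.smul_apply, h3 _ hτ, coeff_monomial,
        if_pos rfl, smul_smul, mul_one]
    · intro α hα hne
      rw [map_smul, LinearMap.smul_apply, LinearMap.smul_apply, h3 _ hα, coeff_monomial,
        if_neg hne, mul_zero, zero_smul, smul_zero]
    · intro h'; exact absurd hτ h'
  refine LinearMap.ext fun q => ?_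
  have h4 := comm_rE hh mk (Ideal.Quotient.mkₐ_surjective K _) φ hz q 1
  rw [mul_one] at h4
  rw [h4, h2]; simp

theorem ne_zero_of_ss [IsAlgClosed K] {R : Res p K L} {h : U K L} (hh : IsInt R h)
    (b : Module.Basis I K L) (χ : Module.Dual K L) (hss : IsSemisimpleRing (U K L ⧸ R.J χ)) :
    ∃ a, rU h a ≠ 0 := by
  classical
  have := finite_quot R b χ
  obtain ⟨φ, c, hc, hφ⟩ := higman hh b χ
  obtain ⟨n, d, hd, ⟨e⟩⟩ :=
    IsSemisimpleRing.exists_algEquiv_pi_matrix_of_isAlgClosed K (U K L ⧸ R.J χ)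
  set mk := Ideal.Quotient.mkₐ K (R.J χ) with hmk
  have hn : Nonempty (Fin n) := by
    by_contra hn
    rw [not_nonempty_iff] at hn
    obtain ⟨S, ⟨Λ⟩⟩ := exists_Lam R b χ
    refine Λ.one_not_mem (Ideal.Quotient.eq_zero_iff_mem.1 (e.injective (Subsingleton.elim _ _)))
  obtain ⟨i0⟩ := hn
  have := hd i0
  let pr : (U K L ⧸ R.J χ) →ₐ[K] Matrix (Fin (d i0)) (Fin (d i0)) K :=
    (Pi.evalAlgHom K (fun i => Matrix (Fin (d i)) (Fin (d i)) K) i0).comp e.toAlgHom
  let sec : Matrix (Fin (d i0)) (Fin (d i0)) K →ₗ[K] (U K L ⧸ R.J χ) :=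
    e.symm.toLinearMap.comp (LinearMap.single K (fun i => Matrix (Fin (d i)) (Fin (d i)) K) i0)
  have hpr : ∀ q, pr q = e q i0 := fun q => rfl
  have hsec : ∀ m, e (sec m) = Pi.single i0 m := fun m => e.apply_symm_apply _
  have h1 : ∀ m, pr (sec m) = m := fun m => by rw [hpr, hsec, Pi.single_eq_same]
  have h2 : ∀ q m, q * sec m = sec (pr q * m) := by
    intro q m
    apply e.injective
    rw [map_mul, hsec, hsec, hpr, Pi.single_mul_right]
  let Pr : Module.End K (U K L ⧸ R.J χ) →ₗ[K] Matrix (Fin (d i0)) (Fin (d i0)) K :=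
    { toFun := fun ψ => ∑ j, pr (ψ (sec (Matrix.single j 0 1))) * Matrix.single 0 j 1
      map_add' := fun ψ ψ' => by simp [add_mul, Finset.sum_add_distrib]
      map_smul' := fun c ψ => by simp [Finset.smul_sum] }
  have hPr : ∀ ψ, Pr ψ = ∑ j, pr (ψ (sec (Matrix.single j 0 1))) * Matrix.single 0 j 1 :=
    fun ψ => rfl
  have h3 : Pr 1 = 1 := by
    rw [hPr]
    simp only [Module.End.one_apply, h1, Matrix.single_mul_single_same, mul_one]
    exact Matrix.sum_single_one
  have h4 : ∀ q ψ, Pr (Algebra.lmul K _ q * ψ) = pr q * Pr ψ := by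
    intro q ψ
    rw [hPr, hPr, Finset.mul_sum]
    refine Finset.sum_congr rfl fun j _ => ?_
    rw [← mul_assoc, ← map_mul]; rfl
  have h5 : ∀ q ψ, Pr (ψ * Algebra.lmul K _ q) = Pr ψ * pr q := by
    intro q ψ
    rw [hPr, hPr, Finset.sum_mul]
    have e1 : ∀ j, pr q * Matrix.single j (0 : Fin (d i0)) (1 : K) =
        ∑ k, pr q k j • Matrix.single k (0 : Fin (d i0)) (1 : K) := by
      intro j
      ext a c
      simp [Matrix.mul_apply, Matrix.single_apply, Matrix.sum_apply, ite_and]
    have e2 : ∀ k, Matrix.single (0 : Fin (d i0)) k (1 : K) * pr q =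
        ∑ j, pr q k j • Matrix.single (0 : Fin (d i0)) j (1 : K) := by
      intro k
      ext a c
      simp [Matrix.mul_apply, Matrix.single_apply, Matrix.sum_apply, ite_and]
    have e3 : ∀ j, (ψ * Algebra.lmul K _ q) (sec (Matrix.single j 0 1)) =
        ψ (sec (pr q * Matrix.single j 0 1)) := fun j => by rw [← h2]; rfl
    simp only [e3, e1, e2, map_sum, map_smul, Finset.sum_mul, mul_assoc, Finset.mul_sum,
      smul_mul_assoc, mul_smul_comm]
    exact Finset.sum_comm
  have h6 := equivar (adR ((Algebra.lmul K _).comp mk)) (adR (pr.comp mk)) Pr (fun y ψ => by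
    rw [adR_io_apply, adR_io_apply, map_sub, AlgHom.comp_apply, h4, h5]; rfl) h φ
  obtain ⟨a, ha⟩ := Ideal.Quotient.mkₐ_surjective K (R.J χ) (sec (Pr φ))
  refine ⟨a, fun h0 => ?_⟩
  have h7 : (pr.comp mk) a = Pr φ := by rw [AlgHom.comp_apply, hmk, ha, h1]
  rw [hφ, map_smul, h3, ← h7, ← map_rU, h0, map_zero, smul_eq_zero] at h6
  rcases h6 with h6 | h6
  · exact hc h6
  · exact one_ne_zero h6

lemma exists_root_pt [IsAlgClosed K] (b : Module.Basis I K L) {s : MvPolynomial I K}
    (hs : s ≠ 0) : ∃ χ : Module.Dual K L, eval (fun i => χ (b i) ^ p) s ≠ 0 := by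
  obtain ⟨v, hv⟩ : ∃ v : I → K, eval v s ≠ 0 := by
    by_contra h
    push Not at h
    exact hs (MvPolynomial.funext fun v => by rw [h v, map_zero])
  choose r hr using fun i => IsAlgClosed.exists_pow_nat_eq (v i) hp.out.pos
  refine ⟨b.constr K r, ?_⟩
  simp only [Module.Basis.constr_basis, hr]
  exact hv

/-- the defining relations of the reduced enveloping algebra -/
def Rel (p : ℕ) (pm : L → L) (χ : Module.Dual K L) (a b : TensorAlgebra K L) : Prop :=
  (∃ x y : L, a = TensorAlgebra.ι K x * TensorAlgebra.ι K y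
      - TensorAlgebra.ι K y * TensorAlgebra.ι K x ∧ b = TensorAlgebra.ι K ⁅x, y⁆) ∨
  (∃ x : L, a = (TensorAlgebra.ι K x) ^ p - TensorAlgebra.ι K (pm x) ∧
      b = algebraMap K (TensorAlgebra K L) (χ x ^ p))

theorem ss_iff [IsAlgClosed K] {R : Res p K L} {h : U K L} (hh : IsInt R h)
    (b : Module.Basis I K L) :
    (∃ χ : Module.Dual K L, IsSemisimpleRing (RingQuot (Rel p R.pm χ))) ↔ ∃ a, rU h a ≠ 0 := by
  constructor
  · rintro ⟨χ, hss⟩
    refine ne_zero_of_ss hh b χ ?_
    set mk := Ideal.Quotient.mkₐ K (R.J χ) with hmk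
    let f : TensorAlgebra K L →ₐ[K] (U K L ⧸ R.J χ) :=
      TensorAlgebra.lift K (mk.toLinearMap.comp (io K))
    have hf : ∀ x, f (TensorAlgebra.ι K x) = mk (io K x) := fun x => TensorAlgebra.lift_ι_apply _ _
    let g : RingQuot (Rel p R.pm χ) →ₐ[K] (U K L ⧸ R.J χ) := RingQuot.liftAlgHom K ⟨f, by
      rintro _ _ (⟨x, y, rfl, rfl⟩ | ⟨x, rfl, rfl⟩)
      · rw [map_sub, map_mul, map_mul, hf, hf, hf, io_lie, map_sub, map_mul, map_mul]
      · rw [map_sub, map_pow, hf, hf, AlgHom.commutes, ← map_pow, ← map_sub, ← mk.commutes]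
        exact Ideal.Quotient.eq.2 (R.gen_mem_J χ x)⟩
    have hg : ∀ t, g (RingQuot.mkAlgHom K _ t) = f t := fun t =>
      RingQuot.liftAlgHom_mkAlgHom_apply _ _ _ _
    refine RingHom.isSemisimpleRing_of_surjective g.toRingHom fun q => ?_
    obtain ⟨u, rfl⟩ := Ideal.Quotient.mkₐ_surjective K (R.J χ) q
    change mk u ∈ g.range
    refine U_ind (fun u => mk u ∈ g.range) ?_ ?_ ?_ ?_ u
    · intro r; rw [AlgHom.commutes]; exact g.range.algebraMap_mem r
    · intro x; exact ⟨_, (hg _).trans (hf x)⟩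
    · intro a c ha hc; rw [map_mul]; exact g.range.mul_mem ha hc
    · intro a c ha hc; rw [map_add]; exact g.range.add_mem ha hc
  · rintro ⟨a, ha⟩
    obtain ⟨s, a', hs, h1⟩ := hh.exists_Zm b ha
    obtain ⟨χ, hχ⟩ := exists_root_pt (p := p) b hs
    refine ⟨χ, ?_⟩
    set mk := RingQuot.mkAlgHom K (Rel p R.pm χ) with hmk
    obtain ⟨π, hπ⟩ := exists_lift (mk.toLinearMap.comp (TensorAlgebra.ι K)) (fun x y => by
      simp only [LinearMap.comp_apply, AlgHom.toLinearMap_apply]
      rw [← map_mul mk, ← map_mul mk, ← map_sub mk]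
      exact (RingQuot.mkAlgHom_rel K (s := Rel p R.pm χ) (Or.inl ⟨x, y, rfl, rfl⟩)).symm)
    have hπ' : ∀ x, π (io K x) = mk (TensorAlgebra.ι K x) := hπ
    have hz : ∀ y, π (R.z y) = algebraMap K _ (χ y ^ p) := by
      intro y
      rw [Res.z, map_sub, map_pow, hπ', hπ', ← map_pow, ← map_sub, ← mk.commutes]
      exact RingQuot.mkAlgHom_rel K (s := Rel p R.pm χ) (Or.inr ⟨y, rfl, rfl⟩)
    have hsurj : Function.Surjective π := by
      intro q
      obtain ⟨t, rfl⟩ := RingQuot.mkAlgHom_surjective K (Rel p R.pm χ) q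
      change mk t ∈ π.range
      induction t using TensorAlgebra.induction with
      | algebraMap r => rw [AlgHom.commutes]; exact π.range.algebraMap_mem r
      | ι x => exact ⟨_, hπ' x⟩
      | mul a c ha hc => rw [map_mul]; exact π.range.mul_mem ha hc
      | add a c ha hc => rw [map_add]; exact π.range.add_mem ha hc
    refine maschke hh π hsurj (fun y => ⟨_, hz y⟩)
      (a := (eval (fun i => χ (b i) ^ p) s)⁻¹ • a') ?_
    have h2 := R.hom_J π χ hz (R.Zm_sub_mem b χ s)
    rw [map_sub, sub_eq_zero, AlgHom.commutes] at h2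
    rw [map_smul, map_smul, h1, h2, Algebra.algebraMap_eq_smul_one, smul_smul,
      inv_mul_cancel₀ hχ, one_smul]

end H344PS
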