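import Pool.Agent.H344Z.PS.Jac
import Pool.Agent.H67.OL.DOM
import Pool.Agent.H67.OL.PBW2
import Pool.Agent.H67.OL.SORT

/-! The symbol calculus of the enveloping algebra. -/

set_option autoImplicit false
set_option linter.unusedSectionVars false

namespace H344PS

open MvPolynomial H67OL H67OL.DOMaux

/-- the enveloping algebra -/
abbrev U (K L : Type) [Field K] [LieRing L] [LieAlgebra K L] := UniversalEnvelopingAlgebra K L

variable {K : Type} [Field K] {L : Type} [LieRing L] [LieAlgebra K L] {I : Type}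

/-- the canonical map -/
noncomputable def io (K : Type) [Field K] {L : Type} [LieRing L] [LieAlgebra K L] :
    L →ₗ[K] U K L where
  toFun x := UniversalEnvelopingAlgebra.ι K x
  map_add' x y := map_add _ x y
  map_smul' c x := map_smul _ c x

lemma io_lie (x y : L) : io K ⁅x, y⁆ = io K x * io K y - io K y * io K x := by
  let _ : LieRing (UniversalEnvelopingAlgebra K L) := LieRing.ofAssociativeRing
  change UniversalEnvelopingAlgebra.ι K ⁅x, y⁆ = _
  rw [LieHom.map_lie, LieRing.of_associative_ring_bracket]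
  rfl

lemma exists_lift {A : Type} [Ring A] [Algebra K A] (φ : L →ₗ[K] A)
    (hφ : ∀ x y, φ ⁅x, y⁆ = φ x * φ y - φ y * φ x) :
    ∃ Φ : U K L →ₐ[K] A, ∀ x, Φ (io K x) = φ x := by
  let _ : LieRing A := LieRing.ofAssociativeRing
  let ρ' : L →ₗ⁅K⁆ A :=
    { φ with
      map_lie' := by
        intro x y
        rw [LieRing.of_associative_ring_bracket]
        exact hφ x y }
  exact ⟨UniversalEnvelopingAlgebra.lift K ρ', fun x =>
    UniversalEnvelopingAlgebra.lift_ι_apply K ρ' x⟩

lemma U_ind (C : U K L → Prop) (h1 : ∀ r : K, C (algebraMap K _ r)) (h2 : ∀ x, C (io K x))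
    (h3 : ∀ a b, C a → C b → C (a * b)) (h4 : ∀ a b, C a → C b → C (a + b)) (u : U K L) :
    C u := by
  obtain ⟨t, rfl⟩ : ∃ t, UniversalEnvelopingAlgebra.mkAlgHom K L t = u := by
    obtain ⟨t, ht⟩ := Quotient.exists_rep u
    exact ⟨t, ht⟩
  induction t using TensorAlgebra.induction with
  | algebraMap r => rw [AlgHom.commutes]; exact h1 r
  | ι x => exact h2 x
  | mul a b ha hb => rw [map_mul]; exact h3 _ _ ha hb
  | add a b ha hb => rw [map_add]; exact h4 _ _ ha hb

/-! ### Degrees -/

lemma mem_Lt {k : ℕ} {f : MvPolynomial I K} :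
    f ∈ Lt K I k ↔ ∀ α, coeff α f ≠ 0 → α.degree < k := by
  cases k with
  | zero =>
    rw [mem_Lt_zero]
    constructor
    · rintro rfl α h; simp at h
    · intro h
      ext α
      by_contra h2
      exact absurd (h α h2) (Nat.not_lt_zero _)
  | succ k =>
    rw [mem_Lt_succ, totalDegree, Finset.sup_le_iff]
    constructor
    · intro h α hα
      have := h α (mem_support_iff.2 hα)
      exact Nat.lt_succ_of_le this
    · intro h α hα
      exact Nat.le_of_lt_succ (h α (mem_support_iff.1 hα))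

lemma Lt_mul {m n : ℕ} {f g : MvPolynomial I K} (hf : f ∈ Lt K I m) (hg : g ∈ Lt K I (n + 1)) :
    f * g ∈ Lt K I (m + n) := by
  cases m with
  | zero => rw [mem_Lt_zero.1 hf, zero_mul]; exact Submodule.zero_mem _
  | succ m =>
    rw [mem_Lt_succ] at hf hg
    rw [show m + 1 + n = m + n + 1 by ring, mem_Lt_succ]
    exact (totalDegree_mul _ _).trans (by omega)

lemma Lt_mul' {m n : ℕ} {f g : MvPolynomial I K} (hf : f ∈ Lt K I (m + 1)) (hg : g ∈ Lt K I n) :
    f * g ∈ Lt K I (m + n) := by
  rw [mul_comm, add_comm]; exact Lt_mul hg hf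

lemma mem_Lt_self (f : MvPolynomial I K) : f ∈ Lt K I (f.totalDegree + 1) := mem_Lt_succ.2 le_rfl

lemma monomial_mem_Lt (α : I →₀ ℕ) (c : K) : monomial α c ∈ Lt K I (α.degree + 1) := by
  rw [mem_Lt_succ]; exact totalDegree_monomial_le _ _

lemma homog_mem_Lt {d : ℕ} {f : MvPolynomial I K} (hf : f.IsHomogeneous d) :
    f ∈ Lt K I (d + 1) := mem_Lt_succ.2 hf.totalDegree_le

lemma homog_eq_zero {d : ℕ} {f : MvPolynomial I K} (hf : f.IsHomogeneous d)
    (h : f ∈ Lt K I d) : f = 0 := by
  ext α
  by_contra h2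
  have h3 := mem_Lt.1 h α h2
  have h4 := hf h2
  have h5 : α.degree = d := by rw [Finsupp.degree_eq_weight_one]; exact h4
  omega

/-- linear maps with a degree bound on monomials -/
lemma map_mem_of_monomial {W : Type} [AddCommGroup W] [Module K W]
    (T : MvPolynomial I K →ₗ[K] W) (N : Submodule K W) (f : MvPolynomial I K)
    (h : ∀ α, coeff α f ≠ 0 → T (monomial α 1) ∈ N) : T f ∈ N := by
  rw [f.as_sum, map_sum]
  refine N.sum_mem fun α hα => ?_
  have : monomial α (coeff α f) = coeff α f • (monomial α 1 : MvPolynomial I K) := by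
    rw [smul_monomial, smul_eq_mul, mul_one]
  rw [this, map_smul]
  exact N.smul_mem _ (h α (mem_support_iff.1 hα))

section unitri

variable (T : MvPolynomial I K →ₗ[K] MvPolynomial I K)
  (hT : ∀ m g, g ∈ Lt K I (m + 1) → T g - g ∈ Lt K I m)

include hT

lemma unitri_mem {k : ℕ} {g : MvPolynomial I K} (h : T g ∈ Lt K I k) : g ∈ Lt K I k := by
  by_contra hg
  have h0 : g ≠ 0 := by rintro rfl; exact hg (Submodule.zero_mem _)
  have h1 : k ≤ g.totalDegree := by
    by_contra h2
    exact hg (Lt_mono (by omega) (mem_Lt_self g))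
  have h2 := hT _ g (mem_Lt_self g)
  have h3 : g = T g - (T g - g) := by ring
  refine not_mem_Lt h0 le_rfl ?_
  rw [h3]
  rw [← h3]
  have := Submodule.sub_mem _ (Lt_mono h1 h) h2
  rwa [← h3] at this

lemma unitri_inj : Function.Injective T := by
  rw [injective_iff_map_eq_zero]
  intro g hg
  have : T g ∈ Lt K I 0 := by rw [hg]; exact Submodule.zero_mem _
  exact mem_Lt_zero.1 (unitri_mem T hT this)

lemma unitri_surj : Function.Surjective T := by
  have key : ∀ k, ∀ g ∈ Lt K I k, g ∈ LinearMap.range T := by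
    intro k
    induction k with
    | zero => intro g hg; rw [mem_Lt_zero.1 hg]; exact Submodule.zero_mem _
    | succ k ih =>
      intro g hg
      have h1 := ih _ (hT k g hg)
      have h2 := Submodule.sub_mem _ (LinearMap.mem_range_self T g) h1
      rwa [sub_sub_cancel] at h2
  intro g
  exact key _ g (mem_Lt_self g)

end unitri

lemma bind (b : Module.Basis I K L) (C : L → Prop) (hb : ∀ i, C (b i)) (h0 : C 0)
    (ha : ∀ x y, C x → C y → C (x + y)) (hs : ∀ (c : K) x, C x → C (c • x)) (x : L) : C x := by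
  have hx : x ∈ Submodule.span K (Set.range b) := by rw [b.span_eq]; trivial
  induction hx using Submodule.span_induction with
  | mem x h => obtain ⟨i, rfl⟩ := h; exact hb i
  | zero => exact h0
  | add x y _ _ hx hy => exact ha x y hx hy
  | smul c x _ hx => exact hs c x hx

/-- the linear form attached to an element of the Lie algebra -/
noncomputable def lf (b : Module.Basis I K L) : L →ₗ[K] MvPolynomial I K :=
  b.constr K fun i => X i

@[simp] lemma lf_basis (b : Module.Basis I K L) (i : I) : lf b (b i) = X i := by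
  simp [lf]

lemma lf_homog (b : Module.Basis I K L) (y : L) : (lf b y).IsHomogeneous 1 := by
  refine bind b (fun y => (lf b y).IsHomogeneous 1) ?_ ?_ ?_ ?_ y
  · intro i; rw [lf_basis]; exact isHomogeneous_X K i
  · rw [map_zero]; exact isHomogeneous_zero _ _ _
  · intro x y hx hy; rw [map_add]; exact hx.add hy
  · intro c x hx; rw [map_smul]; exact (homogeneousSubmodule I K 1).smul_mem c hx

/-- a symbol map -/
structure PSym (b : Module.Basis I K L) where
  /-- the symbol -/
  σ : U K L ≃ₗ[K] MvPolynomial I K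
  one : σ 1 - 1 ∈ Lt K I 0
  io : ∀ y, σ (io K y) - lf b y ∈ Lt K I 1
  mul : ∀ m n u v, σ u ∈ Lt K I (m + 1) → σ v ∈ Lt K I (n + 1) →
    σ (u * v) - σ u * σ v ∈ Lt K I (m + n)

theorem exists_PSym (b : Module.Basis I K L) : Nonempty (PSym b) := by
  classical
  let _ : LinearOrder I := IsWellOrder.linearOrder WellOrderingRel
  obtain ⟨ρ, hlie, hρ⟩ := t_PBW2 K L I b
  obtain ⟨Φ, hΦ'⟩ := exists_lift ρ hlie
  set g : I → U K L := fun i => io K (b i) with hg
  have hΦ : ∀ i, Φ (g i) = ρ (b i) := fun i => hΦ' (b i)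
  have hspan : ∀ x : L, io K x ∈ Submodule.span K (Set.range g) := by
    intro x
    rw [← b.linearCombination_repr x, Finsupp.linearCombination_apply, Finsupp.sum, map_sum]
    refine Submodule.sum_mem _ fun i _ => ?_
    rw [map_smul]
    exact Submodule.smul_mem _ _ (Submodule.subset_span ⟨i, rfl⟩)
  have hcomm : ∀ β γ, g β * g γ - g γ * g β ∈ Submodule.span K
      {z | ∃ δ, (fun _ : I => 1) δ ≤ (fun _ : I => 1) β + (fun _ : I => 1) γ ∧ z = g δ} := by
    intro β γ
    rw [← io_lie]
    refine Submodule.span_mono ?_ (hspan _)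
    rintro _ ⟨i, rfl⟩
    exact ⟨i, by simp, rfl⟩
  have hrange : ∀ l : List I, (l.map g).prod ∈ LinearMap.range (Psi (K := K) g) := by
    intro l
    have h3 := t_SORT K (U K L) I g (fun _ => 1) hcomm l
    refine Submodule.span_le.2 ?_ h3
    rintro _ ⟨m, hm, _, rfl⟩
    refine ⟨MvPolynomial.monomial (Multiset.toFinsupp (m : Multiset I)) 1, ?_⟩
    rw [Psi_monomial, one_smul, lst_of_sorted m hm]
  have hsurj : ∀ u : U K L, ∃ σ, Psi (K := K) g σ = u := by
    intro u
    have h4 : u ∈ Algebra.adjoin K (Set.range g) := by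
      have := adjoin_top b
      change Algebra.adjoin K (Set.range g) = ⊤ at this
      rw [this]
      exact Algebra.mem_top
    rw [← Subalgebra.mem_toSubmodule, Algebra.adjoin_eq_span] at h4
    have h5 : Submodule.span K (Submonoid.closure (Set.range g) : Set _) ≤
        LinearMap.range (Psi (K := K) g) := by
      rw [Submodule.span_le]
      intro z hz
      obtain ⟨l, rfl⟩ := mem_closure_range g hz
      exact hrange l
    exact h5 h4
  let s0 : U K L →ₗ[K] MvPolynomial I K := (LinearMap.applyₗ 1).comp Φ.toLinearMap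
  have hs0 : ∀ u, s0 u = Φ u 1 := fun u => rfl
  let T : MvPolynomial I K →ₗ[K] MvPolynomial I K := s0.comp (Psi (K := K) g)
  have hT : ∀ m f, f ∈ Lt K I (m + 1) → T f - f ∈ Lt K I m := by
    intro m f hf
    have h1 := act_Psi b ρ g Φ hΦ hρ (mem_Lt_succ.1 hf)
      (show (1 : MvPolynomial I K).totalDegree ≤ 0 by simp)
    rw [mul_one, add_zero] at h1
    exact h1
  have hinj : Function.Injective s0 := by
    intro u v huv
    obtain ⟨f, rfl⟩ := hsurj u
    obtain ⟨f', rfl⟩ := hsurj v
    rw [unitri_inj T hT huv]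
  have hsur : Function.Surjective s0 := by
    intro f
    obtain ⟨f', hf'⟩ := unitri_surj T hT f
    exact ⟨_, hf'⟩
  have hbij : Function.Bijective s0 := ⟨hinj, hsur⟩
  refine ⟨⟨LinearEquiv.ofBijective s0 hbij, ?_, ?_, ?_⟩⟩
  · rw [LinearEquiv.ofBijective_apply, hs0, map_one Φ]; simp
  · intro y
    rw [LinearEquiv.ofBijective_apply]
    refine bind b (fun y => s0 (io K y) - lf b y ∈ Lt K I 1) ?_ ?_ ?_ ?_ y
    · intro i
      have := step2 b ρ hρ i (show (1 : MvPolynomial I K).totalDegree ≤ 0 by simp)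
      rw [hs0, hΦ', lf_basis]
      simpa using this
    · simp
    · intro x y hx hy
      have := Submodule.add_mem _ hx hy
      simp only [map_add]
      convert this using 1; ring
    · intro c x hx
      have := Submodule.smul_mem _ c hx
      simp only [map_smul]
      rwa [smul_sub] at this
  · intro m n u v hu hv
    simp only [LinearEquiv.ofBijective_apply] at hu hv ⊢
    obtain ⟨f, rfl⟩ := hsurj u
    have hf : f ∈ Lt K I (m + 1) := unitri_mem T hT hu
    have h1 := act_Psi b ρ g Φ hΦ hρ (mem_Lt_succ.1 hf) (mem_Lt_succ.1 hv)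
    have h2 := Lt_mul (hT m f hf) hv
    have h3 := Submodule.sub_mem _ h1 h2
    rw [hs0 (_ * v), map_mul, Module.End.mul_apply, ← hs0 v]
    convert h3 using 1
    change _ - T f * _ = _
    ring

namespace PSym

variable {b : Module.Basis I K L} (S : PSym b)

/-- `u` has degree at most `d` and symbol `f` in degree `d` -/
def Sy (d : ℕ) (u : U K L) (f : MvPolynomial I K) : Prop :=
  S.σ u - f ∈ Lt K I d ∧ f ∈ Lt K I (d + 1)

variable {S}

lemma Sy.deg {d : ℕ} {u : U K L} {f : MvPolynomial I K} (h : S.Sy d u f) :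
    S.σ u ∈ Lt K I (d + 1) := by
  have := Submodule.add_mem _ (Lt_mono (Nat.le_succ d) h.1) h.2
  rwa [sub_add_cancel] at this

lemma sy_self {d : ℕ} {u : U K L} (h : S.σ u ∈ Lt K I (d + 1)) : S.Sy d u (S.σ u) :=
  ⟨by rw [sub_self]; exact Submodule.zero_mem _, h⟩

lemma sy_symm {d : ℕ} {f : MvPolynomial I K} (h : f ∈ Lt K I (d + 1)) :
    S.Sy d (S.σ.symm f) f :=
  ⟨by rw [LinearEquiv.apply_symm_apply, sub_self]; exact Submodule.zero_mem _, h⟩

lemma Sy.congr {d : ℕ} {u : U K L} {f g : MvPolynomial I K} (h : S.Sy d u f)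
    (hg : f - g ∈ Lt K I d) : S.Sy d u g := by
  constructor
  · have := Submodule.add_mem _ h.1 hg
    rwa [sub_add_sub_cancel] at this
  · have := Submodule.sub_mem _ h.2 (Lt_mono (Nat.le_succ d) hg)
    rwa [sub_sub_cancel] at this

lemma Sy.uniq {d : ℕ} {u : U K L} {f g : MvPolynomial I K} (h : S.Sy d u f) (h' : S.Sy d u g) :
    f - g ∈ Lt K I d := by
  have := Submodule.sub_mem _ h'.1 h.1
  rwa [sub_sub_sub_cancel_left] at this

lemma Sy.mono {d e : ℕ} {u : U K L} {f : MvPolynomial I K} (h : S.Sy d u f) (hde : d ≤ e) :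
    S.Sy e u f := ⟨Lt_mono hde h.1, Lt_mono (by omega) h.2⟩

lemma Sy.zero_of_lt {d e : ℕ} {u : U K L} {f : MvPolynomial I K} (h : S.Sy d u f) (hde : d < e) :
    S.Sy e u 0 :=
  ⟨by rw [sub_zero]; exact Lt_mono hde h.deg, Submodule.zero_mem _⟩

lemma sy_zero (d : ℕ) : S.Sy d 0 0 := ⟨by simp, Submodule.zero_mem _⟩

lemma Sy.add {d : ℕ} {u v : U K L} {f g : MvPolynomial I K} (h : S.Sy d u f) (h' : S.Sy d v g) :
    S.Sy d (u + v) (f + g) := by
  refine ⟨?_, Submodule.add_mem _ h.2 h'.2⟩
  have := Submodule.add_mem _ h.1 h'.1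
  rw [map_add]
  convert this using 1; ring

lemma Sy.smul {d : ℕ} {u : U K L} {f : MvPolynomial I K} (c : K) (h : S.Sy d u f) :
    S.Sy d (c • u) (c • f) := by
  refine ⟨?_, Submodule.smul_mem _ c h.2⟩
  have := Submodule.smul_mem _ c h.1
  rwa [map_smul, ← smul_sub]

lemma Sy.sub {d : ℕ} {u v : U K L} {f g : MvPolynomial I K} (h : S.Sy d u f) (h' : S.Sy d v g) :
    S.Sy d (u - v) (f - g) := by
  have := h.add (h'.smul (-1))
  rwa [neg_one_smul, neg_one_smul, ← sub_eq_add_neg, ← sub_eq_add_neg] at this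

lemma Sy.sum {J : Type} (s : Finset J) {d : ℕ} {u : J → U K L} {f : J → MvPolynomial I K}
    (h : ∀ j ∈ s, S.Sy d (u j) (f j)) : S.Sy d (∑ j ∈ s, u j) (∑ j ∈ s, f j) := by
  classical
  induction s using Finset.induction_on with
  | empty => simpa using sy_zero d
  | insert a s ha ih =>
    rw [Finset.sum_insert ha, Finset.sum_insert ha]
    exact (h a (Finset.mem_insert_self _ _)).add
      (ih fun j hj => h j (Finset.mem_insert_of_mem hj))

lemma Sy.mul {d e : ℕ} {u v : U K L} {f g : MvPolynomial I K} (h : S.Sy d u f)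
    (h' : S.Sy e v g) : S.Sy (d + e) (u * v) (f * g) := by
  constructor
  · have h1 := S.mul d e u v h.deg h'.deg
    have h2 := Lt_mul h.1 h'.deg
    have h3 := Lt_mul' h.2 h'.1
    have := Submodule.add_mem _ (Submodule.add_mem _ h1 h2) h3
    convert this using 1; ring
  · have := Lt_mul h.2 h'.2
    rwa [show d + 1 + e = d + e + 1 by ring] at this

lemma sy_one : S.Sy 0 1 1 := ⟨S.one, mem_Lt_succ.2 (by simp)⟩

lemma sy_io (y : L) : S.Sy 1 (H344PS.io K y) (lf b y) := ⟨S.io y, homog_mem_Lt (lf_homog b y)⟩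

lemma Sy.pow {d : ℕ} {u : U K L} {f : MvPolynomial I K} (h : S.Sy d u f) (n : ℕ) :
    S.Sy (n * d) (u ^ n) (f ^ n) := by
  induction n with
  | zero => simpa using sy_one
  | succ n ih =>
    rw [pow_succ, pow_succ, add_mul, one_mul]
    exact ih.mul h

lemma sy_word (l : List L) :
    S.Sy l.length (l.map (H344PS.io K)).prod (l.map (lf b)).prod := by
  induction l with
  | nil => simpa using sy_one
  | cons y l ih =>
    simp only [List.map_cons, List.prod_cons, List.length_cons]
    rw [add_comm]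
    exact (sy_io y).mul ih

lemma Sy.eq_zero {u : U K L} {f : MvPolynomial I K} (h : S.Sy 0 u f) (hf : f = 0) : u = 0 := by
  have := h.1
  rw [hf, sub_zero, mem_Lt_zero] at this
  exact S.σ.injective (by rw [this, map_zero])

include S in
lemma mul_ne_zero {u v : U K L} (hu : u ≠ 0) (hv : v ≠ 0) : u * v ≠ 0 := by
  intro h
  have h1 := (sy_self (S := S) (mem_Lt_self (S.σ u))).mul (sy_self (S := S) (mem_Lt_self (S.σ v)))
  have hu' : S.σ u ≠ 0 := fun h0 => hu (S.σ.injective (by rw [h0, map_zero]))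
  have hv' : S.σ v ≠ 0 := fun h0 => hv (S.σ.injective (by rw [h0, map_zero]))
  have h2 := h1.1
  rw [h, map_zero, zero_sub, Submodule.neg_mem_iff] at h2
  refine not_mem_Lt (_root_.mul_ne_zero hu' hv') ?_ h2
  rw [totalDegree_mul_of_isDomain hu' hv']

include S in
lemma one_ne_zero : (1 : U K L) ≠ 0 := by
  intro h
  have := S.one
  rw [h, map_zero, mem_Lt_zero] at this
  simp at this

include S in
lemma io_inj : Function.Injective (H344PS.io K (L := L)) := by
  rw [injective_iff_map_eq_zero]
  intro y hy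
  have h1 := S.io y
  rw [hy, map_zero, zero_sub, Submodule.neg_mem_iff] at h1
  have h2 := homog_eq_zero (lf_homog b y) h1
  apply b.repr.injective
  ext i
  have h3 : ∀ y, coeff (Finsupp.single i 1) (lf b y) = b.repr y i := by
    intro y
    refine bind b (fun y => coeff (Finsupp.single i 1) (lf b y) = b.repr y i) ?_ ?_ ?_ ?_ y
    · intro j
      classical
      rw [lf_basis, coeff_X, Module.Basis.repr_self, Finsupp.single_apply]
      by_cases h : j = i
      · simp [h]
      · rw [if_neg h, if_neg]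
        intro h'
        exact h (Finsupp.single_left_injective _root_.one_ne_zero h')
    · simp
    · intro x y hx hy; simp [hx, hy]
    · intro c x hx; simp [hx]
  rw [← h3, h2]; simp

end PSym

end H344PS
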