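import Pool.Agent.H344Z.PS.SS

/-! A toral centralizer forces the integral to act nontrivially. -/

set_option autoImplicit false
set_option linter.unusedSectionVars false

namespace H344PS

open MvPolynomial H67OL H67OL.DOMaux

variable {K : Type} [Field K] {L : Type} [LieRing L] [LieAlgebra K L] {I : Type} [Fintype I]
  {p : ℕ} [hp : Fact p.Prime] [CharP K p]

lemma exists_adapted [FiniteDimensional K L] (Z : Submodule K L) :
    ∃ (I : Type) (_ : Fintype I) (b : Module.Basis I K L),
      ∀ i, b i ∈ Z ∨ ∀ x ∈ Z, b.repr x i = 0 := by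
  obtain ⟨W, hW⟩ := Z.exists_isCompl
  let bZ := Module.finBasis K Z
  let bW := Module.finBasis K W
  refine ⟨_, inferInstance, (bZ.prod bW).map (Submodule.prodEquivOfIsCompl Z W hW), ?_⟩
  rintro (i | i)
  · left
    simp
  · right
    intro x hx
    have := Submodule.prodEquivOfIsCompl_symm_apply_left Z W hW ⟨x, hx⟩
    simp only [Module.Basis.map_repr, LinearEquiv.trans_apply, Module.Basis.prod_repr_inr]
    rw [this]; simp

lemma tor_int {Q : Type} [Ring Q] [Algebra K Q] (pm : L → L) (t : L →ₗ[K] Q)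
    (hpm : ∀ y, t (pm y) = t y ^ p) {H : Q} (hH : ∀ y, t y * H = 0) (Z : L → Prop)
    (hab : ∀ x y, Z x → Z y → Commute (t x) (t y))
    (hss : ∀ x, Z x → x ∈ Submodule.span K (Set.range fun k : ℕ => pm^[k + 1] x))
    {A : Type} (F : Finset A) (y : A → L) (hy : ∀ a ∈ F, Z (y a)) (u : A → Q)
    (h : H = ∑ a ∈ F, t (y a) * u a) : H = 0 := by
  classical
  have h1 : ∀ x k, t (pm^[k] x) = t x ^ p ^ k := by
    intro x k
    induction k with
    | zero => simp
    | succ k ih => rw [Function.iterate_succ_apply', hpm, ih, ← pow_mul, pow_succ]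
  have h2 : ∀ x, Z x → ∃ w, (∀ z, Z z → Commute w (t z)) ∧ w * H = 0 ∧ t x = w * t x := by
    intro x hx
    have : ∀ v ∈ Submodule.span K (Set.range fun k : ℕ => pm^[k + 1] x),
        ∃ w, (∀ z, Z z → Commute w (t z)) ∧ w * H = 0 ∧ t v = w * t x := by
      intro v hv
      induction hv using Submodule.span_induction with
      | mem v hv =>
        obtain ⟨k, rfl⟩ := hv
        obtain ⟨m, hm⟩ : ∃ m, p ^ (k + 1) = m + 1 + 1 := by
          have : 1 < p ^ (k + 1) := Nat.one_lt_pow (Nat.succ_ne_zero k) hp.out.one_lt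
          exact ⟨p ^ (k + 1) - 2, by omega⟩
        refine ⟨t x ^ (m + 1), fun z hz => (hab x z hx hz).pow_left _, ?_, ?_⟩
        · rw [pow_succ, mul_assoc, hH, mul_zero]
        · rw [h1, hm, pow_succ]
      | zero => exact ⟨0, fun z _ => Commute.zero_left _, by simp, by simp⟩
      | add v v' _ _ hv hv' =>
        obtain ⟨w, a1, a2, a3⟩ := hv
        obtain ⟨w', b1, b2, b3⟩ := hv'
        exact ⟨w + w', fun z hz => (a1 z hz).add_left (b1 z hz),
          by rw [add_mul, a2, b2, add_zero], by rw [map_add, a3, b3, add_mul]⟩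
      | smul c v _ hv =>
        obtain ⟨w, a1, a2, a3⟩ := hv
        exact ⟨c • w, fun z hz => (a1 z hz).smul_left c,
          by rw [smul_mul_assoc, a2, smul_zero], by rw [map_smul, a3, smul_mul_assoc]⟩
    exact this x (hss x hx)
  have h3 : ∀ F : Finset A, (∀ a ∈ F, Z (y a)) → ∃ e, (∀ z, Z z → Commute e (t z)) ∧ e * H = H ∧
      ∀ a ∈ F, e * t (y a) = 0 := by
    intro F
    induction F using Finset.induction_on with
    | empty => intro _; exact ⟨1, fun z _ => Commute.one_left _, one_mul _, by simp⟩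
    | insert a F _ ih =>
      intro hF
      obtain ⟨e, a1, a2, a3⟩ := ih fun a ha => hF a (Finset.mem_insert_of_mem ha)
      have ha := hF a (Finset.mem_insert_self _ _)
      obtain ⟨w, b1, b2, b3⟩ := h2 _ ha
      refine ⟨(1 - w) * e, fun z hz => ((Commute.one_left _).sub_left (b1 z hz)).mul_left (a1 z hz),
        by rw [mul_assoc, a2, sub_mul, b2, one_mul, sub_zero], fun c hc => ?_⟩
      rcases Finset.mem_insert.1 hc with rfl | hc
      · rw [mul_assoc, (a1 _ ha).eq, ← mul_assoc, sub_mul, one_mul, ← b3, sub_self, zero_mul]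
      · rw [mul_assoc, a3 c hc, mul_zero]
  obtain ⟨e, -, a2, a3⟩ := h3 F hy
  rw [← a2, h, Finset.mul_sum]
  exact Finset.sum_eq_zero fun a ha => by rw [← mul_assoc, a3 a ha, zero_mul]

lemma der_mem_pow (δ : Derivation K (MvPolynomial I K) (MvPolynomial I K))
    (m : Ideal (MvPolynomial I K)) (e : ℕ) : ∀ f ∈ m ^ (e + 1), δ f ∈ m ^ e := by
  induction e with
  | zero => intro f _; simp
  | succ e ih =>
    intro f hf
    rw [pow_succ] at hf
    refine Submodule.mul_induction_on hf (fun a ha c hc => ?_) fun a c ha hc => ?_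
    · rw [der_mul]
      refine Ideal.add_mem _ ?_ (Ideal.mul_mem_right _ _ ha)
      rw [pow_succ]
      exact Ideal.mul_mem_mul (ih a ha) hc
    · rw [map_add]; exact Ideal.add_mem _ ha hc

lemma aeval_mem_pow (m : Ideal (MvPolynomial I K)) (η : I → MvPolynomial I K) (hη : ∀ i, η i ∈ m)
    {e : ℕ} {g : MvPolynomial I K} (hg : g.IsHomogeneous e) : aeval η g ∈ m ^ e := by
  have key : ∀ α : I →₀ ℕ, aeval η (monomial α (1 : K)) ∈ m ^ α.degree := by
    intro α
    refine exp_ind (fun α => aeval η (monomial α (1 : K)) ∈ m ^ α.degree) (by simp) ?_ α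
    intro i α h
    rw [monomial_single_add, map_mul, aeval_X, map_add, Finsupp.degree_single, pow_add, pow_one]
    exact Ideal.mul_mem_mul (hη i) h
  refine map_mem_of_monomial (aeval η).toLinearMap ((m ^ e).restrictScalars K) g fun α hα => ?_
  have h5 : α.degree = e := by rw [Finsupp.degree_eq_weight_one]; exact hg hα
  rw [← h5]; exact key α

/-- iterated derivatives -/
noncomputable def pd (l : List I) (g : MvPolynomial I K) : MvPolynomial I K :=
  l.foldr (fun i g => pderiv i g) g

lemma pd_cons (i : I) (l : List I) (g : MvPolynomial I K) :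
    pd (i :: l) g = pderiv i (pd l g) := rfl

lemma coeff_pd (l : List I) (γ : I →₀ ℕ) : ∃ c : K, (γ + cnt l ∈ Red p I → c ≠ 0) ∧
    ∀ g : MvPolynomial I K, coeff γ (pd l g) = c * coeff (γ + cnt l) g := by
  induction l generalizing γ with
  | nil => exact ⟨1, fun _ => one_ne_zero, fun g => by simp [pd, cnt_nil]⟩
  | cons i l ih =>
    obtain ⟨c, h1, h2⟩ := ih (γ + Finsupp.single i 1)
    refine ⟨c * (γ i + 1), fun h => ?_, fun g => ?_⟩
    · rw [cnt_cons, ← add_assoc] at h
      refine mul_ne_zero (h1 h) ?_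
      have h3 := mem_Red.1 h i
      simp only [Finsupp.add_apply, Finsupp.single_eq_same] at h3
      rw [← Nat.cast_succ, Ne, CharP.cast_eq_zero_iff K p]
      exact Nat.not_dvd_of_pos_of_lt (by omega) (by omega)
    · rw [pd_cons, coeff_pderiv, h2, cnt_cons, ← add_assoc]; ring

lemma eval_lf (b : Module.Basis I K L) (ξ : Module.Dual K L) (y : L) :
    eval (fun i => ξ (b i)) (lf b y) = ξ y := by
  refine bind b (fun y => eval (fun i => ξ (b i)) (lf b y) = ξ y) ?_ ?_ ?_ ?_ y
  · intro i; simp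
  · simp
  · intro x y hx hy; simp [hx, hy]
  · intro c x hx; rw [map_smul, smul_eval, hx, map_smul, smul_eq_mul]

lemma eval_DP (b : Module.Basis I K L) (ξ : Module.Dual K L) {x : L} (hx : ∀ y, ξ ⁅x, y⁆ = 0)
    (f : MvPolynomial I K) : eval (fun i => ξ (b i)) (DP b x f) = 0 := by
  rw [der_eq_sum, map_sum]
  exact Finset.sum_eq_zero fun i _ => by rw [map_mul, DP_X, eval_lf, hx, mul_zero]

theorem ne_zero_of_toral [FiniteDimensional K L] {R : Res p K L} {h : U K L} (hh : IsInt R h)
    (ξ : Module.Dual K L)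
    (hab : ∀ x : L, (∀ y : L, ξ ⁅x, y⁆ = 0) → ∀ z : L, (∀ y : L, ξ ⁅z, y⁆ = 0) → ⁅x, z⁆ = 0)
    (hss : ∀ x : L, (∀ y : L, ξ ⁅x, y⁆ = 0) →
      x ∈ Submodule.span K (Set.range (fun k : ℕ => R.pm^[k + 1] x))) :
    ∃ a, rU h a ≠ 0 := by
  classical
  by_contra hne
  push Not at hne
  have hU : rU h = 0 := LinearMap.ext hne
  let β : L →ₗ[K] Module.Dual K L := LinearMap.mk₂ K (fun x y => ξ ⁅x, y⁆)
    (by simp) (by simp) (by simp) (by simp)
  have hβ : ∀ x y, β x y = ξ ⁅x, y⁆ := fun x y => rfl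
  have hZ : ∀ x, x ∈ LinearMap.ker β ↔ ∀ y, ξ ⁅x, y⁆ = 0 := fun x => by
    rw [LinearMap.mem_ker, LinearMap.ext_iff]; rfl
  obtain ⟨I, _, b, hb⟩ := exists_adapted (LinearMap.ker β)
  have hP := rP_eq_zero b hU
  have hy : ∀ i, ∃ y, b i ∉ LinearMap.ker β → ∀ x, ξ ⁅x, y⁆ = b.repr x i := by
    intro i
    by_cases hi : b i ∈ LinearMap.ker β
    · exact ⟨0, fun h => absurd hi h⟩
    · have h1 : b.coord i ∈ LinearMap.range β.dualMap := by
        rw [LinearMap.range_dualMap_eq_dualAnnihilator_ker, Submodule.mem_dualAnnihilator]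
        exact (hb i).resolve_left hi
      obtain ⟨ψ, hψ⟩ := h1
      obtain ⟨y, rfl⟩ := (Module.evalEquiv K L).surjective ψ
      exact ⟨y, fun _ x => LinearMap.congr_fun hψ x⟩
  choose y' hy' using hy
  let ev := eval (σ := I) fun i => ξ (b i)
  let m : Ideal (MvPolynomial I K) := RingHom.ker ev
  let η : I → MvPolynomial I K := fun i =>
    if b i ∈ LinearMap.ker β then 0 else lf b (y' i) - C (ξ (y' i))
  have hη0 : ∀ i, η i ∈ m := by
    intro i
    simp only [η]
    split_ifs
    · exact m.zero_mem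
    · rw [RingHom.mem_ker, map_sub, eval_lf, eval_C, sub_self]
  have hη1 : ∀ j, b j ∉ LinearMap.ker β → ∀ i,
      DP b (b j) (η i) - (if j = i then 1 else 0) ∈ m := by
    intro j hj i
    simp only [η]
    by_cases hi : b i ∈ LinearMap.ker β
    · rw [if_pos hi, if_neg (by rintro rfl; exact hj hi)]; simp
    · rw [if_neg hi, RingHom.mem_ker, map_sub, map_sub, derivation_C, sub_zero, DP_lf, eval_lf,
        hy' i hi, Module.Basis.repr_self, Finsupp.single_apply]
      split_ifs <;> simp
  have hev : ∀ g, ev (aeval η g) = coeff 0 g := by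
    intro g
    have : ev.comp (aeval η : MvPolynomial I K →ₐ[K] MvPolynomial I K).toRingHom =
        constantCoeff := by
      refine MvPolynomial.ringHom_ext (fun r => ?_) fun i => ?_
      · simp [ev]
      · have := hη0 i
        rw [RingHom.mem_ker] at this
        simpa using this
    exact RingHom.congr_fun this g
  have claim : ∀ l : List I, (∀ j ∈ l, b j ∉ LinearMap.ker β) → ∀ k (g : MvPolynomial I K),
      g.IsHomogeneous (l.length + k) →
      rP b (wd b l) (aeval η g) - aeval η (pd l g) ∈ m ^ (k + 1) ∧ (pd l g).IsHomogeneous k := by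
    intro l
    induction l with
    | nil =>
      intro _ k g hg
      have : wd b [] = 1 := rfl
      rw [this, map_one]
      exact ⟨by simp [pd], by simpa [pd] using hg⟩
    | cons j l ih =>
      intro hl k g hg
      obtain ⟨h1, h2⟩ := ih (fun i hi => hl i (List.mem_cons_of_mem _ hi)) (k + 1) g
        (by rwa [List.length_cons, add_assoc, add_comm 1] at hg)
      refine ⟨?_, pderiv_homog h2 j⟩
      have h3 := der_mem_pow (DP b (b j)) m _ _ h1
      have h4 : DP b (b j) (aeval η (pd l g)) - aeval η (pderiv j (pd l g)) ∈ m ^ (k + 1) := by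
        have e : aeval η (pderiv j (pd l g)) =
            ∑ i, aeval η (pderiv i (pd l g)) * (if j = i then 1 else 0) := by simp
        rw [der_chain, e, ← Finset.sum_sub_distrib]
        refine Ideal.sum_mem _ fun i _ => ?_
        rw [← mul_sub, pow_succ]
        exact Ideal.mul_mem_mul (aeval_mem_pow m η hη0 (pderiv_homog h2 i))
          (hη1 j (hl j List.mem_cons_self) i)
      have := Ideal.add_mem _ h3 h4
      rw [wd_cons, map_mul, Module.End.mul_apply, rP_io, pd_cons]
      rw [map_sub] at this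
      convert this using 1; ring
  obtain ⟨S⟩ := exists_PSym b
  choose W hW using exists_cnt (I := I)
  have hW' : ∀ α, (W α).length = α.degree := fun α => by rw [← degree_cnt, hW]
  let Pz : (I →₀ ℕ) → Prop := fun α => ∃ i, α i ≠ 0 ∧ b i ∈ LinearMap.ker β
  have hi : ∀ α, ∃ (y : L) (u : U K L), Pz α → y ∈ LinearMap.ker β ∧
      S.Sy α.degree (io K y * u) (monomial α 1) := by
    intro α
    by_cases hα : Pz α
    · obtain ⟨i, h1, h2⟩ := hα
      obtain ⟨γ, rfl⟩ : ∃ γ, α = Finsupp.single i 1 + γ :=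
        exists_add_of_le (Finsupp.single_le_iff.2 (Nat.one_le_iff_ne_zero.2 h1))
      refine ⟨b i, S.σ.symm (monomial γ 1), fun _ => ⟨h2, ?_⟩⟩
      rw [map_add, Finsupp.degree_single, monomial_single_add, ← lf_basis b i]
      exact (PSym.sy_io _).mul (PSym.sy_symm (monomial_mem_Lt γ 1))
    · exact ⟨0, 0, fun h => absurd h hα⟩
  choose yy uu hyu using hi
  obtain ⟨c, hc⟩ := PSym.span_J (S := S) R 0
    (fun α => if Pz α then io K (yy α) * uu α else wd b (W α)) (fun α _ => by
      split_ifs with hα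
      · exact (hyu α hα).2
      · have := PSym.sy_wd (S := S) (W α)
        rwa [hW, hW'] at this) h
  have hc0 : ∀ α ∈ Red p I, ¬ Pz α → c α = 0 := by
    by_contra hne
    push Not at hne
    obtain ⟨α0, hα0, hmax⟩ := Finset.exists_max_image
      ((Red p I).filter fun α => ¬ Pz α ∧ c α ≠ 0) (fun α => α.degree) (by
        obtain ⟨a, ha, h1, h2⟩ := hne
        exact ⟨a, Finset.mem_filter.2 ⟨ha, h1, h2⟩⟩)
    rw [Finset.mem_filter] at hα0
    have h1 := rP_eq_zero b (rU_J0 R hc)
    rw [map_sub, hP, zero_sub, neg_eq_zero] at h1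
    have h2 := congrArg ev (LinearMap.congr_fun h1 (aeval η (monomial α0 (1 : K))))
    have h3 : ∀ α ∈ Red p I, ¬ Pz α → c α ≠ 0 → ∃ d : K, d ≠ 0 ∧
        ev (rP b (wd b (W α)) (aeval η (monomial α0 (1 : K)))) =
          d * coeff α (monomial α0 (1 : K)) := by
      intro α hα h4 h5
      obtain ⟨k, hk⟩ := Nat.exists_eq_add_of_le (hmax α (Finset.mem_filter.2 ⟨hα, h4, h5⟩))
      have h6 := (claim (W α) (fun j hj hj' => h4 ⟨j, hW α ▸ cnt_ne_zero hj, hj'⟩) k
        (monomial α0 1) (isHomogeneous_monomial _ (by rw [hW']; exact hk))).1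
      have h7 := Ideal.pow_le_self (Nat.succ_ne_zero k) h6
      rw [RingHom.mem_ker, map_sub, sub_eq_zero, hev] at h7
      obtain ⟨d, hd1, hd2⟩ := coeff_pd (K := K) (p := p) (W α) 0
      rw [zero_add, hW] at hd1 hd2
      exact ⟨d, hd1 hα, by rw [h7, hd2]⟩
    rw [map_sum, LinearMap.sum_apply, map_sum, LinearMap.zero_apply, map_zero,
      Finset.sum_eq_single α0] at h2
    · obtain ⟨d, hd, h4⟩ := h3 α0 hα0.1 hα0.2.1 hα0.2.2
      rw [if_neg hα0.2.1, map_smul, LinearMap.smul_apply, smul_eval, h4, coeff_monomial,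
        if_pos rfl, mul_one] at h2
      exact mul_ne_zero hα0.2.2 hd h2
    · intro α hα hne
      rw [map_smul, LinearMap.smul_apply, smul_eval]
      split_ifs with h4
      · rw [map_mul, Module.End.mul_apply, rP_io, eval_DP b ξ ((hZ _).1 (hyu α h4).1), mul_zero]
      · by_cases h5 : c α = 0
        · rw [h5, zero_mul]
        · obtain ⟨d, -, h6⟩ := h3 α hα h4 h5
          rw [h6, coeff_monomial, if_neg hne.symm, mul_zero, mul_zero]
    · intro h'; exact absurd hα0.1 h'
  set mk := Ideal.Quotient.mkₐ K (R.J 0) with hmk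
  refine hh.2 (Ideal.Quotient.eq_zero_iff_mem.1 ?_)
  refine tor_int (p := p) R.pm (mk.toLinearMap.comp (io K)) (fun y => ?_) (H := mk h) (fun y => ?_)
    (fun x => ∀ y, ξ ⁅x, y⁆ = 0) (fun x y hx hy => ?_) hss ((Red p I).filter Pz) yy
    (fun α hα => (hZ _).1 (hyu α (Finset.mem_filter.1 hα).2).1) (fun α => c α • mk (uu α)) ?_
  · simp only [LinearMap.comp_apply, AlgHom.toLinearMap_apply]
    rw [← map_pow mk]
    exact (Ideal.Quotient.eq.2 (R.z_mem_J0 y)).symm
  · simp only [LinearMap.comp_apply, AlgHom.toLinearMap_apply]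
    rw [← map_mul mk]
    exact Ideal.Quotient.eq_zero_iff_mem.2 (hh.1 y)
  · simp only [LinearMap.comp_apply, AlgHom.toLinearMap_apply]
    refine Commute.map ?_ mk
    have := io_lie (K := K) x y
    rw [hab x hx y hy, map_zero] at this
    exact sub_eq_zero.1 this.symm
  · have h1 : mk h = mk _ := Ideal.Quotient.eq.2 hc
    rw [h1, map_sum, Finset.sum_filter]
    refine Finset.sum_congr rfl fun α hα => ?_
    split_ifs with h2
    · simp
    · rw [hc0 α hα h2]; simp

end H344PS
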